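import Mathlib

open Finset

namespace Pool.Agent.Helper82_Renyi

/-- coefficients of `1 - (1-y)^s` -/
noncomputable def bc (s : ℝ) : ℕ → ℝ
  | 0 => 0
  | 1 => s
  | (n + 2) => bc s (n + 1) * (((n:ℝ) + 1 - s) / ((n:ℝ) + 2))

theorem bc_nonneg {s : ℝ} (h0 : 0 < s) (h1 : s < 1) (n : ℕ) : 0 ≤ bc s n := by
  induction n with
  | zero => simp [bc]
  | succ n ih =>
    rcases n with _ | n
    · simp [bc, h0.le]
    · rw [bc]
      apply mul_nonneg ih
      apply div_nonneg
      · have : (0:ℝ) ≤ n := Nat.cast_nonneg n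
        linarith
      · positivity

theorem ringChoose_succ (s : ℝ) (n : ℕ) :
    Ring.choose s (n + 1) = Ring.choose s n * ((s - n) / ((n:ℝ) + 1)) := by
  rw [Ring.choose_eq_smul, Ring.choose_eq_smul, descPochhammer_succ_right]
  have h1 : ((descPochhammer ℤ n) * (Polynomial.X - (n : Polynomial ℤ))).smeval s
      = ((descPochhammer ℤ n).smeval s) * (s - n) := by
    rw [Polynomial.smeval_mul, Polynomial.smeval_sub, Polynomial.smeval_X, Polynomial.smeval_natCast]
    simp
  rw [h1, Nat.factorial_succ]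
  simp only [smul_eq_mul]
  push_cast
  have : (n.factorial : ℝ) ≠ 0 := by positivity
  field_simp

theorem bc_eq (s : ℝ) (n : ℕ) : (-1 : ℝ) ^ (n + 1) * Ring.choose s (n + 1) = - bc s (n + 1) := by
  induction n with
  | zero =>
    rw [ringChoose_succ, Ring.choose_zero_right]
    simp [bc]
  | succ n ih =>
    rw [ringChoose_succ, bc]
    have h1 : (-1 : ℝ) ^ (n + 1 + 1) * (Ring.choose s (n + 1) * ((s - ((n + 1 : ℕ):ℝ)) / (((n + 1 : ℕ):ℝ) + 1)))
      = ((-1 : ℝ) ^ (n + 1) * Ring.choose s (n + 1)) * ((((n:ℝ) + 1 - s)) / ((n:ℝ) + 2)) := by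
      push_cast
      rw [pow_succ (-1 : ℝ) (n + 1)]
      have h2 : (n:ℝ) + 1 + 1 ≠ 0 := by positivity
      have h3 : (n:ℝ) + 2 ≠ 0 := by positivity
      field_simp
      ring
    rw [h1, ih]
    ring

theorem hasSum_bc {s : ℝ} (y : ℝ) (hy0 : 0 ≤ y) (hy1 : y < 1) :
    HasSum (fun n => bc s n * y ^ n) (1 - (1 - y) ^ s) := by
  have h1 := (Real.one_add_rpow_hasFPowerSeriesOnBall_zero (a := s)).hasSum
    (y := -y) (by
      have h0 : ‖y‖₊ < 1 := by
        rw [← NNReal.coe_lt_coe]
        simpa [abs_of_nonneg hy0] using hy1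
      simpa [enorm_eq_nnnorm] using! h0)
  have h2 : ∀ n : ℕ, (binomialSeries ℝ s n fun _ => -y) = Ring.choose s n * (-y) ^ n := by
    intro n
    rw [binomialSeries_apply]
    simp
  simp only [h2, zero_add] at h1
  have h3 : (1 + -y) = 1 - y := by ring
  rw [h3] at h1
  -- shift
  have h4 := (hasSum_nat_add_iff' 1).mpr h1
  have h5 : (fun n : ℕ => Ring.choose s (n + 1) * (-y) ^ (n + 1)) = fun n => -(bc s (n + 1) * y ^ (n + 1)) := by
    funext n
    have := bc_eq s n
    calc Ring.choose s (n + 1) * (-y) ^ (n + 1) = ((-1 : ℝ) ^ (n + 1) * Ring.choose s (n + 1)) * y ^ (n + 1) := by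
          rw [neg_pow]; ring
      _ = _ := by rw [this]; ring
  rw [h5] at h4
  simp only [range_one, sum_singleton, Ring.choose_zero_right, pow_zero, mul_one] at h4
  have h6 := h4.neg
  simp only [neg_neg] at h6
  rw [← hasSum_nat_add_iff' 1]
  simp only [range_one, sum_singleton, pow_zero, mul_one]
  have h7 : bc s 0 = 0 := rfl
  rw [h7, sub_zero]
  convert h6 using 1
  ring

theorem sum_bc_le_one {s : ℝ} (h0 : 0 < s) (h1 : s < 1) (m : ℕ) : ∑ n ∈ range m, bc s n ≤ 1 := by
  have h2 : ∀ y : ℝ, 0 ≤ y → y < 1 → ∑ n ∈ range m, bc s n * y ^ n ≤ 1 := by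
    intro y hy0 hy1
    have h3 := hasSum_bc (s := s) y hy0 hy1
    have h4 := sum_le_hasSum (range m) (fun n _ => mul_nonneg (bc_nonneg h0 h1 n) (pow_nonneg hy0 n)) h3
    have h5 : 0 ≤ (1 - y) ^ s := Real.rpow_nonneg (by linarith) s
    linarith
  have hcont : Filter.Tendsto (fun y : ℝ => ∑ n ∈ range m, bc s n * y ^ n) (nhdsWithin 1 (Set.Iio 1))
      (nhds (∑ n ∈ range m, bc s n * (1:ℝ) ^ n)) := by
    apply Filter.Tendsto.mono_left _ nhdsWithin_le_nhds
    apply Continuous.tendsto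
    fun_prop
  simp only [one_pow, mul_one] at hcont
  apply le_of_tendsto hcont
  filter_upwards [Ioo_mem_nhdsLT (show (0:ℝ) < 1 by norm_num)] with y hy
  exact h2 y hy.1.le hy.2

theorem summable_bc {s : ℝ} (h0 : 0 < s) (h1 : s < 1) : Summable (bc s) :=
  summable_of_sum_range_le (bc_nonneg h0 h1) (sum_bc_le_one h0 h1)

theorem tsum_bc {s : ℝ} (h0 : 0 < s) (h1 : s < 1) : ∑' n, bc s n = 1 := by
  apply le_antisymm
  · exact (summable_bc h0 h1).tsum_le_of_sum_range_le (sum_bc_le_one h0 h1)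
  · have h2 : ∀ y : ℝ, 0 ≤ y → y < 1 → 1 - (1 - y) ^ s ≤ ∑' n, bc s n := by
      intro y hy0 hy1
      rw [← (hasSum_bc (s := s) y hy0 hy1).tsum_eq]
      apply (hasSum_bc (s := s) y hy0 hy1).summable.tsum_le_tsum _ (summable_bc h0 h1)
      intro n
      calc bc s n * y ^ n ≤ bc s n * 1 := mul_le_mul_of_nonneg_left (pow_le_one₀ hy0 hy1.le) (bc_nonneg h0 h1 n)
        _ = _ := mul_one _
    have hcont : Filter.Tendsto (fun y : ℝ => 1 - (1 - y) ^ s) (nhdsWithin 1 (Set.Iio 1))
        (nhds (1 - (1 - 1) ^ s)) := by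
      apply Filter.Tendsto.mono_left _ nhdsWithin_le_nhds
      apply Continuous.tendsto
      have : Continuous (fun y : ℝ => (1 - y) ^ s) := by
        apply Continuous.rpow_const (by fun_prop)
        intro _; right; exact h0.le
      fun_prop
    rw [sub_self, Real.zero_rpow h0.ne', sub_zero] at hcont
    apply le_of_tendsto hcont
    filter_upwards [Ioo_mem_nhdsLT (show (0:ℝ) < 1 by norm_num)] with y hy
    exact h2 y hy.1.le hy.2

/-- series for `x^s` on `[0,1]` -/
theorem rpow_eq_tsum {s : ℝ} (h0 : 0 < s) (h1 : s < 1) (x : ℝ) (hx0 : 0 ≤ x) (hx1 : x ≤ 1) :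
    HasSum (fun n => bc s n * (1 - x) ^ n) (1 - x ^ s) := by
  rcases eq_or_lt_of_le hx0 with h | h
  · rw [← h]
    simp only [sub_zero, one_pow, mul_one]
    rw [Real.zero_rpow h0.ne', sub_zero, ← tsum_bc h0 h1]
    exact (summable_bc h0 h1).hasSum
  · have := hasSum_bc (s := s) (1 - x) (by linarith) (by linarith)
    simpa using this

/-- expectation over simple random walk of length `j` -/
noncomputable def walk {V : Type*} [AddCommGroup V] [Module ℝ V] : ℕ → (ℤ → V) → V
  | 0, φ => φ 0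
  | (j + 1), φ => (1 / 2 : ℝ) • (walk j (fun z => φ (z + 1)) + walk j (fun z => φ (z - 1)))

section walk
variable {V W : Type*} [AddCommGroup V] [Module ℝ V] [AddCommGroup W] [Module ℝ W]

theorem walk_map (L : V →ₗ[ℝ] W) (j : ℕ) (φ : ℤ → V) : L (walk j φ) = walk j (fun z => L (φ z)) := by
  induction j generalizing φ with
  | zero => rfl
  | succ j ih => simp only [walk, map_smul, map_add, ih]

theorem walk_const (j : ℕ) (c : V) : walk j (fun _ => c) = c := by
  induction j with
  | zero => rfl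
  | succ j ih =>
    simp only [walk, ih]
    rw [← two_smul ℝ c, smul_smul]
    norm_num

theorem walk_sub (j : ℕ) (φ ψ : ℤ → V) : walk j (fun z => φ z - ψ z) = walk j φ - walk j ψ := by
  induction j generalizing φ ψ with
  | zero => rfl
  | succ j ih =>
    simp only [walk, ih]
    rw [← smul_sub]
    congr 1
    abel

theorem walk_mono (j : ℕ) (φ ψ : ℤ → ℝ) (h : ∀ z, φ z ≤ ψ z) : walk j φ ≤ walk j ψ := by
  induction j generalizing φ ψ with
  | zero => exact h 0
  | succ j ih =>
    simp only [walk, smul_eq_mul]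
    have h1 := ih (fun z => φ (z + 1)) (fun z => ψ (z + 1)) (fun z => h _)
    have h2 := ih (fun z => φ (z - 1)) (fun z => ψ (z - 1)) (fun z => h _)
    linarith

theorem walk_abs (j : ℕ) (φ : ℤ → ℝ) : |walk j φ| ≤ walk j (fun z => |φ z|) := by
  induction j generalizing φ with
  | zero => exact le_rfl
  | succ j ih =>
    simp only [walk, smul_eq_mul]
    have h1 := ih (fun z => φ (z + 1))
    have h2 := ih (fun z => φ (z - 1))
    rw [abs_mul, abs_of_pos (by norm_num : (0:ℝ) < 1 / 2)]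
    have h3 := abs_add_le (walk j (fun z => φ (z + 1))) (walk j (fun z => φ (z - 1)))
    linarith

theorem walk_sq (j : ℕ) (a : ℤ) : walk j (fun z => (((z + a : ℤ)) : ℝ) ^ 2) = (a:ℝ) ^ 2 + j := by
  induction j generalizing a with
  | zero => simp [walk]
  | succ j ih =>
    simp only [walk, smul_eq_mul]
    have h1 : walk j (fun z => (((z + 1 + a : ℤ)) : ℝ) ^ 2) = ((a + 1 : ℤ):ℝ) ^ 2 + j := by
      rw [← ih (a + 1)]
      congr 1
      funext z
      push_cast; ring
    have h2 : walk j (fun z => (((z - 1 + a : ℤ)) : ℝ) ^ 2) = ((a - 1 : ℤ):ℝ) ^ 2 + j := by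
      rw [← ih (a - 1)]
      congr 1
      funext z
      push_cast; ring
    rw [h1, h2]
    push_cast
    ring

end walk

open Polynomial in
theorem walk_T (j : ℕ) (a : ℤ) :
    walk j (fun z => Polynomial.Chebyshev.T ℝ (z + a)) = (X : ℝ[X]) ^ j * Polynomial.Chebyshev.T ℝ a := by
  induction j generalizing a with
  | zero => simp [walk]
  | succ j ih =>
    simp only [walk]
    have h1 : walk j (fun z => Polynomial.Chebyshev.T ℝ (z + 1 + a)) = X ^ j * Polynomial.Chebyshev.T ℝ (a + 1) := by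
      rw [← ih (a + 1)]
      congr 1
      funext z
      congr 1; ring
    have h2 : walk j (fun z => Polynomial.Chebyshev.T ℝ (z - 1 + a)) = X ^ j * Polynomial.Chebyshev.T ℝ (a - 1) := by
      rw [← ih (a - 1)]
      congr 1
      funext z
      congr 1; ring
    rw [h1, h2, Polynomial.Chebyshev.T_add_one]
    rw [← mul_add, sub_add_cancel]
    rw [show X ^ j * (2 * X * Polynomial.Chebyshev.T ℝ a) = (2:ℝ) • (X ^ (j + 1) * Polynomial.Chebyshev.T ℝ a) by
      rw [smul_eq_C_mul]; simp only [map_ofNat]; ring]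
    rw [smul_smul]
    norm_num

end Pool.Agent.Helper82_Renyi
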