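import Pool.Agent.Helper82_Renyi.Approx

open Finset Polynomial

namespace Pool.Agent.Helper82_Renyi

/-- weighted coefficient bound -/
def CB (R B : ℝ) (p : ℝ[X]) : Prop := ∀ N : ℕ, ∑ i ∈ range N, |p.coeff i| * R ^ i ≤ B

theorem CB.mono {R B B' : ℝ} {p : ℝ[X]} (h : CB R B p) (hB : B ≤ B') : CB R B' p :=
  fun N => le_trans (h N) hB

theorem CB.add {R B B' : ℝ} {p q : ℝ[X]} (hR : 0 ≤ R) (hp : CB R B p) (hq : CB R B' q) :
    CB R (B + B') (p + q) := by
  intro N
  calc ∑ i ∈ range N, |(p + q).coeff i| * R ^ i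
      ≤ ∑ i ∈ range N, (|p.coeff i| * R ^ i + |q.coeff i| * R ^ i) := by
        apply Finset.sum_le_sum
        intro i _
        rw [coeff_add, ← add_mul]
        exact mul_le_mul_of_nonneg_right (abs_add_le _ _) (pow_nonneg hR i)
    _ = ∑ i ∈ range N, |p.coeff i| * R ^ i + ∑ i ∈ range N, |q.coeff i| * R ^ i := Finset.sum_add_distrib
    _ ≤ B + B' := add_le_add (hp N) (hq N)

theorem CB.smul {R B : ℝ} {p : ℝ[X]} (c : ℝ) (hp : CB R B p) : CB R (|c| * B) (c • p) := by
  intro N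
  calc ∑ i ∈ range N, |(c • p).coeff i| * R ^ i = |c| * ∑ i ∈ range N, |p.coeff i| * R ^ i := by
        rw [Finset.mul_sum]
        apply Finset.sum_congr rfl
        intro i _
        rw [coeff_smul, smul_eq_mul, abs_mul]; ring
    _ ≤ |c| * B := mul_le_mul_of_nonneg_left (hp N) (abs_nonneg c)

theorem CB.neg {R B : ℝ} {p : ℝ[X]} (hp : CB R B p) : CB R B (-p) := by
  intro N
  have := hp N
  simpa using this

theorem CB.sub {R B B' : ℝ} {p q : ℝ[X]} (hR : 0 ≤ R) (hp : CB R B p) (hq : CB R B' q) :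
    CB R (B + B') (p - q) := by
  rw [sub_eq_add_neg]
  exact hp.add hR hq.neg

theorem CB.X_mul {R B : ℝ} {p : ℝ[X]} (hR : 0 ≤ R) (hp : CB R B p) : CB R (R * B) (X * p) := by
  intro N
  rcases N with _ | N
  · have := hp 0
    simp only [range_zero, sum_empty] at this ⊢
    exact mul_nonneg hR this
  · rw [Finset.sum_range_succ']
    simp only [coeff_X_mul, coeff_X_mul_zero, abs_zero, zero_mul, add_zero]
    calc ∑ i ∈ range N, |p.coeff i| * R ^ (i + 1) = R * ∑ i ∈ range N, |p.coeff i| * R ^ i := by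
          rw [Finset.mul_sum]
          apply Finset.sum_congr rfl
          intro i _; ring
      _ ≤ R * B := mul_le_mul_of_nonneg_left (hp N) hR

theorem CB.X_pow_mul {R B : ℝ} {p : ℝ[X]} (hR : 0 ≤ R) (hp : CB R B p) (r : ℕ) :
    CB R (R ^ r * B) (X ^ r * p) := by
  induction r with
  | zero => simpa using hp
  | succ r ih =>
    have := ih.X_mul hR
    rw [pow_succ', pow_succ', mul_assoc, mul_assoc]
    exact this

theorem CB_zero {R : ℝ} : CB R 0 (0 : ℝ[X]) := by
  intro N; simp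

theorem CB_one {R : ℝ} : CB R 1 (1 : ℝ[X]) := by
  intro N
  rcases N with _ | N
  · simp
  · rw [Finset.sum_range_succ']
    simp [coeff_one]

theorem CB.nonneg {R B : ℝ} {p : ℝ[X]} (hp : CB R B p) : 0 ≤ B := by
  have := hp 0
  simpa using this

theorem CB_T {R : ℝ} (hR : 0 ≤ R) (n : ℕ) :
    CB R ((3 + 2 * R) ^ n) ((Chebyshev.T ℝ (n : ℤ)).comp (1 - X)) := by
  have key : ∀ n : ℕ, CB R ((3 + 2 * R) ^ n) ((Chebyshev.T ℝ (n : ℤ)).comp (1 - X)) ∧
      CB R ((3 + 2 * R) ^ (n + 1)) ((Chebyshev.T ℝ ((n + 1 : ℕ) : ℤ)).comp (1 - X)) := by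
    intro n
    induction n with
    | zero =>
      constructor
      · simp only [Nat.cast_zero, Chebyshev.T_zero, one_comp, pow_zero]
        exact CB_one
      · simp only [zero_add, Nat.cast_one, Chebyshev.T_one, X_comp, pow_one]
        have h1 : CB R (R * 1) (X * (1 : ℝ[X])) := CB_one.X_mul hR
        have h2 := (CB_one (R := R)).sub hR h1
        simp only [mul_one] at h2
        exact h2.mono (by linarith)
    | succ n ih =>
      obtain ⟨ih1, ih2⟩ := ih
      refine ⟨ih2, ?_⟩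
      have e : ((n + 1 + 1 : ℕ) : ℤ) = (n : ℤ) + 2 := by push_cast; ring
      have e2 : ((n + 1 : ℕ) : ℤ) = (n : ℤ) + 1 := by push_cast; ring
      rw [e, Chebyshev.T_add_two, sub_comp, mul_comp, mul_comp, X_comp]
      rw [e2] at ih2
      have h2c : (2 : ℝ[X]).comp (1 - X) = 2 := by
        rw [show (2 : ℝ[X]) = C 2 from (map_ofNat C 2).symm, C_comp]
      rw [h2c]
      set p := (Chebyshev.T ℝ ((n:ℤ) + 1)).comp (1 - X) with hp
      set q := (Chebyshev.T ℝ (n:ℤ)).comp (1 - X) with hq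
      have e3 : 2 * (1 - X) * p - q = (2:ℝ) • (p - X * p) - q := by
        rw [smul_eq_C_mul]; simp only [map_ofNat]; ring
      rw [e3]
      have h3 := ((ih2.sub hR (ih2.X_mul hR)).smul 2).sub hR ih1
      apply h3.mono
      rw [abs_of_pos (by norm_num : (0:ℝ) < 2)]
      have h4 : (1:ℝ) ≤ 3 + 2 * R := by linarith
      have h5 : 0 < (3 + 2 * R) ^ n := by positivity
      have h6 : (3 + 2 * R) ^ (n + 1 + 1) = (3 + 2 * R) ^ n * (3 + 2 * R) ^ 2 := by ring
      have h7 : (3 + 2 * R) ^ (n + 1) = (3 + 2 * R) ^ n * (3 + 2 * R) := by ring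
      rw [h6, h7]
      nlinarith
  exact (key n).1

theorem CB_walk {R B : ℝ} (hR : 0 ≤ R) (j : ℕ) (φ : ℤ → ℝ[X]) (h : ∀ z, CB R B (φ z)) :
    CB R B (walk j φ) := by
  induction j generalizing φ with
  | zero => exact h 0
  | succ j ih =>
    simp only [walk]
    have h1 := ih (fun z => φ (z + 1)) (fun z => h _)
    have h2 := ih (fun z => φ (z - 1)) (fun z => h _)
    have h3 := (h1.add hR h2).smul (1/2)
    apply h3.mono
    rw [abs_of_pos (by norm_num : (0:ℝ) < 1 / 2)]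
    linarith

theorem walk_mem {V : Type*} [AddCommGroup V] [Module ℝ V] (S : Submodule ℝ V) (j : ℕ) (φ : ℤ → V)
    (h : ∀ z, φ z ∈ S) : walk j φ ∈ S := by
  induction j generalizing φ with
  | zero => exact h 0
  | succ j ih =>
    simp only [walk]
    exact S.smul_mem _ (S.add_mem (ih _ (fun z => h _)) (ih _ (fun z => h _)))

theorem abs_T_le_one (z : ℤ) (y : ℝ) (h0 : -1 ≤ y) (h1 : y ≤ 1) : |(Chebyshev.T ℝ z).eval y| ≤ 1 := by
  have h2 : y = Real.cos (Real.arccos y) := (Real.cos_arccos h0 h1).symm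
  rw [h2, Chebyshev.T_real_cos]
  exact Real.abs_cos_le_one _

/-- truncated walk polynomial approximating `(1-x)^j` -/
noncomputable def PQ (d j : ℕ) : ℝ[X] :=
  walk j (fun z => if z.natAbs ≤ d then (Chebyshev.T ℝ z).comp (1 - X) else 0)

theorem PQ_natDegree (d j : ℕ) : PQ d j ∈ Polynomial.degreeLE ℝ (d : WithBot ℕ) := by
  apply walk_mem
  intro z
  split_ifs with h
  · rw [Polynomial.mem_degreeLE]
    refine le_trans Polynomial.degree_le_natDegree ?_
    have h1 : ((Chebyshev.T ℝ z).comp (1 - X)).natDegree ≤ (Chebyshev.T ℝ z).natDegree * (1 - X : ℝ[X]).natDegree :=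
      Polynomial.natDegree_comp_le
    have h2 : (1 - X : ℝ[X]).natDegree ≤ 1 := by
      apply le_trans (Polynomial.natDegree_sub_le _ _)
      simp
    rw [Chebyshev.natDegree_T] at h1
    have h3 : ((Chebyshev.T ℝ z).comp (1 - X)).natDegree ≤ d := by
      calc _ ≤ z.natAbs * (1 - X : ℝ[X]).natDegree := h1
        _ ≤ z.natAbs * 1 := Nat.mul_le_mul_left _ h2
        _ ≤ d := by omega
    exact_mod_cast h3
  · exact Submodule.zero_mem _

theorem PQ_CB {R : ℝ} (hR : 0 ≤ R) (d j : ℕ) : CB R ((3 + 2 * R) ^ d) (PQ d j) := by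
  apply CB_walk hR
  intro z
  split_ifs with h
  · have h1 := CB_T hR z.natAbs
    rw [show Chebyshev.T ℝ (z.natAbs : ℤ) = Chebyshev.T ℝ z from Chebyshev.T_natAbs ℝ z] at h1
    apply h1.mono
    exact pow_le_pow_right₀ (by linarith) h
  · exact CB_zero.mono (by positivity)

theorem PQ_error (d j : ℕ) (hd : 1 ≤ d) (x : ℝ) (hx0 : 0 ≤ x) (hx1 : x ≤ 1) :
    |(1 - x) ^ j - (PQ d j).eval x| ≤ min 1 ((j:ℝ) / (d:ℝ) ^ 2) := by
  have h1 : (1 - x) ^ j = walk j (fun z => (Chebyshev.T ℝ z).eval (1 - x)) := by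
    have h2 := walk_T j 0
    simp only [add_zero, Chebyshev.T_zero, mul_one] at h2
    have h3 := congrArg (fun p => (Polynomial.leval (1 - x)) p) h2
    simp only [walk_map] at h3
    simp only [leval_apply, eval_pow, eval_X] at h3
    exact h3.symm
  have h4 : (PQ d j).eval x = walk j (fun z => if z.natAbs ≤ d then (Chebyshev.T ℝ z).eval (1 - x) else 0) := by
    have h5 : (PQ d j).eval x = (Polynomial.leval x) (PQ d j) := rfl
    rw [h5, PQ, walk_map]
    congr 1
    funext z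
    split_ifs with h
    · simp [leval_apply, eval_comp]
    · simp
  rw [h1, h4, ← walk_sub]
  have hd0 : (0:ℝ) < d := by exact_mod_cast hd
  have h6 : ∀ z : ℤ, |(Chebyshev.T ℝ z).eval (1 - x) - (if z.natAbs ≤ d then (Chebyshev.T ℝ z).eval (1 - x) else 0)|
      ≤ if z.natAbs ≤ d then 0 else 1 := by
    intro z
    split_ifs with h
    · simp
    · rw [sub_zero]
      exact abs_T_le_one z (1 - x) (by linarith) (by linarith)
  refine le_trans (walk_abs _ _) (le_trans (walk_mono _ _ _ h6) (le_min ?_ ?_))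
  · calc walk j (fun z : ℤ => if z.natAbs ≤ d then (0:ℝ) else 1) ≤ walk j (fun _ : ℤ => (1:ℝ)) := by
          apply walk_mono
          intro z
          split_ifs <;> norm_num
      _ = 1 := walk_const j 1
  · have h7 : walk j (fun z : ℤ => if z.natAbs ≤ d then (0:ℝ) else 1)
        ≤ walk j (fun z : ℤ => (1 / (d:ℝ) ^ 2) * (((z + 0 : ℤ)):ℝ) ^ 2) := by
      apply walk_mono
      intro z
      split_ifs with h
      · positivity
      · rw [add_zero, one_div, ← div_eq_inv_mul, le_div_iff₀ (by positivity), one_mul]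
        have h8 : (d:ℝ) ≤ |(z:ℝ)| := by
          have : (d:ℤ) ≤ |z| := by
            rw [Int.abs_eq_natAbs]
            exact_mod_cast (by omega : d ≤ z.natAbs)
          exact_mod_cast this
        rw [← sq_abs (z:ℝ)]
        exact pow_le_pow_left₀ hd0.le h8 2
    refine le_trans h7 (le_of_eq ?_)
    have h9 : walk j (fun z : ℤ => (1 / (d:ℝ) ^ 2) * (((z + 0 : ℤ)):ℝ) ^ 2)
        = (1 / (d:ℝ) ^ 2) * walk j (fun z : ℤ => (((z + 0 : ℤ)):ℝ) ^ 2) := by
      have := walk_map (LinearMap.lsmul ℝ ℝ (1 / (d:ℝ) ^ 2)) j (fun z : ℤ => (((z + 0 : ℤ)):ℝ) ^ 2)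
      simpa using this.symm
    rw [h9, walk_sq]
    push_cast
    ring

theorem one_sub_pow_ge (u : ℝ) (hu0 : 0 ≤ u) (hu1 : u ≤ 1) (j : ℕ) :
    (1 / 2) * min 1 ((j:ℝ) * u) ≤ 1 - (1 - u) ^ j := by
  have hj : (0:ℝ) ≤ j := Nat.cast_nonneg j
  have h1 : (1 - u) ^ j * (1 + j * u) ≤ 1 := by
    have h2 : 1 + (j:ℝ) * u ≤ (1 + u) ^ j := one_add_mul_le_pow (by linarith) j
    calc (1 - u) ^ j * (1 + j * u) ≤ (1 - u) ^ j * (1 + u) ^ j :=
          mul_le_mul_of_nonneg_left h2 (pow_nonneg (by linarith) j)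
      _ = (1 - u ^ 2) ^ j := by rw [← mul_pow]; ring_nf
      _ ≤ 1 := pow_le_one₀ (by nlinarith) (by nlinarith)
  have hju : 0 ≤ (j:ℝ) * u := mul_nonneg hj hu0
  have h3 : (1 - u) ^ j ≤ 1 / (1 + j * u) := by rw [le_div_iff₀ (by linarith)]; exact h1
  have h4 : (1 / 2) * min 1 ((j:ℝ) * u) ≤ 1 - 1 / (1 + j * u) := by
    have h5 : 1 - 1 / (1 + (j:ℝ) * u) = (j * u) / (1 + j * u) := by field_simp; ring
    rw [h5, le_div_iff₀ (by linarith)]
    rcases le_total 1 ((j:ℝ) * u) with h | h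
    · rw [min_eq_left h]; linarith
    · rw [min_eq_right h]; nlinarith
  linarith

theorem sum_bc_min {s : ℝ} (h0 : 0 < s) (h1 : s < 1) (d m : ℕ) (hd : 1 ≤ d) :
    ∑ j ∈ range m, bc s j * min 1 ((j:ℝ) / (d:ℝ) ^ 2) ≤ 2 * (d:ℝ) ^ (-(2 * s)) := by
  have hd0 : (0:ℝ) < d := by exact_mod_cast hd
  have hd1 : (1:ℝ) ≤ d := by exact_mod_cast hd
  set u : ℝ := 1 / (d:ℝ) ^ 2 with hu
  have hu0 : 0 ≤ u := by positivity
  have hu1 : u ≤ 1 := by
    rw [hu, div_le_one (by positivity)]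
    exact one_le_pow₀ hd1
  have hs : HasSum (fun n => bc s n * (1 - (1 - u) ^ n)) (u ^ s) := by
    have h2 := (summable_bc h0 h1).hasSum
    rw [tsum_bc h0 h1] at h2
    have h3 := rpow_eq_tsum h0 h1 u hu0 hu1
    have h4 := h2.sub h3
    have h5 : (1:ℝ) - (1 - u ^ s) = u ^ s := by ring
    rw [h5] at h4
    have h6 : (fun n => bc s n * (1 - (1 - u) ^ n)) = fun n => bc s n - bc s n * (1 - u) ^ n := by
      funext n; ring
    rw [h6]
    exact h4
  have h6 : ∑ j ∈ range m, bc s j * min 1 ((j:ℝ) / (d:ℝ) ^ 2)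
      ≤ 2 * ∑ j ∈ range m, bc s j * (1 - (1 - u) ^ j) := by
    rw [Finset.mul_sum]
    apply Finset.sum_le_sum
    intro j _
    have h7 := one_sub_pow_ge u hu0 hu1 j
    have h8 : (j:ℝ) / (d:ℝ) ^ 2 = j * u := by rw [hu]; ring
    rw [h8]
    have := bc_nonneg h0 h1 j
    nlinarith
  have h9 := sum_le_hasSum (range m) (fun n _ => by
    have h10 := one_sub_pow_ge u hu0 hu1 n
    have h11 : 0 ≤ min 1 ((n:ℝ) * u) := le_min (by norm_num) (by positivity)
    exact mul_nonneg (bc_nonneg h0 h1 n) (by linarith)) hs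
  have h12 : u ^ s = (d:ℝ) ^ (-(2 * s)) := by
    rw [hu, one_div, Real.inv_rpow (by positivity), ← Real.rpow_natCast, ← Real.rpow_mul hd0.le,
      Real.rpow_neg hd0.le]
    push_cast
    rfl
  rw [h12] at h9
  linarith

/-- Polynomial approximation of `x^s` with rate `d^{-2s}` and controlled coefficients. -/
theorem approx_rpow {s : ℝ} (h0 : 0 < s) (h1 : s < 1) (d : ℕ) (hd : 1 ≤ d) :
    ∃ Q : ℝ[X], Q.natDegree ≤ d ∧ (∀ x : ℝ, 0 ≤ x → x ≤ 1 → |Q.eval x - x ^ s| ≤ 3 * (d:ℝ) ^ (-(2 * s)))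
      ∧ ∀ R : ℝ, 0 ≤ R → CB R (2 * (3 + 2 * R) ^ d) Q := by
  have hd0 : (0:ℝ) < d := by exact_mod_cast hd
  have hpos : 0 < (d:ℝ) ^ (-(2 * s)) := Real.rpow_pos_of_pos hd0 _
  -- choose m
  obtain ⟨m, hm⟩ : ∃ m : ℕ, 1 - ∑ n ∈ range m, bc s n ≤ (d:ℝ) ^ (-(2 * s)) := by
    have h2 := (summable_bc h0 h1).hasSum.tendsto_sum_nat
    rw [tsum_bc h0 h1] at h2
    have h3 : Filter.Tendsto (fun m => 1 - ∑ n ∈ range m, bc s n) Filter.atTop (nhds (1 - 1)) :=
      h2.const_sub 1
    rw [sub_self] at h3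
    exact (h3.eventually (ge_mem_nhds hpos)).exists
  refine ⟨1 - ∑ j ∈ range m, bc s j • PQ d j, ?_, ?_, ?_⟩
  · have h2 : (1 - ∑ j ∈ range m, bc s j • PQ d j) ∈ Polynomial.degreeLE ℝ (d : WithBot ℕ) := by
      apply Submodule.sub_mem
      · rw [Polynomial.mem_degreeLE]
        refine le_trans Polynomial.degree_one_le ?_
        exact_mod_cast Nat.zero_le d
      · apply Submodule.sum_mem
        intro j _
        exact Submodule.smul_mem _ _ (PQ_natDegree d j)
    rw [Polynomial.mem_degreeLE] at h2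
    exact Polynomial.natDegree_le_of_degree_le h2
  · intro x hx0 hx1
    have h2 := rpow_eq_tsum h0 h1 x hx0 hx1
    -- tail
    have h3 : |x ^ s - (1 - ∑ j ∈ range m, bc s j * (1 - x) ^ j)| ≤ (d:ℝ) ^ (-(2 * s)) := by
      have h4 : ∑ j ∈ range m, bc s j * (1 - x) ^ j ≤ 1 - x ^ s :=
        sum_le_hasSum (range m) (fun n _ => mul_nonneg (bc_nonneg h0 h1 n) (pow_nonneg (by linarith) n)) h2
      have h5 : 1 - x ^ s - ∑ j ∈ range m, bc s j * (1 - x) ^ j ≤ 1 - ∑ n ∈ range m, bc s n := by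
        have h6 := (summable_bc h0 h1).hasSum
        rw [tsum_bc h0 h1] at h6
        have h7 := h6.sub h2
        have h8 := sum_le_hasSum (range m) (fun n _ => by
          have h9 : (1 - x) ^ n ≤ 1 := pow_le_one₀ (by linarith) (by linarith)
          have := bc_nonneg h0 h1 n
          show 0 ≤ bc s n - bc s n * (1 - x) ^ n
          nlinarith) h7
        rw [Finset.sum_sub_distrib] at h8
        linarith
      rw [abs_le]
      constructor <;> linarith
    -- truncation of the walk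
    have h4 : |∑ j ∈ range m, bc s j * (1 - x) ^ j - ∑ j ∈ range m, bc s j * (PQ d j).eval x| ≤ 2 * (d:ℝ) ^ (-(2 * s)) := by
      rw [← Finset.sum_sub_distrib]
      calc |∑ j ∈ range m, (bc s j * (1 - x) ^ j - bc s j * (PQ d j).eval x)|
          ≤ ∑ j ∈ range m, |bc s j * (1 - x) ^ j - bc s j * (PQ d j).eval x| := Finset.abs_sum_le_sum_abs _ _
        _ ≤ ∑ j ∈ range m, bc s j * min 1 ((j:ℝ) / (d:ℝ) ^ 2) := by
            apply Finset.sum_le_sum
            intro j _
            rw [← mul_sub, abs_mul, abs_of_nonneg (bc_nonneg h0 h1 j)]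
            exact mul_le_mul_of_nonneg_left (PQ_error d j hd x hx0 hx1) (bc_nonneg h0 h1 j)
        _ ≤ _ := sum_bc_min h0 h1 d m hd
    have h5 : (1 - ∑ j ∈ range m, bc s j • PQ d j).eval x = 1 - ∑ j ∈ range m, bc s j * (PQ d j).eval x := by
      simp [eval_finsetSum]
    rw [h5]
    have h6 : 1 - ∑ j ∈ range m, bc s j * (PQ d j).eval x - x ^ s
        = (∑ j ∈ range m, bc s j * (1 - x) ^ j - ∑ j ∈ range m, bc s j * (PQ d j).eval x)
          - (x ^ s - (1 - ∑ j ∈ range m, bc s j * (1 - x) ^ j)) := by ring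
    rw [h6]
    refine le_trans (abs_sub _ _) ?_
    linarith
  · intro R hR
    have h2 : ∀ m : ℕ, CB R ((∑ j ∈ range m, bc s j) * (3 + 2 * R) ^ d) (∑ j ∈ range m, bc s j • PQ d j) := by
      intro m
      induction m with
      | zero => simpa using CB_zero
      | succ m ih =>
        rw [Finset.sum_range_succ, Finset.sum_range_succ, add_mul]
        apply ih.add hR
        have := (PQ_CB hR d m).smul (bc s m)
        rwa [abs_of_nonneg (bc_nonneg h0 h1 m)] at this
    have h3 := (CB_one (R := R)).sub hR (h2 m)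
    apply h3.mono
    have h4 := sum_bc_le_one h0 h1 m
    have h5 : (1:ℝ) ≤ (3 + 2 * R) ^ d := one_le_pow₀ (by linarith)
    nlinarith

end Pool.Agent.Helper82_Renyi
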