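import Pool.Agent.Helper82_Renyi.Approx2

open Finset Polynomial

namespace Pool.Agent.Helper82_Renyi

theorem approx_alpha (α : ℝ) (hα : 0 < α) (hna : ∀ m : ℕ, α ≠ m) (δ' : ℝ) (hδ' : 0 < δ') :
    ∃ K : ℝ, 0 < K ∧ ∀ d : ℕ, 1 ≤ d → ∃ Q : ℝ[X], Q.natDegree ≤ d + ⌊α⌋₊ ∧
      (∀ x : ℝ, 0 ≤ x → x ≤ 1 → |Q.eval x - x ^ α| ≤ δ' * x ^ α + K * (d:ℝ) ^ (-(2 * α))) ∧
      ∀ R : ℝ, 0 ≤ R → CB R (2 * (3 + 2 * R) ^ (d + ⌊α⌋₊)) Q := by
  set r : ℕ := ⌊α⌋₊ with hr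
  have hrα : (r:ℝ) < α := lt_of_le_of_ne (Nat.floor_le hα.le) (fun h => hna r h.symm)
  have hαr : α < r + 1 := Nat.lt_floor_add_one α
  set s : ℝ := α - r with hs
  have hs0 : 0 < s := by linarith
  have hs1 : s < 1 := by linarith
  set B : ℝ := (3 / δ') ^ (1 / s) with hB
  have hB0 : 0 < B := by positivity
  refine ⟨3 * B ^ r, by positivity, ?_⟩
  intro d hd
  have hd0 : (0:ℝ) < d := by exact_mod_cast hd
  obtain ⟨Q, hQ1, hQ2, hQ3⟩ := approx_rpow hs0 hs1 d hd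
  refine ⟨X ^ r * Q, ?_, ?_, ?_⟩
  · calc (X ^ r * Q).natDegree ≤ (X ^ r : ℝ[X]).natDegree + Q.natDegree := natDegree_mul_le
      _ ≤ r + d := by
          apply Nat.add_le_add _ hQ1
          exact natDegree_X_pow_le r
      _ = d + r := Nat.add_comm _ _
  · intro x hx0 hx1
    have h1 := hQ2 x hx0 hx1
    have h2 : x ^ α = x ^ r * x ^ s := by
      rw [← Real.rpow_natCast x r, ← Real.rpow_add_of_nonneg hx0 (Nat.cast_nonneg r) hs0.le]
      congr 1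
      rw [hs]; ring
    rw [eval_mul, eval_pow, eval_X, h2, ← mul_sub, abs_mul, abs_of_nonneg (pow_nonneg hx0 r)]
    have hxr : 0 ≤ x ^ r := pow_nonneg hx0 r
    have h3 : x ^ r * |Q.eval x - x ^ s| ≤ x ^ r * (3 * (d:ℝ) ^ (-(2 * s))) :=
      mul_le_mul_of_nonneg_left h1 hxr
    have hxs : 0 ≤ x ^ s := Real.rpow_nonneg hx0 s
    have hdpos : 0 < (d:ℝ) ^ (-(2 * α)) := Real.rpow_pos_of_pos hd0 _
    rcases le_total (B / (d:ℝ) ^ 2) x with h | h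
    · -- x large
      have h4 : 3 / δ' * (d:ℝ) ^ (-(2 * s)) ≤ x ^ s := by
        have h5 : (B / (d:ℝ) ^ 2) ^ s ≤ x ^ s := Real.rpow_le_rpow (by positivity) h hs0.le
        have h6 : (B / (d:ℝ) ^ 2) ^ s = 3 / δ' * (d:ℝ) ^ (-(2 * s)) := by
          rw [Real.div_rpow hB0.le (by positivity), hB, ← Real.rpow_mul (by positivity),
            one_div_mul_cancel hs0.ne', Real.rpow_one, ← Real.rpow_natCast (d:ℝ) 2,
            ← Real.rpow_mul hd0.le, Real.rpow_neg hd0.le]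
          push_cast
          rw [div_eq_mul_inv]
        rw [h6] at h5
        exact h5
      have h7 : 3 * (d:ℝ) ^ (-(2 * s)) ≤ δ' * x ^ s := by
        have := mul_le_mul_of_nonneg_left h4 hδ'.le
        calc 3 * (d:ℝ) ^ (-(2 * s)) = δ' * (3 / δ' * (d:ℝ) ^ (-(2 * s))) := by field_simp
          _ ≤ _ := this
      have h8 : x ^ r * (3 * (d:ℝ) ^ (-(2 * s))) ≤ x ^ r * (δ' * x ^ s) := mul_le_mul_of_nonneg_left h7 hxr
      have h9 : 0 ≤ 3 * B ^ r * (d:ℝ) ^ (-(2 * α)) := by positivity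
      calc x ^ r * |Q.eval x - x ^ s| ≤ x ^ r * (δ' * x ^ s) := le_trans h3 h8
        _ = δ' * (x ^ r * x ^ s) := by ring
        _ ≤ _ := by linarith
    · -- x small
      have h4 : x ^ r ≤ (B / (d:ℝ) ^ 2) ^ r := pow_le_pow_left₀ hx0 h r
      have h5 : (B / (d:ℝ) ^ 2) ^ r * (d:ℝ) ^ (-(2 * s)) = B ^ r * (d:ℝ) ^ (-(2 * α)) := by
        rw [div_pow, div_mul_eq_mul_div, mul_div_assoc]
        congr 1
        rw [div_eq_iff (by positivity), ← pow_mul, ← Real.rpow_natCast, ← Real.rpow_add hd0]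
        congr 1
        push_cast
        rw [hs]; ring
      have h6 : x ^ r * (3 * (d:ℝ) ^ (-(2 * s))) ≤ 3 * B ^ r * (d:ℝ) ^ (-(2 * α)) := by
        calc x ^ r * (3 * (d:ℝ) ^ (-(2 * s))) ≤ (B / (d:ℝ) ^ 2) ^ r * (3 * (d:ℝ) ^ (-(2 * s))) :=
              mul_le_mul_of_nonneg_right h4 (by positivity)
          _ = 3 * ((B / (d:ℝ) ^ 2) ^ r * (d:ℝ) ^ (-(2 * s))) := by ring
          _ = _ := by rw [h5]; ring
      have h7 : 0 ≤ δ' * (x ^ r * x ^ s) := by positivity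
      linarith
  · intro R hR
    have h1 := (hQ3 R hR).X_pow_mul hR r
    apply h1.mono
    have h2 : R ^ r ≤ (3 + 2 * R) ^ r := pow_le_pow_left₀ hR (by linarith) r
    calc R ^ r * (2 * (3 + 2 * R) ^ d) ≤ (3 + 2 * R) ^ r * (2 * (3 + 2 * R) ^ d) :=
          mul_le_mul_of_nonneg_right h2 (by positivity)
      _ = _ := by rw [pow_add]; ring

end Pool.Agent.Helper82_Renyi
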