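import Pool.Agent.Helper82_Renyi.Master

open Finset Filter

namespace Pool.Agent.Helper82_Renyi

theorem exp_le_two_of (x : ℝ) (hx : x ≤ 1 / 2) : Real.exp x ≤ 2 := by
  have h1 : 1 - x ≤ Real.exp (-x) := by
    have := Real.add_one_le_exp (-x)
    linarith
  have h2 : Real.exp x * Real.exp (-x) = 1 := by rw [← Real.exp_add]; simp
  have h3 := Real.exp_pos x
  nlinarith

theorem lower_asym (α : ℝ) (hα : 0 < α) (hna : ∀ m : ℕ, α ≠ m) (δ : ℝ) (hδ : 0 < δ)
    (ε : ℝ) (hε0 : 0 < ε) (hε : ε < 1) :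
    ∃ c₀ c₁ : ℝ, 0 < c₀ ∧ 0 < c₁ ∧ ∃ m₀ : ℕ, ∀ m ≥ m₀, ∀ β : ℝ, 0 < β → β * m ≤ 1 →
      (1 - m * β) ^ α ≤ β ^ α * m * c₀ → ∀ n : ℕ,
      (n:ℝ) * β * ((⌊Real.log m⌋₊ : ℝ) + 1) ≤ c₁ → ∀ f : (Fin n → Fin (m + 1)) → ℝ,
      ¬ (∀ p ∈ stdSimplex ℝ (Fin (m + 1)),
        ∑ s : Fin n → Fin (m + 1) with δ < |f s - ren α p|, ∏ t, p (s t) < ε) := by
  have hα1 : α ≠ 1 := by simpa using hna 1
  have h1α : 0 < |1 - α| := abs_pos.mpr (sub_ne_zero.mpr hα1.symm)
  set κ : ℝ := (1 - ε) / 20 with hκ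
  have hκ0 : 0 < κ := by rw [hκ]; linarith
  set J : ℕ := ⌈4 / (1 - ε)⌉₊ with hJ
  have h1ε : 0 < 1 - ε := by linarith
  have hJ1 : 4 ≤ (J:ℝ) * (1 - ε) := by
    have h1 : 4 / (1 - ε) ≤ J := Nat.le_ceil _
    rwa [div_le_iff₀ h1ε] at h1
  have hJ0 : 0 < J := by
    rw [hJ, Nat.ceil_pos]; positivity
  set ρ : ℝ := 2 * Real.exp (4 * δ * |1 - α|) + 1 with hρ
  have hρ1 : 1 ≤ ρ := by
    have := Real.exp_pos (4 * δ * |1 - α|)
    rw [hρ]; linarith
  obtain ⟨C, c, hC, hc, H⟩ := exists_family α hα hna ρ hρ1 J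
  set t : ℝ := min (1/2) (δ * |1 - α| / (2 * (1 + α))) with ht
  have ht0 : 0 < t := lt_min (by norm_num) (by positivity)
  have ht2 : t ≤ 1 / 2 := min_le_left _ _
  have htδ : 2 * t * (1 + α) ≤ δ * |1 - α| := by
    have h1 : t ≤ δ * |1 - α| / (2 * (1 + α)) := min_le_right _ _
    rw [le_div_iff₀ (by positivity)] at h1
    linarith
  have he4 : (1:ℝ) ≤ Real.exp 4 := by
    have := Real.add_one_le_exp (4:ℝ)
    linarith
  -- eventual conditions
  have hcast : Tendsto (fun m : ℕ => (m : ℝ)) atTop atTop := tendsto_natCast_atTop_atTop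
  have hlog : Tendsto (fun m : ℕ => Real.log (m : ℝ)) atTop atTop := Real.tendsto_log_atTop.comp hcast
  have ev1 : ∀ᶠ m : ℕ in atTop, (3:ℝ) ≤ m := hcast.eventually_ge_atTop 3
  have ev2 : ∀ᶠ m : ℕ in atTop, C / (κ * t ^ 2) ≤ m := hcast.eventually_ge_atTop _
  have ev3 : ∀ᶠ m : ℕ in atTop, 1 / κ ≤ m := hcast.eventually_ge_atTop _
  have ev4 : ∀ᶠ m : ℕ in atTop, 1 / κ ≤ Real.log m := hlog.eventually_ge_atTop _
  have ev5 : ∀ᶠ m : ℕ in atTop, Real.log m ^ (4 * α) / (m:ℝ) ≤ κ * t ^ 2 * c ^ 2 / (9 * C) ^ (2 * α) := by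
    have h1 := (isLittleO_log_rpow_rpow_atTop (4 * α) one_pos).tendsto_div_nhds_zero
    have h2 := h1.comp hcast
    have h3 : 0 < κ * t ^ 2 * c ^ 2 / (9 * C) ^ (2 * α) := by positivity
    have h4 := h2.eventually (ge_mem_nhds h3)
    filter_upwards [h4] with m hm
    simpa using hm
  have evall := ev1.and (ev2.and (ev3.and (ev4.and ev5)))
  obtain ⟨m₀, hm₀⟩ := eventually_atTop.mp evall
  refine ⟨c, 1 / (4 * C * Real.exp 4), hc, by positivity, m₀, ?_⟩
  intro m hm β hβ hβm hlamα n hn f hf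
  obtain ⟨hm3, hm2, hm1κ, hlogκ, hm5⟩ := hm₀ m hm
  set L : ℕ := ⌊Real.log m⌋₊ with hL
  have hm0 : (0:ℝ) < m := by linarith
  have hm1 : 1 ≤ m := by
    have : (0:ℝ) < (m:ℝ) := hm0
    exact_mod_cast (Nat.cast_pos.mp this)
  have hlog1 : 1 ≤ Real.log m := by
    rw [Real.le_log_iff_exp_le hm0]
    linarith [Real.exp_one_lt_d9]
  have hLlog : (L:ℝ) ≤ Real.log m := Nat.floor_le (by linarith)
  have hlogL : Real.log m < (L:ℝ) + 1 := Nat.lt_floor_add_one _
  have hL0 : (0:ℝ) ≤ L := Nat.cast_nonneg L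
  obtain ⟨ι, inst, x, u, hx0, hxC, hu0, hu1, hux, hmom, hu2, huc, hsep⟩ := H (2 * L)
  set M : ℝ := C * (((2 * L : ℕ):ℝ) + 1) ^ 2 with hM
  have hM0 : 0 ≤ M := by positivity
  have hL1 : (((2 * L : ℕ):ℝ) + 1) ≤ 2 * ((L:ℝ) + 1) := by push_cast; linarith
  have hML : M ≤ 4 * C * ((L:ℝ) + 1) ^ 2 := by
    rw [hM]
    calc C * (((2 * L : ℕ):ℝ) + 1) ^ 2 ≤ C * (2 * ((L:ℝ) + 1)) ^ 2 := by
          apply mul_le_mul_of_nonneg_left _ hC.le
          exact pow_le_pow_left₀ (by positivity) hL1 2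
      _ = _ := by ring
  have hn0 : (0:ℝ) ≤ n := Nat.cast_nonneg n
  have hnβ : 0 ≤ (n:ℝ) * β := mul_nonneg hn0 hβ.le
  have hb : (n:ℝ) * β * M ≤ ((L:ℝ) + 1) / Real.exp 4 := by
    calc (n:ℝ) * β * M ≤ (n:ℝ) * β * (4 * C * ((L:ℝ) + 1) ^ 2) := mul_le_mul_of_nonneg_left hML hnβ
      _ = ((n:ℝ) * β * ((L:ℝ) + 1)) * (4 * C * ((L:ℝ) + 1)) := by ring
      _ ≤ (1 / (4 * C * Real.exp 4)) * (4 * C * ((L:ℝ) + 1)) :=
          mul_le_mul_of_nonneg_right hn (by positivity)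
      _ = _ := by field_simp
  have hmaster := master α δ ε hα hα1 hδ hε C c t hC hc ht0 ht2 htδ m n L J hm1 f hf β (1 - m * β)
    hβ hβm rfl hlamα ι x u hx0 M hM0 hxC hu0 hu1 hux hmom hu2 huc ρ (by rw [hρ]; linarith) hsep hb hJ0
  set η := Real.exp (-(2 * ((L:ℝ) + 1))) with hη
  have hη0 : 0 < η := Real.exp_pos _
  have hηm : η * m ≤ 1 / m := by
    have h1 : η ≤ Real.exp (-(2 * Real.log m)) := Real.exp_le_exp.mpr (by linarith)
    have h2 : Real.exp (-(2 * Real.log m)) = 1 / (m:ℝ) ^ 2 := by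
      rw [Real.exp_neg, two_mul, Real.exp_add, Real.exp_log hm0]
      field_simp
    rw [h2] at h1
    calc η * m ≤ 1 / (m:ℝ) ^ 2 * m := mul_le_mul_of_nonneg_right h1 hm0.le
      _ = 1 / m := by field_simp
  have hmκ : 1 / (m:ℝ) ≤ κ := by
    rw [div_le_iff₀ hκ0] at hm1κ
    rw [div_le_iff₀ hm0]; linarith
  have hκ20 : κ ≤ 1 / 20 := by rw [hκ]; linarith
  have hup : (1 + η) ^ m ≤ 2 := by
    calc (1 + η) ^ m ≤ (Real.exp η) ^ m := by
          apply pow_le_pow_left₀ (by positivity)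
          have := Real.add_one_le_exp η
          linarith
      _ = Real.exp (m * η) := by rw [← Real.exp_nat_mul]
      _ ≤ 2 := by
          apply exp_le_two_of
          linarith
  have hlo : 1 - κ ≤ (1 - η) ^ m := by
    have h1 : η ≤ 1 := by
      rw [hη, Real.exp_le_one_iff]; linarith
    have h2 := one_add_mul_le_pow (a := -η) (by linarith) m
    have h3 : 1 + -η = 1 - η := by ring
    rw [h3] at h2
    linarith
  have he1 : (n:ℝ) * (β ^ 2 * m * C) ≤ κ := by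
    have h1 : (n:ℝ) * β ≤ (1 / (4 * C * Real.exp 4)) / ((L:ℝ) + 1) := by
      rw [le_div_iff₀ (by positivity)]; exact hn
    calc (n:ℝ) * (β ^ 2 * m * C) = ((n:ℝ) * β) * (β * m) * C := by ring
      _ ≤ ((1 / (4 * C * Real.exp 4)) / ((L:ℝ) + 1)) * 1 * C := by
          apply mul_le_mul_of_nonneg_right _ hC.le
          exact mul_le_mul h1 hβm (by positivity) (by positivity)
      _ = 1 / (4 * Real.exp 4 * ((L:ℝ) + 1)) := by field_simp
      _ ≤ 1 / ((L:ℝ) + 1) := by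
          apply one_div_le_one_div_of_le (by positivity)
          have : 1 ≤ 4 * Real.exp 4 := by linarith
          nlinarith
      _ ≤ κ := by
          rw [div_le_iff₀ (by positivity)]
          rw [div_le_iff₀ hκ0] at hlogκ
          nlinarith
  have he2 : β ^ 2 * m * C / t ^ 2 ≤ κ := by
    have h1 : β ≤ 1 / m := by rw [le_div_iff₀ hm0]; exact hβm
    rw [div_le_iff₀ (by positivity)]
    calc β ^ 2 * m * C = β * (β * m) * C := by ring
      _ ≤ (1 / m) * 1 * C := by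
          apply mul_le_mul_of_nonneg_right _ hC.le
          exact mul_le_mul h1 hβm (by positivity) (by positivity)
      _ = C / m := by ring
      _ ≤ κ * t ^ 2 := by
          rw [div_le_iff₀ hm0]
          rw [div_le_iff₀ (by positivity)] at hm2
          linarith
  have he3 : M ^ (2 * α) / (m * t ^ 2 * c ^ 2) ≤ κ := by
    have h1 : M ≤ 9 * C * Real.log m ^ 2 := by
      rw [hM]
      calc C * (((2 * L : ℕ):ℝ) + 1) ^ 2 ≤ C * (3 * Real.log m) ^ 2 := by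
            apply mul_le_mul_of_nonneg_left _ hC.le
            apply pow_le_pow_left₀ (by positivity)
            push_cast
            linarith
        _ = _ := by ring
    have h2 : M ^ (2 * α) ≤ (9 * C) ^ (2 * α) * Real.log m ^ (4 * α) := by
      calc M ^ (2 * α) ≤ (9 * C * Real.log m ^ 2) ^ (2 * α) := Real.rpow_le_rpow hM0 h1 (by positivity)
        _ = (9 * C) ^ (2 * α) * (Real.log m ^ 2) ^ (2 * α) := Real.mul_rpow (by positivity) (by positivity)
        _ = _ := by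
            congr 1
            rw [← Real.rpow_natCast, ← Real.rpow_mul (by linarith)]
            congr 1
            push_cast
            ring
    rw [div_le_iff₀ (by positivity)]
    rw [div_le_iff₀ hm0] at hm5
    calc M ^ (2 * α) ≤ (9 * C) ^ (2 * α) * Real.log m ^ (4 * α) := h2
      _ ≤ (9 * C) ^ (2 * α) * (κ * t ^ 2 * c ^ 2 / (9 * C) ^ (2 * α) * m) :=
          mul_le_mul_of_nonneg_left hm5 (by positivity)
      _ = _ := by
          have : (9 * C) ^ (2 * α) ≠ 0 := by positivity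
          field_simp
  -- contradiction
  have hA : (1 - κ) * (1 - 3 * κ) ≤ (1 - η) ^ m *
        (1 - n * (β ^ 2 * m * C) - β ^ 2 * m * C / t ^ 2 - M ^ (2 * α) / (m * t ^ 2 * c ^ 2)) := by
    apply mul_le_mul hlo (by linarith) (by linarith)
    exact le_trans (by linarith) hlo
  have hB : (m:ℝ) * η * (1 + η) ^ m ≤ 2 * κ := by
    calc (m:ℝ) * η * (1 + η) ^ m ≤ κ * 2 := by
          apply mul_le_mul _ hup (by positivity) hκ0.le
          linarith
      _ = _ := by ring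
  have hC1 : 4 / 5 ≤ (1 - κ) * (1 - 3 * κ) := by nlinarith
  have hD : (1 - ε) * (7 / 10) ≤ (1 - ε) * ((1 - η) ^ m *
        (1 - n * (β ^ 2 * m * C) - β ^ 2 * m * C / t ^ 2 - M ^ (2 * α) / (m * t ^ 2 * c ^ 2)))
        - m * η * (1 + η) ^ m := by
    have h1 : (1 - ε) * (4 / 5) ≤ (1 - ε) * ((1 - η) ^ m *
        (1 - n * (β ^ 2 * m * C) - β ^ 2 * m * C / t ^ 2 - M ^ (2 * α) / (m * t ^ 2 * c ^ 2))) :=
      mul_le_mul_of_nonneg_left (le_trans hC1 hA) h1ε.le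
    have h2 : 2 * κ = (1 - ε) / 10 := by rw [hκ]; ring
    linarith
  have hJr : (0:ℝ) ≤ J := Nat.cast_nonneg J
  have hE := mul_le_mul_of_nonneg_left hD hJr
  have hF : (J:ℝ) * ((1 - ε) * (7 / 10)) = (7/10) * (J * (1 - ε)) := by ring
  linarith

end Pool.Agent.Helper82_Renyi
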