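import Mathlib

open Finset

namespace Pool.Agent.Helper82_Renyi

/-- Weierstrass product inequality. -/
theorem one_sub_sum_le_prod {ι : Type*} (s : Finset ι) (t : ι → ℝ)
    (h0 : ∀ a ∈ s, 0 ≤ t a) (h1 : ∀ a ∈ s, t a ≤ 1) :
    1 - ∑ a ∈ s, t a ≤ ∏ a ∈ s, (1 - t a) := by
  classical
  induction s using Finset.induction_on with
  | empty => simp
  | insert a s ha ih =>
    have ih' := ih (fun b hb => h0 b (mem_insert_of_mem hb)) (fun b hb => h1 b (mem_insert_of_mem hb))
    have hp1 : ∏ b ∈ s, (1 - t b) ≤ 1 := by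
      apply Finset.prod_le_one
      · intro b hb; linarith [h1 b (mem_insert_of_mem hb)]
      · intro b hb; linarith [h0 b (mem_insert_of_mem hb)]
    have ha0 := h0 a (mem_insert_self a s)
    rw [Finset.sum_insert ha, Finset.prod_insert ha]
    nlinarith

/-- Divided differences annihilate polynomials of small degree. -/
theorem sum_nodalWeight_mul_pow {ι : Type*} [DecidableEq ι] (s : Finset ι) (x : ι → ℝ)
    (hx : Set.InjOn x s) (d : ℕ) (hd : d + 1 < s.card) :
    ∑ a ∈ s, Lagrange.nodalWeight s x a * x a ^ d = 0 := by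
  have h1 : (Polynomial.X ^ d : Polynomial ℝ) =
      Lagrange.interpolate s x (fun i => (Polynomial.X ^ d : Polynomial ℝ).eval (x i)) := by
    apply Lagrange.eq_interpolate hx
    rw [Polynomial.degree_X_pow]
    exact_mod_cast (by omega : d < s.card)
  rw [Lagrange.interpolate_eq_nodalWeight_mul_nodal_div_X_sub_C] at h1
  have h2 := congrArg (fun p => Polynomial.coeff p (s.card - 1)) h1
  simp only [Polynomial.coeff_X_pow] at h2
  rw [if_neg (by omega), Polynomial.finsetSum_coeff] at h2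
  rw [h2]
  apply Finset.sum_congr rfl
  intro a ha
  rw [← Lagrange.nodal_erase_eq_nodal_div ha, Polynomial.coeff_mul_C, Polynomial.coeff_C_mul]
  have h3 : (Lagrange.nodal (s.erase a) x).coeff (s.card - 1) = 1 := by
    have h4 : (Lagrange.nodal (s.erase a) x).Monic := Lagrange.nodal_monic
    have h5 : (Lagrange.nodal (s.erase a) x).natDegree = s.card - 1 := by
      rw [Lagrange.natDegree_nodal, Finset.card_erase_of_mem ha]
    rw [← h5]
    exact h4
  rw [h3]
  simp

/-- factorial evaluation of the products of differences of squares -/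
theorem prod_sq_base (j : ℕ) :
    (2 * ((j:ℝ) + 1) ^ 2) * ∏ l ∈ range j, (((j:ℝ) + 1) ^ 2 - ((l:ℝ) + 1) ^ 2)
      = ((2 * (j + 1)).factorial : ℝ) := by
  have h1 : ∏ l ∈ range j, (((j:ℝ) + 1) ^ 2 - ((l:ℝ) + 1) ^ 2)
      = (∏ l ∈ range j, ((j:ℝ) - l)) * ∏ l ∈ range j, ((j:ℝ) + 2 + l) := by
    rw [← Finset.prod_mul_distrib]
    apply Finset.prod_congr rfl
    intro l _
    ring
  have h2 : ∏ l ∈ range j, ((j:ℝ) - l) = (j.factorial : ℝ) := by
    rw [← Finset.prod_range_reflect]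
    rw [← Finset.prod_range_add_one_eq_factorial]
    push_cast
    apply Finset.prod_congr rfl
    intro l hl
    have hl' : l < j := by simpa using hl
    have : j - 1 - l + (l + 1) = j := by omega
    have h3 : ((j - 1 - l : ℕ) : ℝ) + ((l:ℝ) + 1) = j := by exact_mod_cast this
    linarith
  have h3 : ((j+1).factorial : ℝ) * ∏ l ∈ range j, ((j:ℝ) + 2 + l) = ((2 * j + 1).factorial : ℝ) := by
    have h4 := Nat.factorial_mul_ascFactorial (j+1) j
    rw [Nat.ascFactorial_eq_prod_range] at h4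
    have h5 : j + 1 + j = 2 * j + 1 := by ring
    rw [h5] at h4
    rw [← h4]
    push_cast
    congr 1
    apply Finset.prod_congr rfl
    intro l _
    ring
  rw [h1, h2]
  have h6 : ((2 * (j + 1)).factorial : ℝ) = (2 * ((j:ℝ) + 1)) * ((2 * j + 1).factorial : ℝ) := by
    have : 2 * (j + 1) = (2 * j + 1) + 1 := by ring
    rw [this, Nat.factorial_succ]
    push_cast
    ring
  rw [h6, ← h3, Nat.factorial_succ]
  push_cast
  ring

theorem prod_sq_eq (j k : ℕ) :
    (2 * ((j:ℝ) + 1) ^ 2) * ∏ l ∈ (range (j + 1 + k)).erase j, |((l:ℝ) + 1) ^ 2 - ((j:ℝ) + 1) ^ 2|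
      = ((2 * (j + 1) + k).factorial : ℝ) * (k.factorial : ℝ) := by
  induction k with
  | zero =>
    have h0 : (range (j + 1 + 0)).erase j = range j := by
      ext l; simp; omega
    rw [h0]
    have h1 : ∏ l ∈ range j, |((l:ℝ) + 1) ^ 2 - ((j:ℝ) + 1) ^ 2|
        = ∏ l ∈ range j, (((j:ℝ) + 1) ^ 2 - ((l:ℝ) + 1) ^ 2) := by
      apply Finset.prod_congr rfl
      intro l hl
      have hl' : (l:ℝ) < j := by exact_mod_cast (by simpa using hl : l < j)
      rw [abs_sub_comm, abs_of_nonneg]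
      have : (0:ℝ) ≤ l := Nat.cast_nonneg l
      nlinarith
    rw [h1, prod_sq_base]
    simp
  | succ k ih =>
    have h0 : (range (j + 1 + (k + 1))).erase j = insert (j + 1 + k) ((range (j + 1 + k)).erase j) := by
      ext l; simp; omega
    rw [h0, Finset.prod_insert (by simp)]
    have h1 : |(((j + 1 + k : ℕ):ℝ) + 1) ^ 2 - ((j:ℝ) + 1) ^ 2| = ((k:ℝ) + 1) * (2 * ((j:ℝ) + 1) + k + 1) := by
      rw [abs_of_nonneg]
      · push_cast; ring
      · push_cast
        have : (0:ℝ) ≤ k := Nat.cast_nonneg k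
        have : (0:ℝ) ≤ j := Nat.cast_nonneg j
        nlinarith
    rw [h1]
    have h2 : ((2 * (j + 1) + (k + 1)).factorial : ℝ) = (2 * ((j:ℝ) + 1) + k + 1) * ((2 * (j + 1) + k).factorial : ℝ) := by
      have : 2 * (j + 1) + (k + 1) = (2 * (j + 1) + k) + 1 := by ring
      rw [this, Nat.factorial_succ]
      push_cast
      ring
    rw [h2, Nat.factorial_succ]
    push_cast
    calc _ = ((k:ℝ) + 1) * (2 * ((j:ℝ) + 1) + k + 1) * ((2 * ((j:ℝ) + 1) ^ 2) * ∏ l ∈ (range (j + 1 + k)).erase j, |((l:ℝ) + 1) ^ 2 - ((j:ℝ) + 1) ^ 2|) := by ring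
      _ = _ := by rw [ih]; ring

theorem factorial_sq_le (a k : ℕ) : ((a + k).factorial)^2 ≤ (2 * a + k).factorial * k.factorial := by
  induction a with
  | zero => simp [sq]
  | succ a ih =>
    have h1 : (a + 1 + k).factorial = (a + k + 1) * (a + k).factorial := by
      have : a + 1 + k = (a + k) + 1 := by ring
      rw [this, Nat.factorial_succ]
    have h2 : (2 * (a + 1) + k).factorial = (2 * a + k + 2) * ((2 * a + k + 1) * (2 * a + k).factorial) := by
      have : 2 * (a + 1) + k = (2 * a + k + 1) + 1 := by ring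
      rw [this, Nat.factorial_succ, Nat.factorial_succ]
    rw [h1, h2, mul_pow]
    have h3 : (a + k + 1) ^ 2 ≤ (2 * a + k + 2) * (2 * a + k + 1) := by nlinarith
    calc (a + k + 1) ^ 2 * (a + k).factorial ^ 2 ≤ ((2 * a + k + 2) * (2 * a + k + 1)) * ((2 * a + k).factorial * k.factorial) := Nat.mul_le_mul h3 ih
      _ = _ := by ring

/-- The key product bound: squares are well separated up to a factor 2. -/
theorem prod_sq_lower (j N : ℕ) (hj : j < N) :
    (1/2 : ℝ) * ∏ l ∈ (range N).erase j, ((l:ℝ) + 1) ^ 2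
      ≤ ∏ l ∈ (range N).erase j, |((l:ℝ) + 1) ^ 2 - ((j:ℝ) + 1) ^ 2| := by
  obtain ⟨k, rfl⟩ : ∃ k, N = j + 1 + k := ⟨N - (j+1), by omega⟩
  have h1 := prod_sq_eq j k
  have h2 : (((j:ℝ) + 1) ^ 2) * ∏ l ∈ (range (j + 1 + k)).erase j, ((l:ℝ) + 1) ^ 2 = ((j + 1 + k).factorial : ℝ) ^ 2 := by
    rw [Finset.mul_prod_erase (range (j+1+k)) (fun l => ((l:ℝ) + 1) ^ 2) (by simp; omega)]
    rw [Finset.prod_pow, ← Finset.prod_range_add_one_eq_factorial]
    push_cast
    ring
  have h3 : ((j + 1 + k).factorial : ℝ) ^ 2 ≤ ((2 * (j + 1) + k).factorial : ℝ) * (k.factorial : ℝ) := by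
    exact_mod_cast factorial_sq_le (j+1) k
  have h4 : (0:ℝ) < 2 * ((j:ℝ) + 1) ^ 2 := by positivity
  rw [← h1, ← h2] at h3
  have h5 : (2 * ((j:ℝ) + 1) ^ 2) * ((1/2 : ℝ) * ∏ l ∈ (range (j + 1 + k)).erase j, ((l:ℝ) + 1) ^ 2)
      ≤ (2 * ((j:ℝ) + 1) ^ 2) * ∏ l ∈ (range (j + 1 + k)).erase j, |((l:ℝ) + 1) ^ 2 - ((j:ℝ) + 1) ^ 2| := by
    calc _ = (((j:ℝ) + 1) ^ 2) * ∏ l ∈ (range (j + 1 + k)).erase j, ((l:ℝ) + 1) ^ 2 := by ring
      _ ≤ _ := h3
  exact le_of_mul_le_mul_left h5 h4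

end Pool.Agent.Helper82_Renyi
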