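import Pool.Agent.Helper82_Renyi.Core

set_option linter.unusedSectionVars false

open Finset

namespace Pool.Agent.Helper82_Renyi

section conc
variable {ι : Type} [Fintype ι] {m n : ℕ}

/-- second moment of a centred additive functional under a product prior -/
theorem second_moment (u φ : ι → ℝ) (hu : ∑ a, u a = 1) (hφ : ∑ a, u a * φ a = 0) :
    ∑ y : Fin m → ι, prior u y * (∑ i, φ (y i)) ^ 2 = m * ∑ a, u a * φ a ^ 2 := by
  classical
  have h1 : ∀ y : Fin m → ι, prior u y * (∑ i, φ (y i)) ^ 2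
      = ∑ i, ∑ i', ∏ t, (u (y t) * (if t = i then φ (y t) else 1) * (if t = i' then φ (y t) else 1)) := by
    intro y
    rw [sq, Finset.sum_mul_sum, Finset.mul_sum]
    apply Finset.sum_congr rfl
    intro i _
    rw [Finset.mul_sum]
    apply Finset.sum_congr rfl
    intro i' _
    rw [Finset.prod_mul_distrib, Finset.prod_mul_distrib, prior]
    simp
    ring
  rw [Finset.sum_congr rfl (fun y _ => h1 y), Finset.sum_comm]
  have h2 : ∀ i : Fin m, ∑ y : Fin m → ι, ∑ i', ∏ t, (u (y t) * (if t = i then φ (y t) else 1) * (if t = i' then φ (y t) else 1))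
      = ∑ a, u a * φ a ^ 2 := by
    intro i
    rw [Finset.sum_comm]
    have h3 : ∀ i' : Fin m, ∑ y : Fin m → ι, ∏ t, (u (y t) * (if t = i then φ (y t) else 1) * (if t = i' then φ (y t) else 1))
        = if i' = i then ∑ a, u a * φ a ^ 2 else 0 := by
      intro i'
      rw [sum_prod_fun (κ := Fin m) (fun t a => u a * (if t = i then φ a else 1) * (if t = i' then φ a else 1))]
      split_ifs with h
      · subst h
        rw [← Finset.mul_prod_erase univ _ (mem_univ i')]
        have h4 : ∏ t ∈ univ.erase i', ∑ a, u a * (if t = i' then φ a else 1) * (if t = i' then φ a else 1) = 1 := by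
          apply Finset.prod_eq_one
          intro t ht
          have : t ≠ i' := Finset.ne_of_mem_erase ht
          simp [this, hu]
        rw [h4, mul_one]
        apply Finset.sum_congr rfl
        intro a _
        simp
        ring
      · apply Finset.prod_eq_zero (mem_univ i')
        simp only [if_neg h, if_true, mul_one]
        exact hφ
    rw [Finset.sum_congr rfl (fun i' _ => h3 i')]
    simp
  rw [Finset.sum_congr rfl (fun i _ => h2 i)]
  simp

/-- Chebyshev for finite sums -/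
theorem cheb {κ : Type} [Fintype κ] (w S : κ → ℝ) (hw : ∀ y, 0 ≤ w y) (t : ℝ) (ht : 0 < t) :
    ∑ y with ¬ |S y| ≤ t, w y ≤ (∑ y, w y * S y ^ 2) / t ^ 2 := by
  rw [le_div_iff₀ (by positivity), Finset.sum_mul]
  calc ∑ y with ¬ |S y| ≤ t, w y * t ^ 2 ≤ ∑ y with ¬ |S y| ≤ t, w y * S y ^ 2 := by
        apply Finset.sum_le_sum
        intro y hy
        simp only [mem_filter, mem_univ, true_and, not_le] at hy
        apply mul_le_mul_of_nonneg_left _ (hw y)
        rw [← sq_abs (S y)]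
        exact pow_le_pow_left₀ ht.le hy.le 2
    _ ≤ _ := by
        apply Finset.sum_le_sum_of_subset_of_nonneg (filter_subset _ _)
        intro y _ _
        exact mul_nonneg (hw y) (sq_nonneg _)

theorem prod_texp_le (D : ℕ) (b : ℝ) (hb : 0 ≤ b) (x : ι → ℝ) (hx : ∀ a, 0 ≤ x a)
    (hbx : ∀ a, b * x a ≤ ((D:ℝ) + 1) / Real.exp 4) (y : Fin m → ι) :
    ∏ i, texp D (b * x (y i)) ≤ (1 + Real.exp (-(2 * ((D:ℝ) + 1)))) ^ m * Real.exp (-(b * ∑ i, x (y i))) := by
  have h1 : ∀ a, texp D (b * x a) ≤ (1 + Real.exp (-(2 * ((D:ℝ) + 1)))) * Real.exp (-(b * x a)) := by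
    intro a
    have h2 := (abs_le.mp (texp_bound D (b * x a) (mul_nonneg hb (hx a)) (hbx a))).2
    have h3 : texp D (b * x a) = (texp D (b * x a) * Real.exp (b * x a)) * Real.exp (-(b * x a)) := by
      rw [mul_assoc, ← Real.exp_add]; simp
    rw [h3]
    apply mul_le_mul_of_nonneg_right _ (Real.exp_pos _).le
    linarith
  have h0 : ∀ a, 0 ≤ texp D (b * x a) := by
    intro a
    have h2 := (abs_le.mp (texp_bound D (b * x a) (mul_nonneg hb (hx a)) (hbx a))).1
    have h3 : texp D (b * x a) = (texp D (b * x a) * Real.exp (b * x a)) * Real.exp (-(b * x a)) := by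
      rw [mul_assoc, ← Real.exp_add]; simp
    rw [h3]
    apply mul_nonneg _ (Real.exp_pos _).le
    have h4 : Real.exp (-(2 * ((D:ℝ) + 1))) ≤ 1 := by
      rw [Real.exp_le_one_iff]
      have : (0:ℝ) ≤ D := Nat.cast_nonneg D
      linarith
    linarith
  calc ∏ i, texp D (b * x (y i)) ≤ ∏ i : Fin m, ((1 + Real.exp (-(2 * ((D:ℝ) + 1)))) * Real.exp (-(b * x (y i)))) :=
        Finset.prod_le_prod (fun i _ => h0 _) (fun i _ => h1 _)
    _ = _ := by
        rw [Finset.prod_mul_distrib, Finset.prod_const, card_univ, Fintype.card_fin, ← Real.exp_sum]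
        congr 2
        rw [Finset.mul_sum, ← Finset.sum_neg_distrib]

theorem texp_nonneg (D : ℕ) (z : ℝ) (hz : 0 ≤ z) (hz' : z ≤ ((D:ℝ) + 1) / Real.exp 4) :
    0 ≤ texp D z := by
  have h2 := (abs_le.mp (texp_bound D z hz hz')).1
  have h3 : texp D z = (texp D z * Real.exp z) * Real.exp (-z) := by
    rw [mul_assoc, ← Real.exp_add]; simp
  rw [h3]
  apply mul_nonneg _ (Real.exp_pos _).le
  have h4 : Real.exp (-(2 * ((D:ℝ) + 1))) ≤ 1 := by
    rw [Real.exp_le_one_iff]
    have : (0:ℝ) ≤ D := Nat.cast_nonneg D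
    linarith
  linarith

theorem prod_texp_ge (D : ℕ) (b : ℝ) (hb : 0 ≤ b) (x : ι → ℝ) (hx : ∀ a, 0 ≤ x a)
    (hbx : ∀ a, b * x a ≤ ((D:ℝ) + 1) / Real.exp 4) (y : Fin m → ι) :
    (1 - Real.exp (-(2 * ((D:ℝ) + 1)))) ^ m * Real.exp (-(b * ∑ i, x (y i))) ≤ ∏ i, texp D (b * x (y i)) := by
  have h4 : Real.exp (-(2 * ((D:ℝ) + 1))) ≤ 1 := by
    rw [Real.exp_le_one_iff]
    have : (0:ℝ) ≤ D := Nat.cast_nonneg D
    linarith
  have h1 : ∀ a, (1 - Real.exp (-(2 * ((D:ℝ) + 1)))) * Real.exp (-(b * x a)) ≤ texp D (b * x a) := by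
    intro a
    have h2 := (abs_le.mp (texp_bound D (b * x a) (mul_nonneg hb (hx a)) (hbx a))).1
    have h3 : texp D (b * x a) = (texp D (b * x a) * Real.exp (b * x a)) * Real.exp (-(b * x a)) := by
      rw [mul_assoc, ← Real.exp_add]; simp
    rw [h3]
    apply mul_le_mul_of_nonneg_right _ (Real.exp_pos _).le
    linarith
  calc _ = ∏ i : Fin m, ((1 - Real.exp (-(2 * ((D:ℝ) + 1)))) * Real.exp (-(b * x (y i)))) := by
        rw [Finset.prod_mul_distrib, Finset.prod_const, card_univ, Fintype.card_fin, ← Real.exp_sum]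
        congr 2
        rw [Finset.mul_sum, ← Finset.sum_neg_distrib]
    _ ≤ _ := Finset.prod_le_prod (fun i _ => mul_nonneg (by linarith) (Real.exp_pos _).le) (fun i _ => h1 _)

/-- moments of degree `≤ N` agreeing implies that moments weighted by `texp` agree -/
theorem match_texp (u v x : ι → ℝ) (L D N : ℕ) (hLN : L + D ≤ N) (b : ℝ)
    (hm : ∀ d ≤ N, ∑ a, u a * x a ^ d = ∑ a, v a * x a ^ d) (d : ℕ) (hd : d ≤ L) :
    ∑ a, u a * x a ^ d * texp D (b * x a) = ∑ a, v a * x a ^ d * texp D (b * x a) := by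
  have key : ∀ w : ι → ℝ, ∑ a, w a * x a ^ d * texp D (b * x a)
      = ∑ e ∈ range (D + 1), ((-b) ^ e / (e.factorial : ℝ)) * ∑ a, w a * x a ^ (d + e) := by
    intro w
    simp only [texp]
    simp_rw [Finset.mul_sum]
    rw [Finset.sum_comm]
    apply Finset.sum_congr rfl
    intro e _
    apply Finset.sum_congr rfl
    intro a _
    rw [show (-(b * x a)) ^ e = (-b) ^ e * x a ^ e by rw [← mul_pow]; congr 1; ring, pow_add]
    ring
  rw [key u, key v]
  apply Finset.sum_congr rfl
  intro e he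
  rw [hm (d + e) (by rw [mem_range] at he; omega)]

end conc

theorem mul_exp_one_sub_ge (y : ℝ) (hy : 0 ≤ y) : 1 - (y - 1) ^ 2 ≤ y * Real.exp (1 - y) := by
  have h1 : (1 - y) + 1 ≤ Real.exp (1 - y) := Real.add_one_le_exp _
  nlinarith

theorem mul_exp_one_sub_le (y : ℝ) : y * Real.exp (1 - y) ≤ 1 := by
  have h1 : (y - 1) + 1 ≤ Real.exp (y - 1) := Real.add_one_le_exp _
  have h2 : Real.exp (y - 1) * Real.exp (1 - y) = 1 := by rw [← Real.exp_add]; simp
  calc y * Real.exp (1 - y) ≤ Real.exp (y - 1) * Real.exp (1 - y) :=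
        mul_le_mul_of_nonneg_right (by linarith) (Real.exp_pos _).le
    _ = 1 := h2

end Pool.Agent.Helper82_Renyi
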