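import Pool.Agent.Helper82_Renyi.Family

set_option linter.unusedSectionVars false

open Finset

namespace Pool.Agent.Helper82_Renyi

/-- Renyi entropy functional. -/
noncomputable def ren {Ω : Type} [Fintype Ω] (α : ℝ) (p : Ω → ℝ) : ℝ :=
  Real.log (∑ x, (p x) ^ α) / (1 - α)

section core
variable {ι : Type} [Fintype ι] {m n : ℕ}

/-- rates: the special symbol has rate `lam`, the others `β * x (y i)` -/
noncomputable def rate (lam β : ℝ) (x : ι → ℝ) (y : Fin m → ι) : Fin (m + 1) → ℝ :=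
  Fin.cons lam (fun i => β * x (y i))

/-- total rate -/
noncomputable def tot (lam β : ℝ) (x : ι → ℝ) (y : Fin m → ι) : ℝ :=
  ∑ i, rate lam β x y i

/-- product prior weights -/
noncomputable def prior (u : ι → ℝ) (y : Fin m → ι) : ℝ := ∏ i, u (y i)

/-- number of occurrences of `i` -/
def cnt (s : Fin n → Fin (m + 1)) (i : Fin (m + 1)) : ℕ := (univ.filter (fun t => s t = i)).card

theorem tot_eq (lam β : ℝ) (x : ι → ℝ) (y : Fin m → ι) :
    tot lam β x y = lam + β * ∑ i, x (y i) := by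
  rw [tot, Fin.sum_univ_succ]
  simp [rate, Finset.mul_sum]

theorem rate_nonneg {lam β : ℝ} {x : ι → ℝ} (hlam : 0 ≤ lam) (hβ : 0 ≤ β) (hx : ∀ a, 0 ≤ x a)
    (y : Fin m → ι) (i : Fin (m + 1)) : 0 ≤ rate lam β x y i := by
  refine Fin.cases ?_ ?_ i
  · simpa [rate] using hlam
  · intro i
    simpa [rate] using mul_nonneg hβ (hx _)

theorem tot_nonneg {lam β : ℝ} {x : ι → ℝ} (hlam : 0 ≤ lam) (hβ : 0 ≤ β) (hx : ∀ a, 0 ≤ x a)
    (y : Fin m → ι) : 0 ≤ tot lam β x y :=
  Finset.sum_nonneg (fun i _ => rate_nonneg hlam hβ hx y i)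

theorem prior_nonneg {u : ι → ℝ} (hu : ∀ a, 0 ≤ u a) (y : Fin m → ι) : 0 ≤ prior u y :=
  Finset.prod_nonneg (fun _ _ => hu _)

/-- sums of products over functions factor -/
theorem sum_prod_fun {κ : Type} [Fintype κ] [DecidableEq κ] (g : κ → ι → ℝ) :
    ∑ y : κ → ι, ∏ i, g i (y i) = ∏ i, ∑ a, g i a := by
  rw [Finset.prod_univ_sum]
  simp

theorem sum_prior (u : ι → ℝ) (hu : ∑ a, u a = 1) : ∑ y : Fin m → ι, prior u y = 1 := by
  have := sum_prod_fun (κ := Fin m) (fun _ a => u a)
  simp only [prior]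
  rw [this]
  simp [hu]

theorem prod_rate_eq (r : Fin (m + 1) → ℝ) (s : Fin n → Fin (m + 1)) :
    ∏ t, r (s t) = ∏ i, r i ^ cnt s i := by
  rw [← Finset.prod_fiberwise' univ s r]
  apply Finset.prod_congr rfl
  intro i _
  rw [Finset.prod_const, cnt]

/-- Step A: on samples with few repetitions, the mixtures agree. -/
theorem mix_eq (lam β : ℝ) (x h u v : ι → ℝ) (L : ℕ)
    (hm : ∀ d ≤ L, ∑ a, u a * x a ^ d * h a = ∑ a, v a * x a ^ d * h a)
    (s : Fin n → Fin (m + 1)) (hs : ∀ i : Fin m, cnt s i.succ ≤ L) :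
    ∑ y : Fin m → ι, prior u y * ((∏ t, rate lam β x y (s t)) * ∏ i, h (y i))
      = ∑ y : Fin m → ι, prior v y * ((∏ t, rate lam β x y (s t)) * ∏ i, h (y i)) := by
  have key : ∀ w : ι → ℝ, ∑ y : Fin m → ι, prior w y * ((∏ t, rate lam β x y (s t)) * ∏ i, h (y i))
      = lam ^ cnt s 0 * ∏ i : Fin m, (β ^ cnt s i.succ * ∑ a, w a * x a ^ cnt s i.succ * h a) := by
    intro w
    have h1 : ∀ y : Fin m → ι, prior w y * ((∏ t, rate lam β x y (s t)) * ∏ i, h (y i))
        = lam ^ cnt s 0 * ∏ i : Fin m, (β ^ cnt s i.succ * (w (y i) * x (y i) ^ cnt s i.succ * h (y i))) := by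
      intro y
      rw [prod_rate_eq, Fin.prod_univ_succ, prior]
      simp only [rate, Fin.cons_zero, Fin.cons_succ]
      rw [show (∏ i, w (y i)) * (lam ^ cnt s 0 * (∏ i : Fin m, (β * x (y i)) ^ cnt s i.succ) * ∏ i, h (y i))
        = lam ^ cnt s 0 * ((∏ i, w (y i)) * ((∏ i : Fin m, (β * x (y i)) ^ cnt s i.succ) * ∏ i, h (y i))) by ring]
      rw [← Finset.prod_mul_distrib, ← Finset.prod_mul_distrib]
      congr 1
      apply Finset.prod_congr rfl
      intro i _
      rw [mul_pow]
      ring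
    rw [Finset.sum_congr rfl (fun y _ => h1 y), ← Finset.mul_sum]
    congr 1
    rw [sum_prod_fun (κ := Fin m) (fun i a => β ^ cnt s i.succ * (w a * x a ^ cnt s i.succ * h a))]
    apply Finset.prod_congr rfl
    intro i _
    rw [Finset.mul_sum]
  rw [key u, key v]
  congr 1
  apply Finset.prod_congr rfl
  intro i _
  rw [hm _ (hs i)]

/-- Step C: union bound for many repetitions of symbol `i`. -/
theorem tail_bound (r : Fin (m + 1) → ℝ) (hr : ∀ i, 0 ≤ r i) (i : Fin (m + 1)) (L : ℕ) :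
    ∑ s : Fin n → Fin (m + 1) with L + 1 ≤ cnt s i, ∏ t, r (s t)
      ≤ (n.choose (L + 1) : ℝ) * r i ^ (L + 1) * (∑ b, r b) ^ (n - (L + 1)) := by
  classical
  have h1 : ∀ s : Fin n → Fin (m + 1), L + 1 ≤ cnt s i →
      ∏ t, r (s t) ≤ ∑ T ∈ powersetCard (L + 1) (univ : Finset (Fin n)),
        if (∀ t ∈ T, s t = i) then ∏ t, r (s t) else 0 := by
    intro s hs
    obtain ⟨T, hT1, hT2⟩ := Finset.exists_subset_card_eq hs
    have hT3 : T ∈ powersetCard (L + 1) (univ : Finset (Fin n)) := by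
      rw [mem_powersetCard]; exact ⟨subset_univ _, hT2⟩
    have h2 := Finset.single_le_sum (f := fun T => if (∀ t ∈ T, s t = i) then ∏ t, r (s t) else 0)
      (s := powersetCard (L + 1) (univ : Finset (Fin n))) (by
        intro T _
        show 0 ≤ (if (∀ t ∈ T, s t = i) then ∏ t, r (s t) else 0)
        split_ifs
        · exact Finset.prod_nonneg (fun _ _ => hr _)
        · exact le_rfl) hT3
    have h3 : (∀ t ∈ T, s t = i) := by
      intro t ht
      have := hT1 ht
      simpa using this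
    have h4 : (if (∀ t ∈ T, s t = i) then ∏ t, r (s t) else 0) = ∏ t, r (s t) := if_pos h3
    calc ∏ t, r (s t) = (if (∀ t ∈ T, s t = i) then ∏ t, r (s t) else 0) := h4.symm
      _ ≤ _ := h2
  have h2 : ∀ T ∈ powersetCard (L + 1) (univ : Finset (Fin n)),
      ∑ s : Fin n → Fin (m + 1), (if (∀ t ∈ T, s t = i) then ∏ t, r (s t) else 0)
        = r i ^ (L + 1) * (∑ b, r b) ^ (n - (L + 1)) := by
    intro T hT
    rw [mem_powersetCard] at hT
    have h3 : ∀ s : Fin n → Fin (m + 1), (if (∀ t ∈ T, s t = i) then ∏ t, r (s t) else 0)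
        = ∏ t, (if t ∈ T then (if s t = i then r (s t) else 0) else r (s t)) := by
      intro s
      split_ifs with h
      · apply Finset.prod_congr rfl
        intro t _
        by_cases ht : t ∈ T
        · rw [if_pos ht, if_pos (h t ht)]
        · rw [if_neg ht]
      · push Not at h
        obtain ⟨t, ht, hst⟩ := h
        symm
        apply Finset.prod_eq_zero (mem_univ t)
        rw [if_pos ht, if_neg hst]
    rw [Finset.sum_congr rfl (fun s _ => h3 s)]
    rw [sum_prod_fun (fun t b => if t ∈ T then (if b = i then r b else 0) else r b)]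
    have h4 : ∀ t : Fin n, (∑ b, if t ∈ T then (if b = i then r b else 0) else r b)
        = if t ∈ T then r i else ∑ b, r b := by
      intro t
      by_cases ht : t ∈ T
      · simp [ht]
      · simp [ht]
    rw [Finset.prod_congr rfl (fun t _ => h4 t), Finset.prod_ite]
    simp only [Finset.prod_const]
    have h5 : (univ.filter (fun t => t ∈ T)).card = L + 1 := by
      rw [← hT.2]; congr 1; ext t; simp
    have h6 : (univ.filter (fun t => ¬ t ∈ T)).card = n - (L + 1) := by
      have : univ.filter (fun t => ¬ t ∈ T) = Tᶜ := by ext t; simp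
      rw [this, card_compl, hT.2, Fintype.card_fin]
    rw [h5, h6]
  calc ∑ s : Fin n → Fin (m + 1) with L + 1 ≤ cnt s i, ∏ t, r (s t)
      ≤ ∑ s : Fin n → Fin (m + 1) with L + 1 ≤ cnt s i, ∑ T ∈ powersetCard (L + 1) (univ : Finset (Fin n)),
        (if (∀ t ∈ T, s t = i) then ∏ t, r (s t) else 0) := by
        apply Finset.sum_le_sum
        intro s hs
        exact h1 s (by simpa using hs)
    _ ≤ ∑ s : Fin n → Fin (m + 1), ∑ T ∈ powersetCard (L + 1) (univ : Finset (Fin n)),
        (if (∀ t ∈ T, s t = i) then ∏ t, r (s t) else 0) := by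
        apply Finset.sum_le_sum_of_subset_of_nonneg (filter_subset _ _)
        intro s _ _
        apply Finset.sum_nonneg
        intro T _
        split_ifs
        · exact Finset.prod_nonneg (fun _ _ => hr _)
        · exact le_rfl
    _ = ∑ T ∈ powersetCard (L + 1) (univ : Finset (Fin n)), ∑ s : Fin n → Fin (m + 1),
        (if (∀ t ∈ T, s t = i) then ∏ t, r (s t) else 0) := Finset.sum_comm
    _ = ∑ T ∈ powersetCard (L + 1) (univ : Finset (Fin n)), r i ^ (L + 1) * (∑ b, r b) ^ (n - (L + 1)) :=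
        Finset.sum_congr rfl h2
    _ = _ := by
        rw [Finset.sum_const, card_powersetCard, card_univ, Fintype.card_fin, nsmul_eq_mul]
        ring

theorem sum_prod_pow (r : Fin (m + 1) → ℝ) :
    ∑ s : Fin n → Fin (m + 1), ∏ t, r (s t) = (∑ b, r b) ^ n := by
  rw [sum_prod_fun (fun _ b => r b)]
  simp

/-- Step B: an estimator that works for all distributions catches most of the mass. -/
theorem catch_mass (α δ ε : ℝ) (f : (Fin n → Fin (m + 1)) → ℝ)
    (hf : ∀ p ∈ stdSimplex ℝ (Fin (m + 1)),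
      ∑ s : Fin n → Fin (m + 1) with δ < |f s - ren α p|, ∏ t, p (s t) < ε)
    (r : Fin (m + 1) → ℝ) (hr : ∀ i, 0 ≤ r i) (hpos : 0 < ∑ b, r b) (c : ℝ)
    (hc : |ren α (fun i => r i / ∑ b, r b) - c| ≤ δ) :
    (1 - ε) * (∑ b, r b) ^ n ≤ ∑ s : Fin n → Fin (m + 1) with |f s - c| ≤ 2 * δ, ∏ t, r (s t) := by
  set S := ∑ b, r b with hS
  set p : Fin (m + 1) → ℝ := fun i => r i / S with hp
  have hpS : p ∈ stdSimplex ℝ (Fin (m + 1)) := by
    refine ⟨fun i => div_nonneg (hr i) hpos.le, ?_⟩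
    simp only [hp]
    rw [← Finset.sum_div, ← hS, div_self hpos.ne']
  have h1 := hf p hpS
  have h2 : ∑ s : Fin n → Fin (m + 1), ∏ t, p (s t) = 1 := by
    rw [sum_prod_pow, hpS.2, one_pow]
  have h3 : 1 - ε ≤ ∑ s : Fin n → Fin (m + 1) with |f s - ren α p| ≤ δ, ∏ t, p (s t) := by
    have h4 := Finset.sum_filter_add_sum_filter_not (univ : Finset (Fin n → Fin (m + 1)))
      (fun s => δ < |f s - ren α p|) (fun s => ∏ t, p (s t))
    have h5 : (univ.filter (fun s : Fin n → Fin (m + 1) => ¬ δ < |f s - ren α p|))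
        = univ.filter (fun s => |f s - ren α p| ≤ δ) := by
      ext s; simp
    rw [h5, h2] at h4
    linarith
  have h6 : ∑ s : Fin n → Fin (m + 1) with |f s - ren α p| ≤ δ, ∏ t, p (s t)
      ≤ ∑ s : Fin n → Fin (m + 1) with |f s - c| ≤ 2 * δ, ∏ t, p (s t) := by
    apply Finset.sum_le_sum_of_subset_of_nonneg
    · intro s hs
      simp only [mem_filter, mem_univ, true_and] at hs ⊢
      have : f s - c = (f s - ren α p) + (ren α p - c) := by ring
      rw [this]
      calc |(f s - ren α p) + (ren α p - c)| ≤ |f s - ren α p| + |ren α p - c| := abs_add_le _ _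
        _ ≤ δ + δ := add_le_add hs hc
        _ = 2 * δ := by ring
    · intro s _ _
      exact Finset.prod_nonneg (fun t _ => hpS.1 _)
  have h7 : ∀ s : Fin n → Fin (m + 1), ∏ t, r (s t) = S ^ n * ∏ t, p (s t) := by
    intro s
    simp only [hp]
    rw [Finset.prod_div_distrib, Finset.prod_const, card_univ, Fintype.card_fin]
    field_simp
  rw [Finset.sum_congr rfl (fun s _ => h7 s), ← Finset.mul_sum, mul_comm]
  exact mul_le_mul_of_nonneg_left (le_trans h3 h6) (by positivity)

/-- The core inequality. -/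
theorem core_ineq (α δ ε : ℝ) (hε : ε ≤ 1) (f : (Fin n → Fin (m + 1)) → ℝ)
    (hf : ∀ p ∈ stdSimplex ℝ (Fin (m + 1)),
      ∑ s : Fin n → Fin (m + 1) with δ < |f s - ren α p|, ∏ t, p (s t) < ε)
    (lam β : ℝ) (hlam : 0 ≤ lam) (hβ : 0 ≤ β) (x h : ι → ℝ) (hx : ∀ a, 0 ≤ x a) (hh : ∀ a, 0 ≤ h a)
    (J L : ℕ) (u : Fin J → ι → ℝ) (hu : ∀ j a, 0 ≤ u j a)
    (hm : ∀ j j', ∀ d ≤ L, ∑ a, u j a * x a ^ d * h a = ∑ a, u j' a * x a ^ d * h a)
    (good : Fin J → Finset (Fin m → ι)) (c : Fin J → ℝ)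
    (hgood : ∀ j, ∀ y ∈ good j, 0 < tot lam β x y ∧
      |ren α (fun i => rate lam β x y i / tot lam β x y) - c j| ≤ δ)
    (hsep : ∀ j j', j ≠ j' → 4 * δ < |c j - c j'|) (j0 : Fin J) :
    ∑ j, ((1 - ε) * ∑ y ∈ good j, prior (u j) y * (tot lam β x y ^ n * ∏ i, h (y i))
      - ∑ i : Fin m, ∑ y : Fin m → ι, prior (u j) y * (((n.choose (L + 1) : ℝ) * (β * x (y i)) ^ (L + 1)
          * tot lam β x y ^ (n - (L + 1))) * ∏ i, h (y i)))
      ≤ ∑ y : Fin m → ι, prior (u j0) y * (tot lam β x y ^ n * ∏ i, h (y i)) := by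
  classical
  set Φ : Fin J → (Fin n → Fin (m + 1)) → ℝ := fun j s =>
    ∑ y : Fin m → ι, prior (u j) y * ((∏ t, rate lam β x y (s t)) * ∏ i, h (y i)) with hΦ
  have hΦ0 : ∀ j s, 0 ≤ Φ j s := by
    intro j s
    apply Finset.sum_nonneg
    intro y _
    apply mul_nonneg (prior_nonneg (hu j) y)
    apply mul_nonneg
    · exact Finset.prod_nonneg (fun t _ => rate_nonneg hlam hβ hx y _)
    · exact Finset.prod_nonneg (fun i _ => hh _)
  set B : Finset (Fin n → Fin (m + 1)) := univ.filter (fun s => ∀ i : Fin m, cnt s i.succ ≤ L) with hB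
  set A : Fin J → Finset (Fin n → Fin (m + 1)) := fun j => univ.filter (fun s => |f s - c j| ≤ 2 * δ) with hA
  -- Step B
  have hstepB : ∀ j, (1 - ε) * ∑ y ∈ good j, prior (u j) y * (tot lam β x y ^ n * ∏ i, h (y i))
      ≤ ∑ s ∈ A j, Φ j s := by
    intro j
    have h1 : ∑ s ∈ A j, Φ j s = ∑ y : Fin m → ι, prior (u j) y *
        ((∑ s ∈ A j, ∏ t, rate lam β x y (s t)) * ∏ i, h (y i)) := by
      simp only [hΦ]
      rw [Finset.sum_comm]
      apply Finset.sum_congr rfl
      intro y _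
      rw [Finset.sum_mul, Finset.mul_sum]
    rw [h1]
    have h2 : ∑ y ∈ good j, prior (u j) y * ((∑ s ∈ A j, ∏ t, rate lam β x y (s t)) * ∏ i, h (y i))
        ≤ ∑ y : Fin m → ι, prior (u j) y * ((∑ s ∈ A j, ∏ t, rate lam β x y (s t)) * ∏ i, h (y i)) := by
      apply Finset.sum_le_sum_of_subset_of_nonneg (subset_univ _)
      intro y _ _
      apply mul_nonneg (prior_nonneg (hu j) y)
      apply mul_nonneg
      · apply Finset.sum_nonneg
        intro s _
        exact Finset.prod_nonneg (fun t _ => rate_nonneg hlam hβ hx y _)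
      · exact Finset.prod_nonneg (fun i _ => hh _)
    refine le_trans ?_ h2
    rw [Finset.mul_sum]
    apply Finset.sum_le_sum
    intro y hy
    obtain ⟨hy1, hy2⟩ := hgood j y hy
    have h3 := catch_mass α δ ε f hf (rate lam β x y) (rate_nonneg hlam hβ hx y) hy1 (c j) hy2
    have h4 : 0 ≤ prior (u j) y * ∏ i, h (y i) :=
      mul_nonneg (prior_nonneg (hu j) y) (Finset.prod_nonneg (fun i _ => hh _))
    calc (1 - ε) * (prior (u j) y * (tot lam β x y ^ n * ∏ i, h (y i)))
        = (prior (u j) y * ∏ i, h (y i)) * ((1 - ε) * (∑ b, rate lam β x y b) ^ n) := by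
          rw [tot]; ring
      _ ≤ (prior (u j) y * ∏ i, h (y i)) * ∑ s ∈ A j, ∏ t, rate lam β x y (s t) :=
          mul_le_mul_of_nonneg_left h3 h4
      _ = _ := by ring
  -- Step C
  have hstepC : ∀ j, ∑ s ∈ Bᶜ, Φ j s ≤ ∑ i : Fin m, ∑ y : Fin m → ι, prior (u j) y *
      (((n.choose (L + 1) : ℝ) * (β * x (y i)) ^ (L + 1) * tot lam β x y ^ (n - (L + 1))) * ∏ i, h (y i)) := by
    intro j
    have h1 : ∑ s ∈ Bᶜ, Φ j s ≤ ∑ i : Fin m, ∑ s : Fin n → Fin (m + 1) with L + 1 ≤ cnt s i.succ, Φ j s := by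
      have h2 : ∀ s ∈ Bᶜ, Φ j s ≤ ∑ i : Fin m, if L + 1 ≤ cnt s i.succ then Φ j s else 0 := by
        intro s hs
        rw [mem_compl] at hs
        simp only [hB, mem_filter, mem_univ, true_and, not_forall, not_le] at hs
        obtain ⟨i, hi⟩ := hs
        have h3 := Finset.single_le_sum (f := fun i : Fin m => if L + 1 ≤ cnt s i.succ then Φ j s else 0)
          (s := univ) (by
            intro i _
            show 0 ≤ (if L + 1 ≤ cnt s i.succ then Φ j s else 0)
            split_ifs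
            · exact hΦ0 j s
            · exact le_rfl) (mem_univ i)
        have h4 : (if L + 1 ≤ cnt s i.succ then Φ j s else 0) = Φ j s := if_pos hi
        calc Φ j s = (if L + 1 ≤ cnt s i.succ then Φ j s else 0) := h4.symm
          _ ≤ _ := h3
      calc ∑ s ∈ Bᶜ, Φ j s ≤ ∑ s ∈ Bᶜ, ∑ i : Fin m, (if L + 1 ≤ cnt s i.succ then Φ j s else 0) :=
            Finset.sum_le_sum h2
        _ ≤ ∑ s : Fin n → Fin (m + 1), ∑ i : Fin m, (if L + 1 ≤ cnt s i.succ then Φ j s else 0) := by
            apply Finset.sum_le_sum_of_subset_of_nonneg (subset_univ _)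
            intro s _ _
            apply Finset.sum_nonneg
            intro i _
            split_ifs
            · exact hΦ0 j s
            · exact le_rfl
        _ = ∑ i : Fin m, ∑ s : Fin n → Fin (m + 1), (if L + 1 ≤ cnt s i.succ then Φ j s else 0) :=
            Finset.sum_comm
        _ = _ := by
            apply Finset.sum_congr rfl
            intro i _
            rw [Finset.sum_filter]
    refine le_trans h1 ?_
    apply Finset.sum_le_sum
    intro i _
    have h5 : ∑ s : Fin n → Fin (m + 1) with L + 1 ≤ cnt s i.succ, Φ j s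
        = ∑ y : Fin m → ι, prior (u j) y *
        ((∑ s : Fin n → Fin (m + 1) with L + 1 ≤ cnt s i.succ, ∏ t, rate lam β x y (s t)) * ∏ i, h (y i)) := by
      simp only [hΦ]
      rw [Finset.sum_comm]
      apply Finset.sum_congr rfl
      intro y _
      rw [Finset.sum_mul, Finset.mul_sum]
    rw [h5]
    apply Finset.sum_le_sum
    intro y _
    apply mul_le_mul_of_nonneg_left _ (prior_nonneg (hu j) y)
    apply mul_le_mul_of_nonneg_right _ (Finset.prod_nonneg (fun i _ => hh _))
    have h6 := tail_bound (n := n) (rate lam β x y) (rate_nonneg hlam hβ hx y) i.succ L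
    have h7 : rate lam β x y i.succ = β * x (y i) := by simp [rate]
    rw [h7] at h6
    exact h6
  -- equality on B
  have hstepA : ∀ j, ∀ s ∈ B, Φ j s = Φ j0 s := by
    intro j s hs
    simp only [hB, mem_filter, mem_univ, true_and] at hs
    exact mix_eq lam β x h (u j) (u j0) L (hm j j0) s hs
  -- disjointness
  have hdisj : ∀ s, ∑ j, (if s ∈ A j then Φ j0 s else 0) ≤ Φ j0 s := by
    intro s
    by_cases hex : ∃ j, s ∈ A j
    · obtain ⟨j1, hj1⟩ := hex
      rw [Finset.sum_eq_single j1]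
      · rw [if_pos hj1]
      · intro j _ hj
        rw [if_neg]
        intro hsj
        simp only [hA, mem_filter, mem_univ, true_and] at hsj hj1
        have h1 := hsep j j1 hj
        have h2 : c j - c j1 = (f s - c j1) - (f s - c j) := by ring
        rw [h2] at h1
        have h3 := abs_sub (f s - c j1) (f s - c j)
        linarith
      · intro h; exact absurd (mem_univ j1) h
    · push Not at hex
      rw [Finset.sum_eq_zero (fun j _ => if_neg (hex j))]
      exact hΦ0 j0 s
  calc ∑ j, ((1 - ε) * ∑ y ∈ good j, prior (u j) y * (tot lam β x y ^ n * ∏ i, h (y i))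
      - ∑ i : Fin m, ∑ y : Fin m → ι, prior (u j) y * (((n.choose (L + 1) : ℝ) * (β * x (y i)) ^ (L + 1)
          * tot lam β x y ^ (n - (L + 1))) * ∏ i, h (y i)))
      ≤ ∑ j, (∑ s ∈ A j, Φ j s - ∑ s ∈ Bᶜ, Φ j s) := by
        apply Finset.sum_le_sum
        intro j _
        linarith [hstepB j, hstepC j]
    _ ≤ ∑ j, ∑ s ∈ A j ∩ B, Φ j s := by
        apply Finset.sum_le_sum
        intro j _
        have h1 : ∑ s ∈ A j, Φ j s = ∑ s ∈ A j ∩ B, Φ j s + ∑ s ∈ A j \ B, Φ j s :=
          (Finset.sum_inter_add_sum_sdiff (A j) B (Φ j)).symm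
        have h2 : ∑ s ∈ A j \ B, Φ j s ≤ ∑ s ∈ Bᶜ, Φ j s := by
          apply Finset.sum_le_sum_of_subset_of_nonneg
          · intro s hs
            rw [mem_sdiff] at hs
            rw [mem_compl]; exact hs.2
          · intro s _ _; exact hΦ0 j s
        linarith
    _ = ∑ j, ∑ s ∈ A j ∩ B, Φ j0 s := by
        apply Finset.sum_congr rfl
        intro j _
        apply Finset.sum_congr rfl
        intro s hs
        exact hstepA j s (mem_inter.mp hs).2
    _ ≤ ∑ j, ∑ s ∈ A j, Φ j0 s := by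
        apply Finset.sum_le_sum
        intro j _
        apply Finset.sum_le_sum_of_subset_of_nonneg inter_subset_left
        intro s _ _; exact hΦ0 j0 s
    _ = ∑ j, ∑ s, (if s ∈ A j then Φ j0 s else 0) := by
        apply Finset.sum_congr rfl
        intro j _
        rw [← Finset.sum_filter]
        congr 1
        ext s; simp
    _ = ∑ s, ∑ j, (if s ∈ A j then Φ j0 s else 0) := Finset.sum_comm
    _ ≤ ∑ s, Φ j0 s := Finset.sum_le_sum (fun s _ => hdisj s)
    _ = ∑ y : Fin m → ι, prior (u j0) y * (tot lam β x y ^ n * ∏ i, h (y i)) := by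
        simp only [hΦ]
        rw [Finset.sum_comm]
        apply Finset.sum_congr rfl
        intro y _
        rw [← Finset.mul_sum, ← Finset.sum_mul, sum_prod_pow, tot]

end core

end Pool.Agent.Helper82_Renyi
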