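import Pool.Agent.Helper82_Renyi.Multi
import Pool.Agent.Helper82_Renyi.Approx3

set_option linter.unusedSectionVars false

open Finset Polynomial

namespace Pool.Agent.Helper82_Renyi

/-- the polynomial estimator of `τ^α Q(p/τ)` from a count `N` out of `n` -/
noncomputable def pe (Q : ℝ[X]) (D : ℕ) (τ α : ℝ) (n N : ℕ) : ℝ :=
  τ ^ α * ∑ j ∈ range (D + 1), Q.coeff j / τ ^ j * ((N.choose j : ℝ) / (n.choose j : ℝ))

section est
variable {Ω : Type} [Fintype Ω] [DecidableEq Ω] {n : ℕ}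

theorem pe_unbiased (Q : ℝ[X]) (D : ℕ) (hQ : Q.natDegree ≤ D) (τ α : ℝ) (hDn : D ≤ n)
    {p : Ω → ℝ} (hp : ∑ x, p x = 1) (x : Ω) :
    ∑ s : Fin n → Ω, pr p s * pe Q D τ α n (num s x) = τ ^ α * Q.eval (p x / τ) := by
  have h1 : ∀ s : Fin n → Ω, pr p s * pe Q D τ α n (num s x)
      = ∑ j ∈ range (D + 1), τ ^ α * (Q.coeff j / τ ^ j / (n.choose j : ℝ)) * (pr p s * ((num s x).choose j : ℝ)) := by
    intro s
    rw [pe, Finset.mul_sum, Finset.mul_sum]
    apply Finset.sum_congr rfl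
    intro j _; ring
  rw [Finset.sum_congr rfl (fun s _ => h1 s), Finset.sum_comm,
    Polynomial.eval_eq_sum_range' (Nat.lt_succ_of_le hQ), Finset.mul_sum]
  apply Finset.sum_congr rfl
  intro j hj
  have hjn : j ≤ n := by rw [mem_range] at hj; omega
  have hc : (n.choose j : ℝ) ≠ 0 := by
    have := Nat.choose_pos hjn
    positivity
  rw [← Finset.mul_sum, moment_one hp, div_pow]
  field_simp

theorem pe_abs_le (Q : ℝ[X]) (D : ℕ) (hCB : ∀ R : ℝ, 0 ≤ R → CB R (2 * (3 + 2 * R) ^ D) Q) (τ α : ℝ)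
    (hτ : 0 < τ) (hn : 0 < n) (N : ℕ) (hN : N ≤ n) :
    |pe Q D τ α n N| ≤ τ ^ α * (2 * (3 + 2 * (N / (n * τ))) ^ D) := by
  have hn0 : (0:ℝ) < n := by exact_mod_cast hn
  have hN0 : (0:ℝ) ≤ N := Nat.cast_nonneg N
  have hτα : 0 < τ ^ α := Real.rpow_pos_of_pos hτ α
  rw [pe, abs_mul, abs_of_pos hτα]
  apply mul_le_mul_of_nonneg_left _ hτα.le
  refine le_trans (Finset.abs_sum_le_sum_abs _ _) ?_
  refine le_trans ?_ (hCB (N / (n * τ)) (by positivity) (D + 1))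
  apply Finset.sum_le_sum
  intro j _
  rw [abs_mul, abs_div, abs_of_pos (pow_pos hτ j), abs_of_nonneg (by positivity : (0:ℝ) ≤ (N.choose j : ℝ) / (n.choose j : ℝ))]
  calc |Q.coeff j| / τ ^ j * ((N.choose j : ℝ) / (n.choose j : ℝ))
      ≤ |Q.coeff j| / τ ^ j * ((N:ℝ) / n) ^ j :=
        mul_le_mul_of_nonneg_left (choose_ratio_le N n j hN hn) (by positivity)
    _ = |Q.coeff j| * (N / (n * τ)) ^ j := by
        rw [div_pow, div_pow, mul_pow]
        field_simp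

theorem pe_second (Q : ℝ[X]) (D : ℕ) (hCB : ∀ R : ℝ, 0 ≤ R → CB R (2 * (3 + 2 * R) ^ D) Q) (τ α : ℝ)
    (hτ : 0 < τ) (hn : 0 < n) (hθ : 4 * (D:ℝ) / (3 * (n * τ)) ≤ 1)
    {p : Ω → ℝ} (hp0 : ∀ x, 0 ≤ p x) (hp : ∑ x, p x = 1) (x : Ω) (hpx : p x ≤ τ) :
    ∑ s : Fin n → Ω, pr p s * (pe Q D τ α n (num s x)) ^ 2
      ≤ 4 * (τ ^ α) ^ 2 * 9 ^ D * Real.exp (8 * D / 3) := by
  have hn0 : (0:ℝ) < n := by exact_mod_cast hn
  have hτα : 0 < τ ^ α := Real.rpow_pos_of_pos hτ α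
  have hD0 : (0:ℝ) ≤ D := Nat.cast_nonneg D
  set θ : ℝ := 4 * (D:ℝ) / (3 * (n * τ)) with hθdef
  have hθ0 : 0 ≤ θ := by positivity
  have h1 : ∀ s : Fin n → Ω, (pe Q D τ α n (num s x)) ^ 2 ≤ 4 * (τ ^ α) ^ 2 * 9 ^ D * Real.exp (θ * num s x) := by
    intro s
    have h2 := pe_abs_le Q D hCB τ α hτ hn (num s x) (num_le s x)
    have hN0 : (0:ℝ) ≤ (num s x : ℝ) := Nat.cast_nonneg _
    rw [← sq_abs]
    calc |pe Q D τ α n (num s x)| ^ 2 ≤ (τ ^ α * (2 * (3 + 2 * ((num s x : ℝ) / (n * τ))) ^ D)) ^ 2 :=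
          pow_le_pow_left₀ (abs_nonneg _) h2 2
      _ = 4 * (τ ^ α) ^ 2 * 9 ^ D * ((1 + 2 / 3 * ((num s x : ℝ) / (n * τ))) ^ (2 * D)) := by
          have h3 : (3 + 2 * ((num s x : ℝ) / (n * τ))) = 3 * (1 + 2 / 3 * ((num s x : ℝ) / (n * τ))) := by ring
          rw [h3, mul_pow 3, mul_comm 2 D, pow_mul _ D 2]
          have : (9:ℝ) ^ D = (3 ^ D) ^ 2 := by rw [← pow_mul, mul_comm, pow_mul]; norm_num
          rw [this]
          ring
      _ ≤ 4 * (τ ^ α) ^ 2 * 9 ^ D * ((Real.exp (2 / 3 * ((num s x : ℝ) / (n * τ)))) ^ (2 * D)) := by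
          apply mul_le_mul_of_nonneg_left _ (by positivity)
          apply pow_le_pow_left₀ (by positivity)
          have := Real.add_one_le_exp (2 / 3 * ((num s x : ℝ) / (n * τ)))
          linarith
      _ = _ := by
          rw [← Real.exp_nat_mul]
          congr 2
          rw [hθdef]
          push_cast
          field_simp
          ring
  calc ∑ s : Fin n → Ω, pr p s * (pe Q D τ α n (num s x)) ^ 2
      ≤ ∑ s : Fin n → Ω, pr p s * (4 * (τ ^ α) ^ 2 * 9 ^ D * Real.exp (θ * num s x)) :=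
        Finset.sum_le_sum (fun s _ => mul_le_mul_of_nonneg_left (h1 s) (pr_nonneg hp0 s))
    _ = 4 * (τ ^ α) ^ 2 * 9 ^ D * ∑ s : Fin n → Ω, pr p s * Real.exp (θ * num s x) := by
        rw [Finset.mul_sum]
        apply Finset.sum_congr rfl
        intro s _; ring
    _ ≤ 4 * (τ ^ α) ^ 2 * 9 ^ D * Real.exp (n * p x * (Real.exp θ - 1)) :=
        mul_le_mul_of_nonneg_left (mgf_num_le hp0 hp x θ) (by positivity)
    _ ≤ 4 * (τ ^ α) ^ 2 * 9 ^ D * Real.exp (8 * D / 3) := by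
        apply mul_le_mul_of_nonneg_left _ (by positivity)
        apply Real.exp_le_exp.mpr
        have h2 := exp_sub_one_le θ (by rw [abs_of_nonneg hθ0]; exact hθ)
        have h3 : Real.exp θ - 1 ≤ 2 * θ := by nlinarith
        have hnp : 0 ≤ (n:ℝ) * p x := mul_nonneg hn0.le (hp0 x)
        calc n * p x * (Real.exp θ - 1) ≤ n * p x * (2 * θ) := mul_le_mul_of_nonneg_left h3 hnp
          _ ≤ n * τ * (2 * θ) := by
              apply mul_le_mul_of_nonneg_right _ (by linarith)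
              exact mul_le_mul_of_nonneg_left hpx hn0.le
          _ = 8 * D / 3 := by
              rw [hθdef]; field_simp; ring

theorem pe_cov (Q : ℝ[X]) (D : ℕ) (hQ : Q.natDegree ≤ D)
    (hCB : ∀ R : ℝ, 0 ≤ R → CB R (2 * (3 + 2 * R) ^ D) Q) (τ α : ℝ)
    (hτ : 0 < τ) (hn : 0 < n) (hDn : D ≤ n)
    {p : Ω → ℝ} (hp0 : ∀ x, 0 ≤ p x) (hp : ∑ x, p x = 1) (x y : Ω) (hxy : x ≠ y)
    (hpx : p x ≤ τ) (hpy : p y ≤ τ) :
    ∑ s : Fin n → Ω, pr p s * ((pe Q D τ α n (num s x) - τ ^ α * Q.eval (p x / τ))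
        * (pe Q D τ α n (num s y) - τ ^ α * Q.eval (p y / τ)))
      ≤ (τ ^ α) ^ 2 * ((D:ℝ) ^ 2 / n) * (2 * 5 ^ D) ^ 2 := by
  have hn0 : (0:ℝ) < n := by exact_mod_cast hn
  have hτα : 0 < τ ^ α := Real.rpow_pos_of_pos hτ α
  set μ := τ ^ α * Q.eval (p x / τ) with hμ
  set ν := τ ^ α * Q.eval (p y / τ) with hν
  have h1 : ∑ s : Fin n → Ω, pr p s * ((pe Q D τ α n (num s x) - μ) * (pe Q D τ α n (num s y) - ν))
      = ∑ s : Fin n → Ω, pr p s * (pe Q D τ α n (num s x) * pe Q D τ α n (num s y)) - μ * ν := by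
    have h2 := pe_unbiased Q D hQ τ α hDn hp x
    have h3 := pe_unbiased Q D hQ τ α hDn hp y
    rw [← hμ] at h2
    rw [← hν] at h3
    have h4 := sum_pr (n := n) hp
    have h5 : ∀ s : Fin n → Ω, pr p s * ((pe Q D τ α n (num s x) - μ) * (pe Q D τ α n (num s y) - ν))
        = pr p s * (pe Q D τ α n (num s x) * pe Q D τ α n (num s y)) - ν * (pr p s * pe Q D τ α n (num s x))
          - μ * (pr p s * pe Q D τ α n (num s y)) + μ * ν * pr p s := by
      intro s; ring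
    rw [Finset.sum_congr rfl (fun s _ => h5 s), Finset.sum_add_distrib, Finset.sum_sub_distrib,
      Finset.sum_sub_distrib, ← Finset.mul_sum, ← Finset.mul_sum, ← Finset.mul_sum, h2, h3, h4]
    ring
  rw [h1]
  have h6 : ∑ s : Fin n → Ω, pr p s * (pe Q D τ α n (num s x) * pe Q D τ α n (num s y))
      = (τ ^ α) ^ 2 * ∑ j ∈ range (D + 1), ∑ l ∈ range (D + 1),
        (Q.coeff j * (p x / τ) ^ j) * (Q.coeff l * (p y / τ) ^ l) * (((n - j).choose l : ℝ) / (n.choose l : ℝ)) := by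
    have h7 : ∀ s : Fin n → Ω, pr p s * (pe Q D τ α n (num s x) * pe Q D τ α n (num s y))
        = (τ ^ α) ^ 2 * ∑ j ∈ range (D + 1), ∑ l ∈ range (D + 1),
          (Q.coeff j / τ ^ j / (n.choose j : ℝ)) * (Q.coeff l / τ ^ l / (n.choose l : ℝ)) *
            (pr p s * (((num s x).choose j : ℝ) * ((num s y).choose l : ℝ))) := by
      intro s
      rw [pe, pe]
      have key : ∀ A B : ℝ, pr p s * ((τ ^ α * A) * (τ ^ α * B)) = (τ ^ α) ^ 2 * (pr p s * (A * B)) := by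
        intro A B; ring
      rw [key]
      congr 1
      rw [Finset.sum_mul_sum, Finset.mul_sum]
      apply Finset.sum_congr rfl
      intro j _
      rw [Finset.mul_sum]
      apply Finset.sum_congr rfl
      intro l _
      ring
    rw [Finset.sum_congr rfl (fun s _ => h7 s), ← Finset.mul_sum]
    congr 1
    rw [Finset.sum_comm]
    apply Finset.sum_congr rfl
    intro j hj
    rw [Finset.sum_comm]
    apply Finset.sum_congr rfl
    intro l hl
    rw [← Finset.mul_sum, moment_two hp x y hxy]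
    have hjn : j ≤ n := by rw [mem_range] at hj; omega
    have hc : (n.choose j : ℝ) ≠ 0 := by
      have := Nat.choose_pos hjn
      positivity
    rw [div_pow, div_pow]
    field_simp
  have h8 : μ * ν = (τ ^ α) ^ 2 * ∑ j ∈ range (D + 1), ∑ l ∈ range (D + 1),
        (Q.coeff j * (p x / τ) ^ j) * (Q.coeff l * (p y / τ) ^ l) := by
    rw [hμ, hν, Polynomial.eval_eq_sum_range' (Nat.lt_succ_of_le hQ), Polynomial.eval_eq_sum_range' (Nat.lt_succ_of_le hQ),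
      ← Finset.sum_mul_sum]
    ring
  rw [h6, h8, ← mul_sub, mul_assoc]
  apply mul_le_mul_of_nonneg_left _ (by positivity)
  rw [← Finset.sum_sub_distrib]
  have h9 : ∀ z : Ω, p z ≤ τ → ∀ j : ℕ, |Q.coeff j * (p z / τ) ^ j| ≤ |Q.coeff j| := by
    intro z hz j
    have h10 : 0 ≤ p z / τ := div_nonneg (hp0 z) hτ.le
    have h11 : (p z / τ) ^ j ≤ 1 := pow_le_one₀ h10 (by rw [div_le_one hτ]; exact hz)
    rw [abs_mul, abs_of_nonneg (pow_nonneg h10 j)]
    calc |Q.coeff j| * (p z / τ) ^ j ≤ |Q.coeff j| * 1 := mul_le_mul_of_nonneg_left h11 (abs_nonneg _)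
      _ = _ := mul_one _
  have h12 : ∑ j ∈ range (D + 1), |Q.coeff j| ≤ 2 * 5 ^ D := by
    have := hCB 1 (by norm_num) (D + 1)
    norm_num at this
    exact this
  calc ∑ j ∈ range (D + 1), (∑ l ∈ range (D + 1),
        (Q.coeff j * (p x / τ) ^ j) * (Q.coeff l * (p y / τ) ^ l) * (((n - j).choose l : ℝ) / (n.choose l : ℝ))
        - ∑ l ∈ range (D + 1), (Q.coeff j * (p x / τ) ^ j) * (Q.coeff l * (p y / τ) ^ l))
      ≤ ∑ j ∈ range (D + 1), ∑ l ∈ range (D + 1), |Q.coeff j| * |Q.coeff l| * ((D:ℝ) ^ 2 / n) := by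
        apply Finset.sum_le_sum
        intro j hj
        rw [← Finset.sum_sub_distrib]
        apply Finset.sum_le_sum
        intro l hl
        have hln : l ≤ n := by rw [mem_range] at hl; omega
        have h13 := choose_sub_ratio n j l hln hn
        have h14 : (j:ℝ) * l / n ≤ (D:ℝ) ^ 2 / n := by
          apply div_le_div_of_nonneg_right _ hn0.le
          have hjD : (j:ℝ) ≤ D := by
            have : j ≤ D := by rw [mem_range] at hj; omega
            exact_mod_cast this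
          have hlD : (l:ℝ) ≤ D := by
            have : l ≤ D := by rw [mem_range] at hl; omega
            exact_mod_cast this
          have : (0:ℝ) ≤ l := Nat.cast_nonneg l
          have : (0:ℝ) ≤ j := Nat.cast_nonneg j
          nlinarith
        have h15 : (Q.coeff j * (p x / τ) ^ j) * (Q.coeff l * (p y / τ) ^ l) * (((n - j).choose l : ℝ) / (n.choose l : ℝ))
          - (Q.coeff j * (p x / τ) ^ j) * (Q.coeff l * (p y / τ) ^ l)
          = (Q.coeff j * (p x / τ) ^ j) * (Q.coeff l * (p y / τ) ^ l) * (((n - j).choose l : ℝ) / (n.choose l : ℝ) - 1) := by ring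
        rw [h15]
        refine le_trans (le_abs_self _) ?_
        rw [abs_mul, abs_mul]
        apply mul_le_mul
        · exact mul_le_mul (h9 x hpx j) (h9 y hpy l) (abs_nonneg _) (abs_nonneg _)
        · exact le_trans h13 h14
        · exact abs_nonneg _
        · positivity
    _ = (∑ j ∈ range (D + 1), |Q.coeff j|) * (∑ l ∈ range (D + 1), |Q.coeff l|) * ((D:ℝ) ^ 2 / n) := by
        rw [Finset.sum_mul_sum, Finset.sum_mul]
        apply Finset.sum_congr rfl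
        intro j _
        rw [Finset.sum_mul]
    _ ≤ (2 * 5 ^ D) * (2 * 5 ^ D) * ((D:ℝ) ^ 2 / n) := by
        apply mul_le_mul_of_nonneg_right _ (by positivity)
        exact mul_le_mul h12 h12 (Finset.sum_nonneg (fun _ _ => abs_nonneg _)) (by positivity)
    _ = _ := by ring

/-- the variance bound for the sum of the polynomial estimators over small symbols -/
theorem pe_var (Q : ℝ[X]) (D : ℕ) (hQ : Q.natDegree ≤ D)
    (hCB : ∀ R : ℝ, 0 ≤ R → CB R (2 * (3 + 2 * R) ^ D) Q) (τ α : ℝ)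
    (hτ : 0 < τ) (hn : 0 < n) (hDn : D ≤ n) (hθ : 4 * (D:ℝ) / (3 * (n * τ)) ≤ 1)
    {p : Ω → ℝ} (hp0 : ∀ x, 0 ≤ p x) (hp : ∑ x, p x = 1) (S : Finset Ω) (hS : ∀ x ∈ S, p x ≤ τ) :
    ∑ s : Fin n → Ω, pr p s * (∑ x ∈ S, (pe Q D τ α n (num s x) - τ ^ α * Q.eval (p x / τ))) ^ 2
      ≤ (τ ^ α) ^ 2 * ((Fintype.card Ω : ℝ) * (4 * 9 ^ D * Real.exp (8 * D / 3))
        + (Fintype.card Ω : ℝ) ^ 2 * (((D:ℝ) ^ 2 / n) * (2 * 5 ^ D) ^ 2)) := by
  have hn0 : (0:ℝ) < n := by exact_mod_cast hn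
  have hcard : (S.card : ℝ) ≤ Fintype.card Ω := by exact_mod_cast Finset.card_le_univ S
  set g : (Fin n → Ω) → Ω → ℝ := fun s x => pe Q D τ α n (num s x) - τ ^ α * Q.eval (p x / τ) with hg
  have h1 : ∑ s : Fin n → Ω, pr p s * (∑ x ∈ S, g s x) ^ 2
      = ∑ x ∈ S, ∑ y ∈ S, ∑ s : Fin n → Ω, pr p s * (g s x * g s y) := by
    have h2 : ∀ s : Fin n → Ω, pr p s * (∑ x ∈ S, g s x) ^ 2 = ∑ x ∈ S, ∑ y ∈ S, pr p s * (g s x * g s y) := by
      intro s
      rw [sq, Finset.sum_mul_sum, Finset.mul_sum]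
      apply Finset.sum_congr rfl
      intro x _
      rw [Finset.mul_sum]
    rw [Finset.sum_congr rfl (fun s _ => h2 s), Finset.sum_comm]
    apply Finset.sum_congr rfl
    intro x _
    rw [Finset.sum_comm]
  have h3 : ∀ x ∈ S, ∑ s : Fin n → Ω, pr p s * (g s x * g s x) ≤ (τ ^ α) ^ 2 * (4 * 9 ^ D * Real.exp (8 * D / 3)) := by
    intro x hx
    have h4 := pe_second (n := n) Q D hCB τ α hτ hn hθ hp0 hp x (hS x hx)
    have h5 := pe_unbiased Q D hQ τ α hDn hp x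
    have h6 := sum_pr (n := n) hp
    set μ := τ ^ α * Q.eval (p x / τ) with hμ
    have h7 : ∀ s : Fin n → Ω, pr p s * (g s x * g s x)
        = pr p s * (pe Q D τ α n (num s x)) ^ 2 - 2 * μ * (pr p s * pe Q D τ α n (num s x)) + μ ^ 2 * pr p s := by
      intro s; simp only [hg]; ring
    rw [Finset.sum_congr rfl (fun s _ => h7 s), Finset.sum_add_distrib, Finset.sum_sub_distrib,
      ← Finset.mul_sum, ← Finset.mul_sum, h5, h6]
    have h8 : 4 * (τ ^ α) ^ 2 * 9 ^ D * Real.exp (8 * D / 3) = (τ ^ α) ^ 2 * (4 * 9 ^ D * Real.exp (8 * D / 3)) := by ring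
    rw [h8] at h4
    nlinarith [sq_nonneg μ]
  have h9 : ∀ x ∈ S, ∀ y ∈ S, ∑ s : Fin n → Ω, pr p s * (g s x * g s y)
      ≤ (if x = y then (τ ^ α) ^ 2 * (4 * 9 ^ D * Real.exp (8 * D / 3)) else 0) + (τ ^ α) ^ 2 * (((D:ℝ) ^ 2 / n) * (2 * 5 ^ D) ^ 2) := by
    intro x hx y hy
    have hpos : 0 ≤ (τ ^ α) ^ 2 * (((D:ℝ) ^ 2 / n) * (2 * 5 ^ D) ^ 2) := by positivity
    by_cases hxy : x = y
    · subst hxy
      rw [if_pos rfl]
      linarith [h3 x hx]
    · rw [if_neg hxy, zero_add]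
      have := pe_cov (n := n) Q D hQ hCB τ α hτ hn hDn hp0 hp x y hxy (hS x hx) (hS y hy)
      simp only [hg]
      linarith
  rw [h1]
  calc ∑ x ∈ S, ∑ y ∈ S, ∑ s : Fin n → Ω, pr p s * (g s x * g s y)
      ≤ ∑ x ∈ S, ∑ y ∈ S, ((if x = y then (τ ^ α) ^ 2 * (4 * 9 ^ D * Real.exp (8 * D / 3)) else 0) + (τ ^ α) ^ 2 * (((D:ℝ) ^ 2 / n) * (2 * 5 ^ D) ^ 2)) :=
        Finset.sum_le_sum (fun x hx => Finset.sum_le_sum (fun y hy => h9 x hx y hy))
    _ = (S.card : ℝ) * ((τ ^ α) ^ 2 * (4 * 9 ^ D * Real.exp (8 * D / 3))) + (S.card : ℝ) ^ 2 * ((τ ^ α) ^ 2 * (((D:ℝ) ^ 2 / n) * (2 * 5 ^ D) ^ 2)) := by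
        have h10 : ∀ x ∈ S, ∑ y ∈ S, ((if x = y then (τ ^ α) ^ 2 * (4 * 9 ^ D * Real.exp (8 * D / 3)) else 0) + (τ ^ α) ^ 2 * (((D:ℝ) ^ 2 / n) * (2 * 5 ^ D) ^ 2))
            = (τ ^ α) ^ 2 * (4 * 9 ^ D * Real.exp (8 * D / 3)) + (S.card : ℝ) * ((τ ^ α) ^ 2 * (((D:ℝ) ^ 2 / n) * (2 * 5 ^ D) ^ 2)) := by
          intro x hx
          rw [Finset.sum_add_distrib, Finset.sum_const, nsmul_eq_mul, Finset.sum_ite_eq, if_pos hx]
        rw [Finset.sum_congr rfl h10, Finset.sum_const, nsmul_eq_mul]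
        ring
    _ ≤ (Fintype.card Ω : ℝ) * ((τ ^ α) ^ 2 * (4 * 9 ^ D * Real.exp (8 * D / 3))) + (Fintype.card Ω : ℝ) ^ 2 * ((τ ^ α) ^ 2 * (((D:ℝ) ^ 2 / n) * (2 * 5 ^ D) ^ 2)) := by
        apply add_le_add
        · exact mul_le_mul_of_nonneg_right hcard (by positivity)
        · apply mul_le_mul_of_nonneg_right _ (by positivity)
          exact pow_le_pow_left₀ (Nat.cast_nonneg _) hcard 2
    _ = _ := by ring

end est

end Pool.Agent.Helper82_Renyi
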