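import Pool.Agent.Helper82_Renyi.Pair

open Finset

namespace Pool.Agent.Helper82_Renyi

theorem exists_family (α : ℝ) (hα : 0 < α) (hna : ∀ m : ℕ, α ≠ m) (ρ : ℝ) (hρ : 1 ≤ ρ) (J : ℕ) :
    ∃ C c : ℝ, 0 < C ∧ 0 < c ∧ ∀ N : ℕ, ∃ (ι : Type) (_ : Fintype ι) (x : ι → ℝ) (u : Fin J → ι → ℝ),
      (∀ a, 0 ≤ x a) ∧ (∀ a, x a ≤ C * ((N:ℝ) + 1) ^ 2) ∧ (∀ j a, 0 ≤ u j a) ∧
      (∀ j, ∑ a, u j a = 1) ∧ (∀ j, ∑ a, u j a * x a = 1) ∧
      (∀ j j', ∀ d ≤ N, ∑ a, u j a * x a ^ d = ∑ a, u j' a * x a ^ d) ∧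
      (∀ j, ∑ a, u j a * x a ^ 2 ≤ C) ∧
      (∀ j, c ≤ ∑ a, u j a * x a ^ α) ∧
      (∀ j j', j < j' → ρ * ∑ a, u j a * x a ^ α ≤ ∑ a, u j' a * x a ^ α) := by
  have h2ρ : (1:ℝ) ≤ 2 * ρ := by linarith
  have h2ρ0 : (0:ℝ) < 2 * ρ := by linarith
  set η : ℝ := 1 / (2 * ρ) ^ J with hη
  have hη0 : 0 < η := by positivity
  obtain ⟨C, c, hC, hc, H⟩ := exists_pair α hα hna η hη0
  refine ⟨C, η * c, hC, by positivity, ?_⟩
  intro N
  obtain ⟨ι, inst, x, u, v, hx0, hxC, hu0, hv0, hu1, hv1, hux, hvx, hmom, hu2, hv2, hcu, hvu⟩ := H N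
  set t : Fin J → ℝ := fun j => (2 * ρ) ^ (j:ℕ) / (2 * ρ) ^ J with ht
  have ht0 : ∀ j, 0 < t j := fun j => by simp only [ht]; positivity
  have ht1 : ∀ j, t j ≤ 1 := fun j => by
    simp only [ht]
    rw [div_le_one (by positivity)]
    exact pow_le_pow_right₀ h2ρ j.2.le
  have htη : ∀ j, η ≤ t j := fun j => by
    simp only [ht, hη]
    apply div_le_div_of_nonneg_right _ (by positivity)
    exact one_le_pow₀ h2ρ
  have htt : ∀ j j', j < j' → 2 * ρ * t j ≤ t j' := fun j j' hjj => by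
    simp only [ht]
    rw [← mul_div_assoc]
    apply div_le_div_of_nonneg_right _ (by positivity)
    calc 2 * ρ * (2 * ρ) ^ (j:ℕ) = (2 * ρ) ^ ((j:ℕ) + 1) := by ring
      _ ≤ _ := pow_le_pow_right₀ h2ρ hjj
  have hlin : ∀ (j : Fin J) (g : ι → ℝ), ∑ a, ((1 - t j) * v a + t j * u a) * g a
      = (1 - t j) * ∑ a, v a * g a + t j * ∑ a, u a * g a := by
    intro j g
    rw [Finset.mul_sum, Finset.mul_sum, ← Finset.sum_add_distrib]
    apply Finset.sum_congr rfl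
    intro a _
    ring
  have hlin1 : ∀ (j : Fin J), ∑ a, ((1 - t j) * v a + t j * u a)
      = (1 - t j) * ∑ a, v a + t j * ∑ a, u a := by
    intro j
    rw [Finset.mul_sum, Finset.mul_sum, ← Finset.sum_add_distrib]
  set U := ∑ a, u a * x a ^ α with hU
  set V := ∑ a, v a * x a ^ α with hV
  have hU0 : 0 < U := lt_of_lt_of_le hc hcu
  have hV0 : 0 ≤ V := Finset.sum_nonneg (fun a _ => mul_nonneg (hv0 a) (Real.rpow_nonneg (hx0 a) _))
  have hlow : ∀ j, t j * U ≤ (1 - t j) * V + t j * U := fun j => by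
    have : 0 ≤ (1 - t j) * V := mul_nonneg (by linarith [ht1 j]) hV0
    linarith
  have hupp : ∀ j, (1 - t j) * V + t j * U ≤ 2 * t j * U := fun j => by
    have h1 : (1 - t j) * V ≤ 1 * V := mul_le_mul_of_nonneg_right (by linarith [ht0 j]) hV0
    have h2 : η * U ≤ t j * U := mul_le_mul_of_nonneg_right (htη j) hU0.le
    linarith
  refine ⟨ι, inst, x, fun j a => (1 - t j) * v a + t j * u a, hx0, hxC, ?_, ?_, ?_, ?_, ?_, ?_, ?_⟩
  · intro j a
    have h1 := ht0 j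
    have h2 := ht1 j
    have h3 := mul_nonneg (by linarith : (0:ℝ) ≤ 1 - t j) (hv0 a)
    have h4 := mul_nonneg h1.le (hu0 a)
    linarith
  · intro j
    rw [hlin1 j, hv1, hu1]; ring
  · intro j
    rw [hlin j x, hvx, hux]; ring
  · intro j j' d hd
    rw [hlin j (fun a => x a ^ d), hlin j' (fun a => x a ^ d), hmom d hd]
    ring
  · intro j
    rw [hlin j (fun a => x a ^ 2)]
    have h1 := ht0 j
    have h2 := ht1 j
    nlinarith
  · intro j
    rw [hlin j (fun a => x a ^ α)]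
    calc η * c ≤ t j * U := mul_le_mul (htη j) hcu hc.le (ht0 j).le
      _ ≤ _ := hlow j
  · intro j j' hjj
    rw [hlin j (fun a => x a ^ α), hlin j' (fun a => x a ^ α)]
    calc ρ * ((1 - t j) * V + t j * U) ≤ ρ * (2 * t j * U) :=
          mul_le_mul_of_nonneg_left (hupp j) (by linarith)
      _ = (2 * ρ * t j) * U := by ring
      _ ≤ t j' * U := mul_le_mul_of_nonneg_right (htt j j' hjj) hU0.le
      _ ≤ _ := hlow j'

/-- truncated exponential series of `exp (-z)` -/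
noncomputable def texp (D : ℕ) (z : ℝ) : ℝ := ∑ d ∈ range (D + 1), (-z) ^ d / d.factorial

theorem pow_div_factorial_small (D : ℕ) (z : ℝ) (hz : 0 ≤ z)
    (hz' : z ≤ ((D:ℝ) + 1) / Real.exp 4) :
    z ^ (D + 1) / ((D + 1).factorial : ℝ) ≤ Real.exp (-(3 * ((D:ℝ) + 1))) := by
  have h1 : z ^ (D + 1) ≤ (((D:ℝ) + 1) / Real.exp 4) ^ (D + 1) := pow_le_pow_left₀ hz hz' _
  have h2 : ((D:ℝ) + 1) ^ (D + 1) / ((D + 1).factorial : ℝ) ≤ Real.exp ((D:ℝ) + 1) := by
    have h0 : (0:ℝ) ≤ (D:ℝ) + 1 := by positivity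
    exact Real.pow_div_factorial_le_exp _ h0 (D + 1)
  have h3 : (((D:ℝ) + 1) / Real.exp 4) ^ (D + 1) = ((D:ℝ) + 1) ^ (D + 1) * Real.exp (-(4 * ((D:ℝ) + 1))) := by
    rw [div_pow, ← Real.exp_nat_mul, Real.exp_neg, div_eq_mul_inv]
    push_cast
    ring_nf
  calc z ^ (D + 1) / ((D + 1).factorial : ℝ)
      ≤ (((D:ℝ) + 1) / Real.exp 4) ^ (D + 1) / ((D + 1).factorial : ℝ) := by
        apply div_le_div_of_nonneg_right h1 (by positivity)
    _ = (((D:ℝ) + 1) ^ (D + 1) / ((D + 1).factorial : ℝ)) * Real.exp (-(4 * ((D:ℝ) + 1))) := by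
        rw [h3]; ring
    _ ≤ Real.exp ((D:ℝ) + 1) * Real.exp (-(4 * ((D:ℝ) + 1))) :=
        mul_le_mul_of_nonneg_right h2 (Real.exp_pos _).le
    _ = _ := by rw [← Real.exp_add]; congr 1; ring

theorem texp_bound (D : ℕ) (z : ℝ) (hz : 0 ≤ z) (hz' : z ≤ ((D:ℝ) + 1) / Real.exp 4) :
    |texp D z * Real.exp z - 1| ≤ Real.exp (-(2 * ((D:ℝ) + 1))) := by
  have he4 : (50:ℝ) ≤ Real.exp 4 := by
    have h1 : (2.7:ℝ) ≤ Real.exp 1 := by linarith [Real.exp_one_gt_d9]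
    have h2 : Real.exp 4 = (Real.exp 1) ^ 4 := by rw [← Real.exp_nat_mul]; norm_num
    rw [h2]
    calc (50:ℝ) ≤ 2.7 ^ 4 := by norm_num
      _ ≤ _ := pow_le_pow_left₀ (by norm_num) h1 4
  have hz50 : z ≤ ((D:ℝ) + 1) / 50 := by
    refine le_trans hz' ?_
    apply div_le_div_of_nonneg_left (by positivity) (by norm_num) he4
  have hD0 : (0:ℝ) ≤ D := Nat.cast_nonneg D
  have h1 : |Real.exp (-z) - texp D z| ≤ z ^ (D + 1) / ((D + 1).factorial : ℝ) * 2 := by
    have h2 := Complex.exp_bound' (x := ((-z : ℝ) : ℂ)) (n := D + 1) (by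
      rw [Complex.norm_real, Real.norm_eq_abs, abs_neg, abs_of_nonneg hz]
      rw [div_le_div_iff₀ (by positivity) (by norm_num)]
      push_cast
      linarith)
    rw [Complex.norm_real, Real.norm_eq_abs, abs_neg, abs_of_nonneg hz] at h2
    have h3 : (Complex.exp ((-z : ℝ) : ℂ) - ∑ m ∈ range (D + 1), ((-z : ℝ) : ℂ) ^ m / (m.factorial : ℂ))
        = ((Real.exp (-z) - texp D z : ℝ) : ℂ) := by
      rw [texp]
      push_cast
      rfl
    rw [h3, Complex.norm_real, Real.norm_eq_abs] at h2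
    exact h2
  have h4 := pow_div_factorial_small D z hz hz'
  have h5 : texp D z * Real.exp z - 1 = -(Real.exp (-z) - texp D z) * Real.exp z := by
    have : Real.exp (-z) * Real.exp z = 1 := by rw [← Real.exp_add]; simp
    linear_combination this
  rw [h5, abs_mul, abs_neg, abs_of_pos (Real.exp_pos z)]
  calc |Real.exp (-z) - texp D z| * Real.exp z
      ≤ (Real.exp (-(3 * ((D:ℝ) + 1))) * 2) * Real.exp z := by
        apply mul_le_mul_of_nonneg_right _ (Real.exp_pos z).le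
        linarith
    _ ≤ (Real.exp (-(3 * ((D:ℝ) + 1))) * Real.exp (0.9 * ((D:ℝ) + 1))) * Real.exp (((D:ℝ) + 1) / 50) := by
        apply mul_le_mul
        · apply mul_le_mul_of_nonneg_left _ (Real.exp_pos _).le
          have h6 : (2:ℝ) ≤ Real.exp 0.9 := by
            have h7 : Real.log 2 ≤ 0.9 := by linarith [Real.log_two_lt_d9]
            calc (2:ℝ) = Real.exp (Real.log 2) := (Real.exp_log (by norm_num)).symm
              _ ≤ _ := Real.exp_le_exp.mpr h7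
          refine le_trans h6 (Real.exp_le_exp.mpr ?_)
          linarith
        · exact Real.exp_le_exp.mpr hz50
        · exact (Real.exp_pos _).le
        · positivity
    _ = Real.exp (-(3 * ((D:ℝ) + 1)) + 0.9 * ((D:ℝ) + 1) + ((D:ℝ) + 1) / 50) := by
        rw [Real.exp_add, Real.exp_add]
    _ ≤ _ := by
        apply Real.exp_le_exp.mpr
        linarith

end Pool.Agent.Helper82_Renyi
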