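import Pool.Agent.Helper82_Renyi.Asym

open Finset Filter

namespace Pool.Agent.Helper82_Renyi

/-- Lower bound in terms of the alphabet size. -/
theorem lower_final (α : ℝ) (hα : 0 < α) (hna : ∀ m : ℕ, α ≠ m) (δ : ℝ) (hδ : 0 < δ)
    (ε : ℝ) (hε0 : 0 < ε) (hε : ε < 1) :
    ∃ c : ℝ, 0 < c ∧ ∃ k₀ : ℕ, ∀ k ≥ k₀, ∀ n : ℕ,
      (∃ f : (Fin n → Fin k) → ℝ, ∀ p ∈ stdSimplex ℝ (Fin k),
        ∑ s : Fin n → Fin k with δ < |f s - ren α p|, ∏ t, p (s t) < ε) →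
      c * ((k:ℝ) ^ (max 1 (1 / α)) / Real.log k) ≤ n := by
  obtain ⟨c₀, c₁, hc₀, hc₁, m₀, H⟩ := lower_asym α hα hna δ hδ ε hε0 hε
  have hα1 : α ≠ 1 := by simpa using hna 1
  have hcast : Tendsto (fun m : ℕ => (m : ℝ)) atTop atTop := tendsto_natCast_atTop_atTop
  set e : ℝ := max 1 (1 / α) with he
  have he1 : 1 ≤ e := le_max_left _ _
  -- the rate parameter
  obtain ⟨B, hB, hBprop⟩ : ∃ B : ℝ, 0 < B ∧ ∃ m₁ : ℕ, ∀ m ≥ m₁, 1 ≤ m →
      (B / (m:ℝ) ^ e) * m ≤ 1 ∧ (1 - m * (B / (m:ℝ) ^ e)) ^ α ≤ (B / (m:ℝ) ^ e) ^ α * m * c₀ := by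
    rcases lt_or_gt_of_ne hα1 with h | h
    · -- α < 1
      have he2 : e = 1 / α := by
        rw [he, max_eq_right]
        rw [le_div_iff₀ hα]; linarith
      have hgt : 0 < 1 / α - 1 := by
        have : 1 < 1 / α := by rw [lt_div_iff₀ hα]; linarith
        linarith
      refine ⟨(1 / c₀) ^ (1 / α), by positivity, ?_⟩
      have ev : ∀ᶠ m : ℕ in atTop, (1 / c₀) ^ (1 / α) ≤ (m:ℝ) ^ (1 / α - 1) :=
        ((tendsto_rpow_atTop hgt).comp hcast).eventually_ge_atTop _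
      obtain ⟨m₁, hm₁⟩ := eventually_atTop.mp ev
      refine ⟨m₁, fun m hm hm1 => ?_⟩
      have hm0 : (0:ℝ) < m := by exact_mod_cast hm1
      have h1 := hm₁ m hm
      have h2 : ((1 / c₀) ^ (1 / α) / (m:ℝ) ^ e) * m = (1 / c₀) ^ (1 / α) / (m:ℝ) ^ (1 / α - 1) := by
        rw [he2, Real.rpow_sub_one hm0.ne']
        have : (m:ℝ) ^ (1 / α) ≠ 0 := by positivity
        field_simp
      have h3 : ((1 / c₀) ^ (1 / α) / (m:ℝ) ^ e) * m ≤ 1 := by
        rw [h2, div_le_one (by positivity)]; exact h1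
      refine ⟨h3, ?_⟩
      have h4 : ((1 / c₀) ^ (1 / α) / (m:ℝ) ^ e) ^ α * m * c₀ = 1 := by
        rw [he2, Real.div_rpow (by positivity) (by positivity), ← Real.rpow_mul (by positivity),
          ← Real.rpow_mul hm0.le, one_div_mul_cancel hα.ne', Real.rpow_one, Real.rpow_one]
        field_simp
      rw [h4]
      apply Real.rpow_le_one
      · linarith
      · have : 0 ≤ ((1 / c₀) ^ (1 / α) / (m:ℝ) ^ e) * m := by positivity
        linarith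
      · exact hα.le
    · -- α > 1
      have he2 : e = 1 := by
        rw [he, max_eq_left]
        rw [div_le_iff₀ hα]; linarith
      refine ⟨1, one_pos, 1, fun m _ hm1 => ?_⟩
      have hm0 : (0:ℝ) < m := by exact_mod_cast hm1
      rw [he2, Real.rpow_one]
      constructor
      · rw [one_div_mul_cancel hm0.ne']
      · rw [mul_one_div_cancel hm0.ne', sub_self, Real.zero_rpow hα.ne']
        positivity
  obtain ⟨m₁, hm₁⟩ := hBprop
  refine ⟨c₁ / (B * 2 ^ e * 2), by positivity, max (max m₀ m₁) 3 + 1, ?_⟩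
  intro k hk n hest
  obtain ⟨m, rfl⟩ : ∃ m, k = m + 1 := ⟨k - 1, by omega⟩
  have hmm0 : m₀ ≤ m := by
    have := le_max_left (max m₀ m₁) 3
    have := le_max_left m₀ m₁
    omega
  have hmm1 : m₁ ≤ m := by
    have := le_max_left (max m₀ m₁) 3
    have := le_max_right m₀ m₁
    omega
  have hm3 : 3 ≤ m := by
    have := le_max_right (max m₀ m₁) 3
    omega
  have hm0 : (0:ℝ) < m := by
    have : 0 < m := by omega
    exact_mod_cast this
  have hm3' : (3:ℝ) ≤ m := by exact_mod_cast hm3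
  obtain ⟨h1, h2⟩ := hm₁ m hmm1 (by omega)
  have hβ : 0 < B / (m:ℝ) ^ e := by positivity
  obtain ⟨f, hf⟩ := hest
  have h3 : c₁ < (n:ℝ) * (B / (m:ℝ) ^ e) * ((⌊Real.log m⌋₊ : ℝ) + 1) := by
    by_contra hcon
    push Not at hcon
    exact H m hmm0 (B / (m:ℝ) ^ e) hβ h1 h2 n hcon f hf
  have hlog1 : 1 ≤ Real.log m := by
    rw [Real.le_log_iff_exp_le hm0]
    linarith [Real.exp_one_lt_d9]
  have hLlog : ((⌊Real.log m⌋₊ : ℕ) : ℝ) ≤ Real.log m := Nat.floor_le (by linarith)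
  have hlogk : Real.log m ≤ Real.log ((m + 1 : ℕ):ℝ) := by
    apply Real.log_le_log hm0
    push_cast; linarith
  have hlogk0 : 0 < Real.log ((m + 1 : ℕ):ℝ) := by linarith
  have hn0 : (0:ℝ) ≤ n := Nat.cast_nonneg n
  have h4 : c₁ ≤ (n:ℝ) * (B / (m:ℝ) ^ e) * (2 * Real.log ((m + 1 : ℕ):ℝ)) := by
    refine le_trans h3.le ?_
    apply mul_le_mul_of_nonneg_left _ (by positivity)
    linarith
  have h5 : (((m + 1 : ℕ):ℝ)) ^ e ≤ 2 ^ e * (m:ℝ) ^ e := by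
    rw [← Real.mul_rpow (by norm_num) hm0.le]
    apply Real.rpow_le_rpow (by positivity) _ (by linarith)
    push_cast; linarith
  have h6 : c₁ * (m:ℝ) ^ e ≤ (n:ℝ) * B * (2 * Real.log ((m + 1 : ℕ):ℝ)) := by
    have h7 : 0 < (m:ℝ) ^ e := by positivity
    calc c₁ * (m:ℝ) ^ e ≤ ((n:ℝ) * (B / (m:ℝ) ^ e) * (2 * Real.log ((m + 1 : ℕ):ℝ))) * (m:ℝ) ^ e :=
          mul_le_mul_of_nonneg_right h4 h7.le
      _ = _ := by field_simp
  rw [← mul_div_assoc, div_le_iff₀ hlogk0]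
  calc c₁ / (B * 2 ^ e * 2) * ((m + 1 : ℕ):ℝ) ^ e ≤ c₁ / (B * 2 ^ e * 2) * (2 ^ e * (m:ℝ) ^ e) :=
        mul_le_mul_of_nonneg_left h5 (by positivity)
    _ = (c₁ * (m:ℝ) ^ e) / (B * 2) := by
        have : (2:ℝ) ^ e ≠ 0 := by positivity
        field_simp
    _ ≤ ((n:ℝ) * B * (2 * Real.log ((m + 1 : ℕ):ℝ))) / (B * 2) :=
        div_le_div_of_nonneg_right h6 (by positivity)
    _ = _ := by field_simp

end Pool.Agent.Helper82_Renyi
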