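import Pool.Agent.Helper82_Renyi.Conc

set_option linter.unusedSectionVars false
set_option linter.unusedVariables false

open Finset

namespace Pool.Agent.Helper82_Renyi

theorem log_close (Z Z0 t : ℝ) (hZ0 : 0 < Z0) (ht : 0 ≤ t) (ht2 : t ≤ 1 / 2)
    (h : |Z - Z0| ≤ t * Z0) : 0 < Z ∧ |Real.log Z - Real.log Z0| ≤ 2 * t := by
  obtain ⟨h1, h2⟩ := abs_le.mp h
  have hZ : 0 < Z := by nlinarith
  refine ⟨hZ, ?_⟩
  rw [← Real.log_div hZ.ne' hZ0.ne']
  have hq : 0 < Z / Z0 := div_pos hZ hZ0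
  have hup : Z / Z0 ≤ 1 + t := by rw [div_le_iff₀ hZ0]; linarith
  have hlo : 1 - t ≤ Z / Z0 := by rw [le_div_iff₀ hZ0]; linarith
  rw [abs_le]
  constructor
  · have h3 := Real.one_sub_inv_le_log_of_pos hq
    have h4 : (Z / Z0)⁻¹ ≤ (1 - t)⁻¹ := inv_anti₀ (by linarith) hlo
    have h5 : (1 - t)⁻¹ ≤ 1 + 2 * t := by
      rw [inv_le_comm₀ (by linarith) (by linarith), ← one_div, div_le_iff₀ (by linarith)]
      nlinarith
    linarith
  · have h3 := Real.log_le_sub_one_of_pos hq
    linarith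

theorem ren_rate {ι : Type} [Fintype ι] {m : ℕ} (α lam β : ℝ) (hα : 0 < α) (hlam : 0 ≤ lam) (hβ : 0 ≤ β)
    (x : ι → ℝ) (hx : ∀ a, 0 ≤ x a) (y : Fin m → ι) (ht : 0 < tot lam β x y)
    (hnum : 0 < lam ^ α + β ^ α * ∑ i, x (y i) ^ α) :
    ren α (fun i => rate lam β x y i / tot lam β x y)
      = (Real.log (lam ^ α + β ^ α * ∑ i, x (y i) ^ α) - α * Real.log (tot lam β x y)) / (1 - α) := by
  rw [ren]
  congr 1
  have h1 : ∑ i, (rate lam β x y i / tot lam β x y) ^ α
      = (lam ^ α + β ^ α * ∑ i, x (y i) ^ α) / tot lam β x y ^ α := by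
    have h2 : ∀ i, (rate lam β x y i / tot lam β x y) ^ α = rate lam β x y i ^ α / tot lam β x y ^ α :=
      fun i => Real.div_rpow (rate_nonneg hlam hβ hx y i) ht.le α
    rw [Finset.sum_congr rfl (fun i _ => h2 i), ← Finset.sum_div]
    congr 1
    rw [Fin.sum_univ_succ]
    simp only [rate, Fin.cons_zero, Fin.cons_succ]
    congr 1
    rw [Finset.mul_sum]
    apply Finset.sum_congr rfl
    intro i _
    rw [Real.mul_rpow hβ (hx _)]
  rw [h1, Real.log_div hnum.ne' (Real.rpow_pos_of_pos ht α).ne', Real.log_rpow ht]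

theorem master (α δ ε : ℝ) (hα : 0 < α) (hα1 : α ≠ 1) (hδ : 0 < δ) (hε : ε < 1)
    (C c t : ℝ) (hC : 0 < C) (hc : 0 < c) (ht : 0 < t) (ht2 : t ≤ 1 / 2)
    (htδ : 2 * t * (1 + α) ≤ δ * |1 - α|)
    (m n L J : ℕ) (hm : 1 ≤ m) (f : (Fin n → Fin (m + 1)) → ℝ)
    (hf : ∀ p ∈ stdSimplex ℝ (Fin (m + 1)),
      ∑ s : Fin n → Fin (m + 1) with δ < |f s - ren α p|, ∏ t, p (s t) < ε)
    (β lam : ℝ) (hβ : 0 < β) (hβm : β * m ≤ 1) (hlam : lam = 1 - m * β)
    (hlamα : lam ^ α ≤ β ^ α * m * c)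
    (ι : Type) [Fintype ι] (x : ι → ℝ) (u : Fin J → ι → ℝ) (hx : ∀ a, 0 ≤ x a)
    (M : ℝ) (hM : 0 ≤ M) (hxM : ∀ a, x a ≤ M) (hu : ∀ j a, 0 ≤ u j a)
    (hu1 : ∀ j, ∑ a, u j a = 1) (hux : ∀ j, ∑ a, u j a * x a = 1)
    (hmom : ∀ j j', ∀ d ≤ 2 * L, ∑ a, u j a * x a ^ d = ∑ a, u j' a * x a ^ d)
    (hu2 : ∀ j, ∑ a, u j a * x a ^ 2 ≤ C)
    (huc : ∀ j, c ≤ ∑ a, u j a * x a ^ α)
    (ρ : ℝ) (hρ : 2 * Real.exp (4 * δ * |1 - α|) < ρ)
    (hsepA : ∀ j j', j < j' → ρ * ∑ a, u j a * x a ^ α ≤ ∑ a, u j' a * x a ^ α)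
    (hb : (n:ℝ) * β * M ≤ ((L:ℝ) + 1) / Real.exp 4) (hJ : 0 < J) :
    (J:ℝ) * ((1 - ε) * ((1 - Real.exp (-(2 * ((L:ℝ) + 1)))) ^ m *
        (1 - n * (β ^ 2 * m * C) - β ^ 2 * m * C / t ^ 2 - M ^ (2 * α) / (m * t ^ 2 * c ^ 2)))
        - m * Real.exp (-(2 * ((L:ℝ) + 1))) * (1 + Real.exp (-(2 * ((L:ℝ) + 1)))) ^ m)
      ≤ (1 + Real.exp (-(2 * ((L:ℝ) + 1)))) ^ m := by
  classical
  set η := Real.exp (-(2 * ((L:ℝ) + 1))) with hη
  have hη0 : 0 < η := Real.exp_pos _
  have hη1 : η ≤ 1 := by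
    rw [hη, Real.exp_le_one_iff]
    have : (0:ℝ) ≤ L := Nat.cast_nonneg L
    linarith
  have hm0 : (0:ℝ) < m := by exact_mod_cast hm
  have hlam0 : 0 ≤ lam := by rw [hlam]; linarith
  have hn0 : (0:ℝ) ≤ n := Nat.cast_nonneg n
  set b : ℝ := n * β with hbdef
  have hb0 : 0 ≤ b := mul_nonneg hn0 hβ.le
  have hbx : ∀ a, b * x a ≤ ((L:ℝ) + 1) / Real.exp 4 := fun a =>
    le_trans (mul_le_mul_of_nonneg_left (hxM a) hb0) hb
  set h : ι → ℝ := fun a => texp L (b * x a) with hh
  have hh0 : ∀ a, 0 ≤ h a := fun a => texp_nonneg L _ (mul_nonneg hb0 (hx a)) (hbx a)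
  set A : Fin J → ℝ := fun j => ∑ a, u j a * x a ^ α with hA
  have hA0 : ∀ j, 0 < A j := fun j => lt_of_lt_of_le hc (huc j)
  have hβα : 0 < β ^ α := Real.rpow_pos_of_pos hβ α
  have hlamα0 : 0 ≤ lam ^ α := Real.rpow_nonneg hlam0 α
  have h1α : 0 < |1 - α| := abs_pos.mpr (sub_ne_zero.mpr hα1.symm)
  have h1α' : (1 - α) ≠ 0 := sub_ne_zero.mpr hα1.symm
  set num : Fin J → ℝ := fun j => lam ^ α + β ^ α * (m * A j) with hnum
  have hnum0 : ∀ j, 0 < num j := fun j => by
    have : 0 < β ^ α * (m * A j) := by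
      have := hA0 j
      positivity
    simp only [hnum]; linarith
  set cc : Fin J → ℝ := fun j => Real.log (num j) / (1 - α) with hcc
  set good : Fin J → Finset (Fin m → ι) := fun j => univ.filter (fun y =>
    |tot lam β x y - 1| ≤ t ∧ |∑ i, (x (y i) ^ α - A j)| ≤ m * t * A j) with hgooddef
  -- good configurations have entropy close to the centre
  have hgood : ∀ j, ∀ y ∈ good j, 0 < tot lam β x y ∧
      |ren α (fun i => rate lam β x y i / tot lam β x y) - cc j| ≤ δ := by
    intro j y hy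
    simp only [hgooddef, mem_filter, mem_univ, true_and] at hy
    obtain ⟨hy1, hy2⟩ := hy
    obtain ⟨htot, hlogtot⟩ := log_close (tot lam β x y) 1 t one_pos ht.le ht2 (by simpa using hy1)
    rw [Real.log_one, sub_zero] at hlogtot
    have hS : ∑ i, (x (y i) ^ α - A j) = ∑ i, x (y i) ^ α - m * A j := by
      rw [Finset.sum_sub_distrib]; simp
    obtain ⟨hZ, hlogZ⟩ := log_close (lam ^ α + β ^ α * ∑ i, x (y i) ^ α) (num j) t (hnum0 j) ht.le ht2 (by
      have h3 : lam ^ α + β ^ α * ∑ i, x (y i) ^ α - num j = β ^ α * ∑ i, (x (y i) ^ α - A j) := by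
        rw [hS]; simp only [hnum]; ring
      rw [h3, abs_mul, abs_of_pos hβα]
      calc β ^ α * |∑ i, (x (y i) ^ α - A j)| ≤ β ^ α * (m * t * A j) :=
            mul_le_mul_of_nonneg_left hy2 hβα.le
        _ = t * (β ^ α * (m * A j)) := by ring
        _ ≤ t * num j := by
            apply mul_le_mul_of_nonneg_left _ ht.le
            simp only [hnum]; linarith)
    refine ⟨htot, ?_⟩
    rw [ren_rate α lam β hα hlam0 hβ.le x hx y htot hZ]
    simp only [hcc]
    rw [← sub_div, abs_div, div_le_iff₀ h1α]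
    calc |Real.log (lam ^ α + β ^ α * ∑ i, x (y i) ^ α) - α * Real.log (tot lam β x y) - Real.log (num j)|
        = |(Real.log (lam ^ α + β ^ α * ∑ i, x (y i) ^ α) - Real.log (num j)) - α * Real.log (tot lam β x y)| := by
          congr 1; ring
      _ ≤ |Real.log (lam ^ α + β ^ α * ∑ i, x (y i) ^ α) - Real.log (num j)| + |α * Real.log (tot lam β x y)| :=
          abs_sub _ _
      _ ≤ 2 * t + α * (2 * t) := by
          rw [abs_mul, abs_of_pos hα]
          exact add_le_add hlogZ (mul_le_mul_of_nonneg_left hlogtot hα.le)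
      _ = 2 * t * (1 + α) := by ring
      _ ≤ δ * |1 - α| := htδ
  -- separation of the centres
  have hsep' : ∀ j j', j < j' → 4 * δ < |cc j - cc j'| := by
    intro j j' hjj
    have h3 : num j ≤ 2 * (β ^ α * (m * A j)) := by
      have h4 : lam ^ α ≤ β ^ α * (m * A j) := by
        refine le_trans hlamα ?_
        rw [mul_assoc]
        apply mul_le_mul_of_nonneg_left _ hβα.le
        exact mul_le_mul_of_nonneg_left (huc j) hm0.le
      simp only [hnum]; linarith
    have h5 : ρ / 2 * num j ≤ num j' := by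
      have hρ0 : 0 < ρ := by
        have := Real.exp_pos (4 * δ * |1 - α|)
        linarith
      calc ρ / 2 * num j ≤ ρ / 2 * (2 * (β ^ α * (m * A j))) :=
            mul_le_mul_of_nonneg_left h3 (by linarith)
        _ = β ^ α * (m * (ρ * A j)) := by ring
        _ ≤ β ^ α * (m * A j') := by
            apply mul_le_mul_of_nonneg_left _ hβα.le
            exact mul_le_mul_of_nonneg_left (hsepA j j' hjj) hm0.le
        _ ≤ num j' := by simp only [hnum]; linarith
    have h6 : Real.exp (4 * δ * |1 - α|) * num j < num j' := by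
      refine lt_of_lt_of_le ?_ h5
      apply mul_lt_mul_of_pos_right _ (hnum0 j)
      linarith
    have h7 : 4 * δ * |1 - α| < Real.log (num j') - Real.log (num j) := by
      have h8 := Real.log_lt_log (mul_pos (Real.exp_pos _) (hnum0 j)) h6
      rw [Real.log_mul (Real.exp_pos _).ne' (hnum0 j).ne', Real.log_exp] at h8
      linarith
    simp only [hcc]
    rw [← sub_div, abs_div, lt_div_iff₀ h1α, abs_sub_comm (Real.log (num j)) (Real.log (num j'))]
    exact lt_of_lt_of_le h7 (le_abs_self _)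
  have hsep : ∀ j j', j ≠ j' → 4 * δ < |cc j - cc j'| := by
    intro j j' hne
    rcases lt_or_gt_of_ne hne with h3 | h3
    · exact hsep' j j' h3
    · rw [abs_sub_comm]; exact hsep' j' j h3
  -- apply the core inequality
  have hcore := core_ineq α δ ε hε.le f hf lam β hlam0 hβ.le x h hx hh0 J L u hu
    (fun j j' d hd => match_texp (u j) (u j') x L L (2 * L) (by omega) b (hmom j j') d hd)
    good cc hgood hsep ⟨0, hJ⟩
  -- bounds for the weights
  have hE : ∀ y : Fin m → ι, Real.exp (b * m) * Real.exp (-(b * ∑ i, x (y i)))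
      = Real.exp (1 - tot lam β x y) ^ n := by
    intro y
    rw [← Real.exp_add, ← Real.exp_nat_mul]
    congr 1
    rw [tot_eq, hlam, hbdef]; ring
  have htot0 : ∀ y : Fin m → ι, 0 ≤ tot lam β x y := fun y => tot_nonneg hlam0 hβ.le hx y
  have hup : ∀ y : Fin m → ι, Real.exp (b * m) * (tot lam β x y ^ n * ∏ i, h (y i)) ≤ (1 + η) ^ m := by
    intro y
    have h3 := prod_texp_le (m := m) L b hb0 x hx hbx y
    calc Real.exp (b * m) * (tot lam β x y ^ n * ∏ i, h (y i))
        ≤ Real.exp (b * m) * (tot lam β x y ^ n * ((1 + η) ^ m * Real.exp (-(b * ∑ i, x (y i))))) := by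
          apply mul_le_mul_of_nonneg_left _ (Real.exp_pos _).le
          exact mul_le_mul_of_nonneg_left h3 (pow_nonneg (htot0 y) n)
      _ = (1 + η) ^ m * ((tot lam β x y * Real.exp (1 - tot lam β x y)) ^ n) := by
          rw [mul_pow, ← hE y]; ring
      _ ≤ (1 + η) ^ m * 1 := by
          apply mul_le_mul_of_nonneg_left _ (by positivity)
          apply pow_le_one₀ (mul_nonneg (htot0 y) (Real.exp_pos _).le)
          exact mul_exp_one_sub_le _
      _ = _ := mul_one _
  have hlow : ∀ y : Fin m → ι, |tot lam β x y - 1| ≤ t →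
      (1 - η) ^ m * (1 - n * (tot lam β x y - 1) ^ 2) ≤ Real.exp (b * m) * (tot lam β x y ^ n * ∏ i, h (y i)) := by
    intro y hy
    have h3 := prod_texp_ge (m := m) L b hb0 x hx hbx y
    have hη1' : 0 ≤ (1 - η) ^ m := pow_nonneg (by linarith) m
    have hsq : (tot lam β x y - 1) ^ 2 ≤ 1 := by
      rw [← sq_abs]
      have : |tot lam β x y - 1| ≤ 1 := by linarith
      exact pow_le_one₀ (abs_nonneg _) this
    calc (1 - η) ^ m * (1 - n * (tot lam β x y - 1) ^ 2)
        ≤ (1 - η) ^ m * ((1 - (tot lam β x y - 1) ^ 2) ^ n) := by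
          apply mul_le_mul_of_nonneg_left _ hη1'
          have h4 := one_add_mul_le_pow (a := -(tot lam β x y - 1) ^ 2) (by linarith) n
          have h5 : 1 + -(tot lam β x y - 1) ^ 2 = 1 - (tot lam β x y - 1) ^ 2 := by ring
          rw [h5] at h4
          linarith
      _ ≤ (1 - η) ^ m * ((tot lam β x y * Real.exp (1 - tot lam β x y)) ^ n) := by
          apply mul_le_mul_of_nonneg_left _ hη1'
          exact pow_le_pow_left₀ (by linarith) (mul_exp_one_sub_ge _ (htot0 y)) n
      _ = Real.exp (b * m) * (tot lam β x y ^ n * ((1 - η) ^ m * Real.exp (-(b * ∑ i, x (y i))))) := by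
          rw [mul_pow, ← hE y]; ring
      _ ≤ _ := by
          apply mul_le_mul_of_nonneg_left _ (Real.exp_pos _).le
          exact mul_le_mul_of_nonneg_left h3 (pow_nonneg (htot0 y) n)
  have htail : ∀ (y : Fin m → ι) (i : Fin m), Real.exp (b * m) * (((n.choose (L + 1) : ℝ) * (β * x (y i)) ^ (L + 1)
          * tot lam β x y ^ (n - (L + 1))) * ∏ i, h (y i)) ≤ η * (1 + η) ^ m := by
    intro y i
    rcases lt_or_ge n (L + 1) with hnL | hnL
    · rw [Nat.choose_eq_zero_of_lt hnL]
      simp only [Nat.cast_zero, zero_mul, mul_zero]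
      positivity
    · have h3 := prod_texp_le (m := m) L b hb0 x hx hbx y
      have h4 : (n.choose (L + 1) : ℝ) * (β * x (y i)) ^ (L + 1) ≤ Real.exp (-(3 * ((L:ℝ) + 1))) := by
        have h5 : (n.choose (L + 1) : ℝ) ≤ (n:ℝ) ^ (L + 1) / ((L + 1).factorial : ℝ) :=
          Nat.choose_le_pow_div (L + 1) n
        calc (n.choose (L + 1) : ℝ) * (β * x (y i)) ^ (L + 1)
            ≤ ((n:ℝ) ^ (L + 1) / ((L + 1).factorial : ℝ)) * (β * x (y i)) ^ (L + 1) :=
              mul_le_mul_of_nonneg_right h5 (pow_nonneg (mul_nonneg hβ.le (hx _)) _)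
          _ = (b * x (y i)) ^ (L + 1) / ((L + 1).factorial : ℝ) := by
              rw [hbdef, mul_assoc (n:ℝ), mul_pow (n:ℝ)]; ring
          _ ≤ _ := pow_div_factorial_small L _ (mul_nonneg hb0 (hx _)) (hbx _)
      have h6 : tot lam β x y ^ (n - (L + 1)) * Real.exp (1 - tot lam β x y) ^ n ≤ Real.exp ((L:ℝ) + 1) := by
        have h7 : tot lam β x y ≤ Real.exp (tot lam β x y - 1) := by
          have := Real.add_one_le_exp (tot lam β x y - 1)
          linarith
        calc tot lam β x y ^ (n - (L + 1)) * Real.exp (1 - tot lam β x y) ^ n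
            ≤ Real.exp (tot lam β x y - 1) ^ (n - (L + 1)) * Real.exp (1 - tot lam β x y) ^ n := by
              apply mul_le_mul_of_nonneg_right _ (by positivity)
              exact pow_le_pow_left₀ (htot0 y) h7 _
          _ = Real.exp (((L:ℝ) + 1) * (1 - tot lam β x y)) := by
              rw [← Real.exp_nat_mul, ← Real.exp_nat_mul, ← Real.exp_add]
              congr 1
              rw [Nat.cast_sub hnL]
              push_cast
              ring
          _ ≤ Real.exp ((L:ℝ) + 1) := by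
              apply Real.exp_le_exp.mpr
              have h8 := htot0 y
              have h9 : (0:ℝ) ≤ (L:ℝ) + 1 := by positivity
              nlinarith
      calc Real.exp (b * m) * (((n.choose (L + 1) : ℝ) * (β * x (y i)) ^ (L + 1)
          * tot lam β x y ^ (n - (L + 1))) * ∏ i, h (y i))
          ≤ Real.exp (b * m) * (((n.choose (L + 1) : ℝ) * (β * x (y i)) ^ (L + 1)
          * tot lam β x y ^ (n - (L + 1))) * ((1 + η) ^ m * Real.exp (-(b * ∑ i, x (y i))))) := by
            apply mul_le_mul_of_nonneg_left _ (Real.exp_pos _).le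
            apply mul_le_mul_of_nonneg_left h3
            apply mul_nonneg _ (pow_nonneg (htot0 y) _)
            exact mul_nonneg (Nat.cast_nonneg _) (pow_nonneg (mul_nonneg hβ.le (hx _)) _)
        _ = (1 + η) ^ m * (((n.choose (L + 1) : ℝ) * (β * x (y i)) ^ (L + 1)) *
            (tot lam β x y ^ (n - (L + 1)) * Real.exp (1 - tot lam β x y) ^ n)) := by
            rw [← hE y]; ring
        _ ≤ (1 + η) ^ m * (Real.exp (-(3 * ((L:ℝ) + 1))) * Real.exp ((L:ℝ) + 1)) := by
            apply mul_le_mul_of_nonneg_left _ (by positivity)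
            apply mul_le_mul h4 h6 _ (Real.exp_pos _).le
            exact mul_nonneg (pow_nonneg (htot0 y) _) (by positivity)
        _ = η * (1 + η) ^ m := by
            rw [← Real.exp_add, hη, mul_comm]
            congr 2
            ring
  -- second moments
  have hvar1 : ∀ j, ∑ y : Fin m → ι, prior (u j) y * (tot lam β x y - 1) ^ 2 ≤ β ^ 2 * m * C := by
    intro j
    have h3 : ∑ a, u j a * (x a - 1) = 0 := by
      simp_rw [mul_sub, mul_one]
      rw [Finset.sum_sub_distrib, hux, hu1]; ring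
    have h4 := second_moment (m := m) (u j) (fun a => x a - 1) (hu1 j) h3
    have h5 : ∀ y : Fin m → ι, prior (u j) y * (tot lam β x y - 1) ^ 2
        = β ^ 2 * (prior (u j) y * (∑ i, (x (y i) - 1)) ^ 2) := by
      intro y
      have : tot lam β x y - 1 = β * ∑ i, (x (y i) - 1) := by
        rw [tot_eq, Finset.sum_sub_distrib, hlam]; simp; ring
      rw [this]; ring
    rw [Finset.sum_congr rfl (fun y _ => h5 y), ← Finset.mul_sum, h4, mul_assoc]
    apply mul_le_mul_of_nonneg_left _ (by positivity)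
    apply mul_le_mul_of_nonneg_left _ hm0.le
    have h6 : ∑ a, u j a * (x a - 1) ^ 2 = ∑ a, u j a * x a ^ 2 - 2 * ∑ a, u j a * x a + ∑ a, u j a := by
      rw [Finset.mul_sum, ← Finset.sum_sub_distrib, ← Finset.sum_add_distrib]
      apply Finset.sum_congr rfl
      intro a _; ring
    rw [h6, hux, hu1]
    linarith [hu2 j]
  have hvar2 : ∀ j, ∑ y : Fin m → ι, prior (u j) y * (∑ i, (x (y i) ^ α - A j)) ^ 2 ≤ m * M ^ (2 * α) := by
    intro j
    have h3 : ∑ a, u j a * (x a ^ α - A j) = 0 := by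
      simp_rw [mul_sub]
      rw [Finset.sum_sub_distrib, ← Finset.sum_mul, hu1]; simp [hA]
    rw [second_moment (m := m) (u j) (fun a => x a ^ α - A j) (hu1 j) h3]
    apply mul_le_mul_of_nonneg_left _ hm0.le
    have h6 : ∑ a, u j a * (x a ^ α - A j) ^ 2 = ∑ a, u j a * (x a ^ α) ^ 2 - A j ^ 2 := by
      have gen : ∀ K : ℝ, ∑ a, u j a * (x a ^ α - K) ^ 2 = ∑ a, u j a * (x a ^ α) ^ 2 - 2 * K * ∑ a, u j a * x a ^ α + K ^ 2 * ∑ a, u j a := by
        intro K
        rw [Finset.mul_sum, Finset.mul_sum, ← Finset.sum_sub_distrib, ← Finset.sum_add_distrib]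
        apply Finset.sum_congr rfl
        intro a _; ring
      rw [gen (A j), hu1]
      simp only [hA]; ring
    rw [h6]
    have h7 : ∑ a, u j a * (x a ^ α) ^ 2 ≤ M ^ (2 * α) := by
      calc ∑ a, u j a * (x a ^ α) ^ 2 ≤ ∑ a, u j a * M ^ (2 * α) := by
            apply Finset.sum_le_sum
            intro a _
            apply mul_le_mul_of_nonneg_left _ (hu j a)
            rw [← Real.rpow_natCast, ← Real.rpow_mul (hx a)]
            have : α * ((2:ℕ):ℝ) = 2 * α := by push_cast; ring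
            rw [this]
            exact Real.rpow_le_rpow (hx a) (hxM a) (by positivity)
        _ = M ^ (2 * α) := by rw [← Finset.sum_mul, hu1, one_mul]
    nlinarith [sq_nonneg (A j)]
  -- the prior mass of good configurations
  have hmass : ∀ j, 1 - β ^ 2 * m * C / t ^ 2 - M ^ (2 * α) / (m * t ^ 2 * c ^ 2) ≤ ∑ y ∈ good j, prior (u j) y := by
    intro j
    have h3 := Finset.sum_filter_add_sum_filter_not (univ : Finset (Fin m → ι))
      (fun y => |tot lam β x y - 1| ≤ t ∧ |∑ i, (x (y i) ^ α - A j)| ≤ m * t * A j) (fun y => prior (u j) y)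
    rw [sum_prior (u j) (hu1 j)] at h3
    have h4 : ∑ y : Fin m → ι with ¬ (|tot lam β x y - 1| ≤ t ∧ |∑ i, (x (y i) ^ α - A j)| ≤ m * t * A j), prior (u j) y
        ≤ ∑ y : Fin m → ι with ¬ |tot lam β x y - 1| ≤ t, prior (u j) y
          + ∑ y : Fin m → ι with ¬ |∑ i, (x (y i) ^ α - A j)| ≤ m * t * A j, prior (u j) y := by
      rw [← Finset.sum_union_inter (s₁ := univ.filter (fun y : Fin m → ι => ¬ |tot lam β x y - 1| ≤ t))]
      have h5 : (univ.filter (fun y : Fin m → ι => ¬ (|tot lam β x y - 1| ≤ t ∧ |∑ i, (x (y i) ^ α - A j)| ≤ m * t * A j)))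
          ⊆ (univ.filter (fun y : Fin m → ι => ¬ |tot lam β x y - 1| ≤ t)) ∪ (univ.filter (fun y : Fin m → ι => ¬ |∑ i, (x (y i) ^ α - A j)| ≤ m * t * A j)) := by
        intro y hy
        simp only [mem_filter, mem_univ, true_and, mem_union] at hy ⊢
        tauto
      have h6 := Finset.sum_le_sum_of_subset_of_nonneg h5 (f := fun y => prior (u j) y) (fun y _ _ => prior_nonneg (hu j) y)
      have h7 : 0 ≤ ∑ y ∈ (univ.filter (fun y : Fin m → ι => ¬ |tot lam β x y - 1| ≤ t)) ∩ (univ.filter (fun y : Fin m → ι => ¬ |∑ i, (x (y i) ^ α - A j)| ≤ m * t * A j)), prior (u j) y :=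
        Finset.sum_nonneg (fun y _ => prior_nonneg (hu j) y)
      linarith
    have h5 : ∑ y : Fin m → ι with ¬ |tot lam β x y - 1| ≤ t, prior (u j) y ≤ β ^ 2 * m * C / t ^ 2 := by
      refine le_trans (cheb (fun y => prior (u j) y) (fun y : Fin m → ι => tot lam β x y - 1) (fun y => prior_nonneg (hu j) y) t ht) ?_
      exact div_le_div_of_nonneg_right (hvar1 j) (by positivity)
    have h6 : ∑ y : Fin m → ι with ¬ |∑ i, (x (y i) ^ α - A j)| ≤ m * t * A j, prior (u j) y ≤ M ^ (2 * α) / (m * t ^ 2 * c ^ 2) := by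
      have hmt : 0 < m * t * A j := by have := hA0 j; positivity
      refine le_trans (cheb (fun y => prior (u j) y) (fun y : Fin m → ι => ∑ i, (x (y i) ^ α - A j)) (fun y => prior_nonneg (hu j) y) (m * t * A j) hmt) ?_
      calc (∑ y : Fin m → ι, prior (u j) y * (∑ i, (x (y i) ^ α - A j)) ^ 2) / (m * t * A j) ^ 2
          ≤ (m * M ^ (2 * α)) / (m * t * A j) ^ 2 := div_le_div_of_nonneg_right (hvar2 j) (by positivity)
        _ ≤ (m * M ^ (2 * α)) / (m * t * c) ^ 2 := by
            apply div_le_div_of_nonneg_left (by positivity) (by positivity)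
            apply pow_le_pow_left₀ (by positivity)
            exact mul_le_mul_of_nonneg_left (huc j) (by positivity)
        _ = M ^ (2 * α) / (m * t ^ 2 * c ^ 2) := by
            field_simp
    have h7 : ∑ y ∈ good j, prior (u j) y = ∑ y : Fin m → ι with (|tot lam β x y - 1| ≤ t ∧ |∑ i, (x (y i) ^ α - A j)| ≤ m * t * A j), prior (u j) y := rfl
    rw [h7]
    linarith
  -- per-hypothesis lower bound
  have hper : ∀ j, (1 - η) ^ m * (1 - n * (β ^ 2 * m * C) - β ^ 2 * m * C / t ^ 2 - M ^ (2 * α) / (m * t ^ 2 * c ^ 2))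
      ≤ Real.exp (b * m) * ∑ y ∈ good j, prior (u j) y * (tot lam β x y ^ n * ∏ i, h (y i)) := by
    intro j
    have hη1' : 0 ≤ (1 - η) ^ m := pow_nonneg (by linarith) m
    calc (1 - η) ^ m * (1 - n * (β ^ 2 * m * C) - β ^ 2 * m * C / t ^ 2 - M ^ (2 * α) / (m * t ^ 2 * c ^ 2))
        ≤ (1 - η) ^ m * (∑ y ∈ good j, prior (u j) y - n * ∑ y : Fin m → ι, prior (u j) y * (tot lam β x y - 1) ^ 2) := by
          apply mul_le_mul_of_nonneg_left _ hη1'
          have h3 := mul_le_mul_of_nonneg_left (hvar1 j) hn0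
          linarith [hmass j]
      _ ≤ (1 - η) ^ m * (∑ y ∈ good j, prior (u j) y - n * ∑ y ∈ good j, prior (u j) y * (tot lam β x y - 1) ^ 2) := by
          apply mul_le_mul_of_nonneg_left _ hη1'
          have h3 : ∑ y ∈ good j, prior (u j) y * (tot lam β x y - 1) ^ 2 ≤ ∑ y : Fin m → ι, prior (u j) y * (tot lam β x y - 1) ^ 2 :=
            Finset.sum_le_sum_of_subset_of_nonneg (subset_univ _)
              (fun y _ _ => mul_nonneg (prior_nonneg (hu j) y) (sq_nonneg _))
          have h4 := mul_le_mul_of_nonneg_left h3 hn0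
          linarith
      _ = ∑ y ∈ good j, prior (u j) y * ((1 - η) ^ m * (1 - n * (tot lam β x y - 1) ^ 2)) := by
          rw [Finset.mul_sum, ← Finset.sum_sub_distrib, Finset.mul_sum]
          apply Finset.sum_congr rfl
          intro y _; ring
      _ ≤ ∑ y ∈ good j, prior (u j) y * (Real.exp (b * m) * (tot lam β x y ^ n * ∏ i, h (y i))) := by
          apply Finset.sum_le_sum
          intro y hy
          apply mul_le_mul_of_nonneg_left _ (prior_nonneg (hu j) y)
          apply hlow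
          simp only [hgooddef, mem_filter, mem_univ, true_and] at hy
          exact hy.1
      _ = _ := by
          rw [Finset.mul_sum]
          apply Finset.sum_congr rfl
          intro y _; ring
  have htailsum : ∀ j, Real.exp (b * m) * ∑ i : Fin m, ∑ y : Fin m → ι, prior (u j) y * (((n.choose (L + 1) : ℝ) * (β * x (y i)) ^ (L + 1)
          * tot lam β x y ^ (n - (L + 1))) * ∏ i, h (y i)) ≤ m * η * (1 + η) ^ m := by
    intro j
    rw [Finset.mul_sum]
    calc _ ≤ ∑ i : Fin m, η * (1 + η) ^ m := by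
          apply Finset.sum_le_sum
          intro i _
          rw [Finset.mul_sum]
          calc _ ≤ ∑ y : Fin m → ι, prior (u j) y * (η * (1 + η) ^ m) := by
                apply Finset.sum_le_sum
                intro y _
                have h3 := mul_le_mul_of_nonneg_left (htail y i) (prior_nonneg (hu j) y)
                calc _ = prior (u j) y * (Real.exp (b * m) * (((n.choose (L + 1) : ℝ) * (β * x (y i)) ^ (L + 1)
          * tot lam β x y ^ (n - (L + 1))) * ∏ i, h (y i))) := by ring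
                  _ ≤ _ := h3
            _ = _ := by rw [← Finset.sum_mul, sum_prior (u j) (hu1 j), one_mul]
      _ = _ := by rw [Finset.sum_const, card_univ, Fintype.card_fin, nsmul_eq_mul]; ring
  have hrhs : Real.exp (b * m) * ∑ y : Fin m → ι, prior (u ⟨0, hJ⟩) y * (tot lam β x y ^ n * ∏ i, h (y i)) ≤ (1 + η) ^ m := by
    rw [Finset.mul_sum]
    calc _ ≤ ∑ y : Fin m → ι, prior (u ⟨0, hJ⟩) y * (1 + η) ^ m := by
          apply Finset.sum_le_sum
          intro y _
          have h3 := mul_le_mul_of_nonneg_left (hup y) (prior_nonneg (hu ⟨0, hJ⟩) y)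
          calc _ = prior (u ⟨0, hJ⟩) y * (Real.exp (b * m) * (tot lam β x y ^ n * ∏ i, h (y i))) := by ring
            _ ≤ _ := h3
      _ = _ := by rw [← Finset.sum_mul, sum_prior _ (hu1 _), one_mul]
  calc (J:ℝ) * ((1 - ε) * ((1 - η) ^ m *
        (1 - n * (β ^ 2 * m * C) - β ^ 2 * m * C / t ^ 2 - M ^ (2 * α) / (m * t ^ 2 * c ^ 2)))
        - m * η * (1 + η) ^ m)
      = ∑ j : Fin J, ((1 - ε) * ((1 - η) ^ m *
        (1 - n * (β ^ 2 * m * C) - β ^ 2 * m * C / t ^ 2 - M ^ (2 * α) / (m * t ^ 2 * c ^ 2)))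
        - m * η * (1 + η) ^ m) := by
        rw [Finset.sum_const, card_univ, Fintype.card_fin, nsmul_eq_mul]
    _ ≤ ∑ j : Fin J, Real.exp (b * m) * ((1 - ε) * ∑ y ∈ good j, prior (u j) y * (tot lam β x y ^ n * ∏ i, h (y i))
      - ∑ i : Fin m, ∑ y : Fin m → ι, prior (u j) y * (((n.choose (L + 1) : ℝ) * (β * x (y i)) ^ (L + 1)
          * tot lam β x y ^ (n - (L + 1))) * ∏ i, h (y i))) := by
        apply Finset.sum_le_sum
        intro j _
        have h3 := mul_le_mul_of_nonneg_left (hper j) (by linarith : (0:ℝ) ≤ 1 - ε)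
        have h4 := htailsum j
        generalize hX : (∑ y ∈ good j, prior (u j) y * (tot lam β x y ^ n * ∏ i, h (y i))) = X at h3 ⊢
        generalize hY : (∑ i : Fin m, ∑ y : Fin m → ι, prior (u j) y * (((n.choose (L + 1) : ℝ) * (β * x (y i)) ^ (L + 1)
          * tot lam β x y ^ (n - (L + 1))) * ∏ i, h (y i))) = Y at h4 ⊢
        have h5 : Real.exp (b * m) * ((1 - ε) * X - Y) = (1 - ε) * (Real.exp (b * m) * X) - Real.exp (b * m) * Y := by
          ring
        rw [h5]
        linarith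
    _ = Real.exp (b * m) * ∑ j : Fin J, ((1 - ε) * ∑ y ∈ good j, prior (u j) y * (tot lam β x y ^ n * ∏ i, h (y i))
      - ∑ i : Fin m, ∑ y : Fin m → ι, prior (u j) y * (((n.choose (L + 1) : ℝ) * (β * x (y i)) ^ (L + 1)
          * tot lam β x y ^ (n - (L + 1))) * ∏ i, h (y i))) := by rw [← Finset.mul_sum]
    _ ≤ Real.exp (b * m) * ∑ y : Fin m → ι, prior (u ⟨0, hJ⟩) y * (tot lam β x y ^ n * ∏ i, h (y i)) :=
        mul_le_mul_of_nonneg_left hcore (Real.exp_pos _).le
    _ ≤ _ := hrhs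

end Pool.Agent.Helper82_Renyi
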