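import Mathlib

set_option linter.unusedSectionVars false

open Finset

namespace Pool.Agent.Helper82_Renyi

section multi
variable {Ω : Type} [Fintype Ω] [DecidableEq Ω] {n : ℕ}

/-- number of occurrences -/
def num (s : Fin n → Ω) (x : Ω) : ℕ := (univ.filter (fun t => s t = x)).card

/-- iid weight -/
noncomputable def pr (p : Ω → ℝ) (s : Fin n → Ω) : ℝ := ∏ t, p (s t)

theorem num_le (s : Fin n → Ω) (x : Ω) : num s x ≤ n := by
  unfold num
  refine le_trans (Finset.card_le_univ _) ?_
  simp

theorem pr_nonneg {p : Ω → ℝ} (hp : ∀ x, 0 ≤ p x) (s : Fin n → Ω) : 0 ≤ pr p s :=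
  Finset.prod_nonneg (fun _ _ => hp _)

theorem sum_prod_fun' {κ ι : Type} [Fintype ι] [Fintype κ] [DecidableEq κ] (g : κ → ι → ℝ) :
    ∑ y : κ → ι, ∏ i, g i (y i) = ∏ i, ∑ a, g i a := by
  classical
  rw [Finset.prod_univ_sum]
  simp

theorem sum_pr {p : Ω → ℝ} (hp : ∑ x, p x = 1) : ∑ s : Fin n → Ω, pr p s = 1 := by
  unfold pr
  rw [sum_prod_fun' (fun (_ : Fin n) x => p x)]
  simp [hp]

/-- exponential moments of counts -/
theorem mgf_num {p : Ω → ℝ} (hp : ∑ x, p x = 1) (x : Ω) (θ : ℝ) :
    ∑ s : Fin n → Ω, pr p s * Real.exp (θ * num s x) = (1 + p x * (Real.exp θ - 1)) ^ n := by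
  have h1 : ∀ s : Fin n → Ω, pr p s * Real.exp (θ * num s x)
      = ∏ t, (p (s t) * (if s t = x then Real.exp θ else 1)) := by
    intro s
    rw [Finset.prod_mul_distrib, pr]
    congr 1
    rw [Finset.prod_ite]
    simp only [Finset.prod_const, one_pow, mul_one]
    rw [← Real.exp_nat_mul, num, mul_comm]
  rw [Finset.sum_congr rfl (fun s _ => h1 s)]
  rw [sum_prod_fun' (fun (_ : Fin n) y => p y * (if y = x then Real.exp θ else 1))]
  rw [Finset.prod_const, card_univ, Fintype.card_fin]
  congr 1
  have h2 : ∀ y, p y * (if y = x then Real.exp θ else 1) = p y + (if y = x then p y * (Real.exp θ - 1) else 0) := by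
    intro y
    split_ifs <;> ring
  rw [Finset.sum_congr rfl (fun y _ => h2 y), Finset.sum_add_distrib, hp]
  simp

theorem mgf_num_le {p : Ω → ℝ} (hp0 : ∀ x, 0 ≤ p x) (hp : ∑ x, p x = 1) (x : Ω) (θ : ℝ) :
    ∑ s : Fin n → Ω, pr p s * Real.exp (θ * num s x) ≤ Real.exp (n * p x * (Real.exp θ - 1)) := by
  rw [mgf_num hp x θ]
  have hpx1 : p x ≤ 1 := by
    rw [← hp]; exact Finset.single_le_sum (fun y _ => hp0 y) (mem_univ x)
  calc (1 + p x * (Real.exp θ - 1)) ^ n ≤ (Real.exp (p x * (Real.exp θ - 1))) ^ n := by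
        apply pow_le_pow_left₀
        · have h3 := Real.exp_pos θ
          have h4 := hp0 x
          nlinarith
        · have := Real.add_one_le_exp (p x * (Real.exp θ - 1))
          linarith
    _ = _ := by rw [← Real.exp_nat_mul]; congr 1; ring

/-- Chernoff, upper tail -/
theorem upper_tail {p : Ω → ℝ} (hp0 : ∀ x, 0 ≤ p x) (hp : ∑ x, p x = 1) (x : Ω) (θ a : ℝ) (hθ : 0 ≤ θ) :
    ∑ s : Fin n → Ω with a ≤ num s x, pr p s ≤ Real.exp (n * p x * (Real.exp θ - 1) - θ * a) := by
  calc ∑ s : Fin n → Ω with a ≤ num s x, pr p s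
      ≤ ∑ s : Fin n → Ω with a ≤ num s x, pr p s * (Real.exp (θ * num s x) * Real.exp (-(θ * a))) := by
        apply Finset.sum_le_sum
        intro s hs
        simp only [mem_filter, mem_univ, true_and] at hs
        have h1 : 1 ≤ Real.exp (θ * num s x) * Real.exp (-(θ * a)) := by
          rw [← Real.exp_add, Real.one_le_exp_iff]
          nlinarith
        calc pr p s = pr p s * 1 := by ring
          _ ≤ _ := mul_le_mul_of_nonneg_left h1 (pr_nonneg hp0 s)
    _ ≤ ∑ s : Fin n → Ω, pr p s * (Real.exp (θ * num s x) * Real.exp (-(θ * a))) := by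
        apply Finset.sum_le_sum_of_subset_of_nonneg (filter_subset _ _)
        intro s _ _
        exact mul_nonneg (pr_nonneg hp0 s) (by positivity)
    _ = (∑ s : Fin n → Ω, pr p s * Real.exp (θ * num s x)) * Real.exp (-(θ * a)) := by
        rw [Finset.sum_mul]
        apply Finset.sum_congr rfl
        intro s _; ring
    _ ≤ Real.exp (n * p x * (Real.exp θ - 1)) * Real.exp (-(θ * a)) :=
        mul_le_mul_of_nonneg_right (mgf_num_le hp0 hp x θ) (Real.exp_pos _).le
    _ = _ := by rw [← Real.exp_add]; congr 1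

/-- Chernoff, lower tail -/
theorem lower_tail {p : Ω → ℝ} (hp0 : ∀ x, 0 ≤ p x) (hp : ∑ x, p x = 1) (x : Ω) (θ a : ℝ) (hθ : 0 ≤ θ) :
    ∑ s : Fin n → Ω with (num s x : ℝ) ≤ a, pr p s ≤ Real.exp (n * p x * (Real.exp (-θ) - 1) + θ * a) := by
  calc ∑ s : Fin n → Ω with (num s x : ℝ) ≤ a, pr p s
      ≤ ∑ s : Fin n → Ω with (num s x : ℝ) ≤ a, pr p s * (Real.exp (-θ * num s x) * Real.exp (θ * a)) := by
        apply Finset.sum_le_sum
        intro s hs
        simp only [mem_filter, mem_univ, true_and] at hs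
        have h1 : 1 ≤ Real.exp (-θ * num s x) * Real.exp (θ * a) := by
          rw [← Real.exp_add, Real.one_le_exp_iff]
          nlinarith
        calc pr p s = pr p s * 1 := by ring
          _ ≤ _ := mul_le_mul_of_nonneg_left h1 (pr_nonneg hp0 s)
    _ ≤ ∑ s : Fin n → Ω, pr p s * (Real.exp (-θ * num s x) * Real.exp (θ * a)) := by
        apply Finset.sum_le_sum_of_subset_of_nonneg (filter_subset _ _)
        intro s _ _
        exact mul_nonneg (pr_nonneg hp0 s) (by positivity)
    _ = (∑ s : Fin n → Ω, pr p s * Real.exp (-θ * num s x)) * Real.exp (θ * a) := by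
        rw [Finset.sum_mul]
        apply Finset.sum_congr rfl
        intro s _; ring
    _ ≤ Real.exp (n * p x * (Real.exp (-θ) - 1)) * Real.exp (θ * a) :=
        mul_le_mul_of_nonneg_right (mgf_num_le hp0 hp x (-θ)) (Real.exp_pos _).le
    _ = _ := by rw [← Real.exp_add]

theorem exp_sub_one_le (u : ℝ) (hu : |u| ≤ 1) : Real.exp u - 1 ≤ u + u ^ 2 := by
  have h := Real.abs_exp_sub_one_sub_id_le hu
  have := (abs_le.mp h).2
  linarith

/-- relative deviation bound -/
theorem rel_dev {p : Ω → ℝ} (hp0 : ∀ x, 0 ≤ p x) (hp : ∑ x, p x = 1) (x : Ω) (v : ℝ) (hv : 0 < v)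
    (hv1 : v ≤ 1) :
    ∑ s : Fin n → Ω with ¬ |(num s x : ℝ) - n * p x| ≤ v * (n * p x), pr p s
      ≤ 2 * Real.exp (-(n * p x * v ^ 2 / 4)) := by
  have hnp : 0 ≤ (n:ℝ) * p x := mul_nonneg (Nat.cast_nonneg n) (hp0 x)
  have h1 : (univ.filter (fun s : Fin n → Ω => ¬ |(num s x : ℝ) - n * p x| ≤ v * (n * p x)))
      ⊆ (univ.filter (fun s : Fin n → Ω => (1 + v) * (n * p x) ≤ num s x))
        ∪ (univ.filter (fun s : Fin n → Ω => (num s x : ℝ) ≤ (1 - v) * (n * p x))) := by
    intro s hs
    simp only [mem_filter, mem_univ, true_and, mem_union, not_le] at hs ⊢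
    rcases lt_abs.mp hs with h | h
    · left; linarith
    · right; linarith
  have h2 := upper_tail (n := n) hp0 hp x (v / 2) ((1 + v) * (n * p x)) (by linarith)
  have h3 := lower_tail (n := n) hp0 hp x (v / 2) ((1 - v) * (n * p x)) (by linarith)
  have h4 : Real.exp (n * p x * (Real.exp (v / 2) - 1) - v / 2 * ((1 + v) * (n * p x))) ≤ Real.exp (-(n * p x * v ^ 2 / 4)) := by
    apply Real.exp_le_exp.mpr
    have h5 := exp_sub_one_le (v / 2) (by rw [abs_of_pos (by linarith)]; linarith)
    have h6 := mul_le_mul_of_nonneg_left h5 hnp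
    nlinarith
  have h5 : Real.exp (n * p x * (Real.exp (-(v / 2)) - 1) + v / 2 * ((1 - v) * (n * p x))) ≤ Real.exp (-(n * p x * v ^ 2 / 4)) := by
    apply Real.exp_le_exp.mpr
    have h5 := exp_sub_one_le (-(v / 2)) (by rw [abs_neg, abs_of_pos (by linarith)]; linarith)
    have h6 := mul_le_mul_of_nonneg_left h5 hnp
    nlinarith
  calc _ ≤ ∑ s ∈ (univ.filter (fun s : Fin n → Ω => (1 + v) * (n * p x) ≤ num s x))
        ∪ (univ.filter (fun s : Fin n → Ω => (num s x : ℝ) ≤ (1 - v) * (n * p x))), pr p s :=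
        Finset.sum_le_sum_of_subset_of_nonneg h1 (fun s _ _ => pr_nonneg hp0 s)
    _ ≤ ∑ s ∈ (univ.filter (fun s : Fin n → Ω => (1 + v) * (n * p x) ≤ num s x)), pr p s
        + ∑ s ∈ (univ.filter (fun s : Fin n → Ω => (num s x : ℝ) ≤ (1 - v) * (n * p x))), pr p s := by
        rw [← Finset.sum_union_inter]
        have : 0 ≤ ∑ s ∈ (univ.filter (fun s : Fin n → Ω => (1 + v) * (n * p x) ≤ num s x))
          ∩ (univ.filter (fun s : Fin n → Ω => (num s x : ℝ) ≤ (1 - v) * (n * p x))), pr p s :=
          Finset.sum_nonneg (fun s _ => pr_nonneg hp0 s)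
        linarith
    _ ≤ _ := by linarith

/-- binomial coefficient of a count as a sum over subsets -/
theorem choose_num (s : Fin n → Ω) (x : Ω) (j : ℕ) :
    ((num s x).choose j : ℝ) = ∑ T ∈ powersetCard j (univ : Finset (Fin n)), ∏ t ∈ T, (if s t = x then (1:ℝ) else 0) := by
  have h1 : ∀ T : Finset (Fin n), ∏ t ∈ T, (if s t = x then (1:ℝ) else 0) = if (∀ t ∈ T, s t = x) then 1 else 0 := by
    intro T
    rw [Finset.prod_ite_zero]
    simp
  simp only [h1]
  rw [← Finset.sum_filter, Finset.sum_const, nsmul_eq_mul, mul_one, num, ← Finset.card_powersetCard]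
  congr 2
  ext T
  simp only [mem_powersetCard, mem_filter, subset_univ, true_and]
  constructor
  · rintro ⟨h2, h3⟩
    exact ⟨h3, fun t ht => by simpa using h2 ht⟩
  · rintro ⟨h2, h3⟩
    exact ⟨fun t ht => by simpa using h3 t ht, h2⟩

theorem ite_prod_eq (T : Finset (Fin n)) (f : Fin n → ℝ) : ∏ t ∈ T, f t = ∏ t, (if t ∈ T then f t else 1) := by
  rw [Finset.prod_ite_mem, univ_inter]

/-- first factorial moments -/
theorem moment_one {p : Ω → ℝ} (hp : ∑ x, p x = 1) (x : Ω) (j : ℕ) :
    ∑ s : Fin n → Ω, pr p s * ((num s x).choose j : ℝ) = (n.choose j : ℝ) * p x ^ j := by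
  have h1 : ∀ s : Fin n → Ω, pr p s * ((num s x).choose j : ℝ)
      = ∑ T ∈ powersetCard j (univ : Finset (Fin n)), ∏ t, (p (s t) * (if t ∈ T then (if s t = x then (1:ℝ) else 0) else 1)) := by
    intro s
    rw [choose_num, Finset.mul_sum]
    apply Finset.sum_congr rfl
    intro T _
    rw [Finset.prod_mul_distrib, pr, ite_prod_eq T]
  rw [Finset.sum_congr rfl (fun s _ => h1 s), Finset.sum_comm]
  have h2 : ∀ T ∈ powersetCard j (univ : Finset (Fin n)),
      ∑ s : Fin n → Ω, ∏ t, (p (s t) * (if t ∈ T then (if s t = x then (1:ℝ) else 0) else 1)) = p x ^ j := by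
    intro T hT
    rw [sum_prod_fun' (fun (t : Fin n) y => p y * (if t ∈ T then (if y = x then (1:ℝ) else 0) else 1))]
    have h3 : ∀ t : Fin n, ∑ y, p y * (if t ∈ T then (if y = x then (1:ℝ) else 0) else 1) = if t ∈ T then p x else 1 := by
      intro t
      by_cases ht : t ∈ T
      · simp [ht]
      · simp [ht, hp]
    rw [Finset.prod_congr rfl (fun t _ => h3 t), Finset.prod_ite_mem, univ_inter, Finset.prod_const,
      (mem_powersetCard.mp hT).2]
  rw [Finset.sum_congr rfl h2, Finset.sum_const, card_powersetCard, card_univ, Fintype.card_fin, nsmul_eq_mul]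

/-- mixed factorial moments of two different symbols -/
theorem moment_two {p : Ω → ℝ} (hp : ∑ x, p x = 1) (x y : Ω) (hxy : x ≠ y) (j l : ℕ) :
    ∑ s : Fin n → Ω, pr p s * (((num s x).choose j : ℝ) * ((num s y).choose l : ℝ))
      = (n.choose j : ℝ) * ((n - j).choose l : ℝ) * (p x ^ j * p y ^ l) := by
  have h1 : ∀ s : Fin n → Ω, pr p s * (((num s x).choose j : ℝ) * ((num s y).choose l : ℝ))
      = ∑ T ∈ powersetCard j (univ : Finset (Fin n)), ∑ T' ∈ powersetCard l (univ : Finset (Fin n)),
        ∏ t, (p (s t) * (if t ∈ T then (if s t = x then (1:ℝ) else 0) else 1)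
          * (if t ∈ T' then (if s t = y then (1:ℝ) else 0) else 1)) := by
    intro s
    rw [choose_num, choose_num, Finset.sum_mul_sum, Finset.mul_sum]
    apply Finset.sum_congr rfl
    intro T _
    rw [Finset.mul_sum]
    apply Finset.sum_congr rfl
    intro T' _
    rw [Finset.prod_mul_distrib, Finset.prod_mul_distrib, pr, ite_prod_eq T, ite_prod_eq T']
    ring
  rw [Finset.sum_congr rfl (fun s _ => h1 s), Finset.sum_comm]
  have h2 : ∀ T ∈ powersetCard j (univ : Finset (Fin n)),
      ∑ s : Fin n → Ω, ∑ T' ∈ powersetCard l (univ : Finset (Fin n)),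
        ∏ t, (p (s t) * (if t ∈ T then (if s t = x then (1:ℝ) else 0) else 1)
          * (if t ∈ T' then (if s t = y then (1:ℝ) else 0) else 1))
      = ((n - j).choose l : ℝ) * (p x ^ j * p y ^ l) := by
    intro T hT
    rw [Finset.sum_comm]
    have hTc := (mem_powersetCard.mp hT).2
    have h3 : ∀ T' ∈ powersetCard l (univ : Finset (Fin n)),
        ∑ s : Fin n → Ω, ∏ t, (p (s t) * (if t ∈ T then (if s t = x then (1:ℝ) else 0) else 1)
          * (if t ∈ T' then (if s t = y then (1:ℝ) else 0) else 1))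
        = if T' ⊆ Tᶜ then p x ^ j * p y ^ l else 0 := by
      intro T' hT'
      have hTc' := (mem_powersetCard.mp hT').2
      rw [sum_prod_fun' (fun (t : Fin n) z => p z * (if t ∈ T then (if z = x then (1:ℝ) else 0) else 1)
          * (if t ∈ T' then (if z = y then (1:ℝ) else 0) else 1))]
      split_ifs with hsub
      · have h4 : ∀ t : Fin n, ∑ z, p z * (if t ∈ T then (if z = x then (1:ℝ) else 0) else 1)
          * (if t ∈ T' then (if z = y then (1:ℝ) else 0) else 1)
            = (if t ∈ T then p x else 1) * (if t ∈ T' then p y else 1) := by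
          intro t
          by_cases ht : t ∈ T
          · have ht' : t ∉ T' := fun h => by
              have := hsub h
              simp at this
              exact this ht
            simp [ht, ht']
          · by_cases ht' : t ∈ T'
            · simp [ht, ht']
            · simp [ht, ht', hp]
        rw [Finset.prod_congr rfl (fun t _ => h4 t), Finset.prod_mul_distrib, Finset.prod_ite_mem,
          Finset.prod_ite_mem, univ_inter, univ_inter, Finset.prod_const, Finset.prod_const, hTc, hTc']
      · rw [Finset.not_subset] at hsub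
        obtain ⟨t, ht', ht⟩ := hsub
        rw [mem_compl, not_not] at ht
        apply Finset.prod_eq_zero (mem_univ t)
        apply Finset.sum_eq_zero
        intro z _
        simp only [ht, ht', if_true]
        by_cases hzx : z = x
        · have : z ≠ y := fun h => hxy (hzx ▸ h)
          simp [this]
        · simp [hzx]
    rw [Finset.sum_congr rfl h3, ← Finset.sum_filter, Finset.sum_const, nsmul_eq_mul]
    congr 1
    have h5 : (powersetCard l (univ : Finset (Fin n))).filter (fun T' => T' ⊆ Tᶜ) = powersetCard l Tᶜ := by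
      ext T'
      simp only [mem_filter, mem_powersetCard, subset_univ, true_and]
      tauto
    rw [h5, card_powersetCard, card_compl, hTc, Fintype.card_fin]
  rw [Finset.sum_congr rfl h2, Finset.sum_const, card_powersetCard, card_univ, Fintype.card_fin, nsmul_eq_mul]
  ring

end multi

/-- `C(N,j)/C(n,j) ≤ (N/n)^j` -/
theorem choose_ratio_le (N n j : ℕ) (hN : N ≤ n) (hn : 0 < n) :
    (N.choose j : ℝ) / (n.choose j : ℝ) ≤ ((N:ℝ) / n) ^ j := by
  have hn0 : (0:ℝ) < n := by exact_mod_cast hn
  have key : ∀ j : ℕ, N.descFactorial j * n ^ j ≤ n.descFactorial j * N ^ j := by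
    intro j
    induction j with
    | zero => simp
    | succ j ih =>
      rw [Nat.descFactorial_succ, Nat.descFactorial_succ, pow_succ, pow_succ]
      have h1 : (N - j) * n ≤ (n - j) * N := by
        rcases le_total N j with h | h
        · simp [Nat.sub_eq_zero_of_le h]
        · obtain ⟨a, rfl⟩ := Nat.exists_eq_add_of_le h
          obtain ⟨b, rfl⟩ := Nat.exists_eq_add_of_le hN
          rw [Nat.add_sub_cancel_left, show j + a + b - j = a + b by omega]
          nlinarith
      calc (N - j) * N.descFactorial j * (n ^ j * n) = (N.descFactorial j * n ^ j) * ((N - j) * n) := by ring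
        _ ≤ (n.descFactorial j * N ^ j) * ((n - j) * N) := Nat.mul_le_mul ih h1
        _ = _ := by ring
  rcases lt_or_ge n j with h | h
  · rw [Nat.choose_eq_zero_of_lt h]
    simp
    positivity
  · have hc : (0:ℝ) < n.choose j := by exact_mod_cast Nat.choose_pos h
    rw [div_le_iff₀ hc, div_pow, div_mul_eq_mul_div, le_div_iff₀ (by positivity)]
    have h1 := key j
    rw [Nat.descFactorial_eq_factorial_mul_choose, Nat.descFactorial_eq_factorial_mul_choose] at h1
    have h2 : (j.factorial : ℝ) * ((N.choose j : ℝ) * (n:ℝ) ^ j) ≤ (j.factorial : ℝ) * ((N:ℝ) ^ j * (n.choose j : ℝ)) := by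
      have h3 : ((j.factorial * N.choose j * n ^ j : ℕ) : ℝ) ≤ ((j.factorial * n.choose j * N ^ j : ℕ) : ℝ) := by
        exact_mod_cast h1
      push_cast at h3
      calc _ = (j.factorial : ℝ) * (N.choose j : ℝ) * (n:ℝ) ^ j := by ring
        _ ≤ _ := h3
        _ = _ := by ring
    exact le_of_mul_le_mul_left h2 (by positivity)

/-- decorrelation of factorial moments -/
theorem choose_sub_ratio (n j l : ℕ) (hln : l ≤ n) (hn : 0 < n) :
    |((n - j).choose l : ℝ) / (n.choose l : ℝ) - 1| ≤ (j:ℝ) * l / n := by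
  have hn0 : (0:ℝ) < n := by exact_mod_cast hn
  have hc : (0:ℝ) < n.choose l := by exact_mod_cast Nat.choose_pos hln
  have h1 : ((n - j).choose l : ℝ) ≤ n.choose l := by
    exact_mod_cast Nat.choose_le_choose l (Nat.sub_le n j)
  have key : ∀ j : ℕ, (n.choose l : ℝ) - ((n - j).choose l : ℝ) ≤ j * ((l:ℝ) / n * n.choose l) := by
    intro j
    induction j with
    | zero => simp
    | succ j ih =>
      have h2 : (((n - j).choose l : ℕ) : ℝ) - ((n - (j + 1)).choose l : ℝ) ≤ (l:ℝ) / n * n.choose l := by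
        rcases l with _ | l
        · simp
        · rcases Nat.eq_zero_or_pos (n - j) with h | h
          · have : n - (j + 1) = 0 := by omega
            rw [h, this, sub_self]
            positivity
          · obtain ⟨a, ha⟩ : ∃ a, n - j = a + 1 := ⟨n - j - 1, by omega⟩
            have h3 : n - (j + 1) = a := by omega
            rw [ha, h3, Nat.choose_succ_succ]
            push_cast
            have h4 : (a.choose l : ℝ) ≤ ((n - 1).choose l : ℝ) := by
              exact_mod_cast Nat.choose_le_choose l (by omega)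
            have h5 : ((l:ℝ) + 1) / n * (n.choose (l + 1) : ℝ) = ((n - 1).choose l : ℝ) := by
              obtain ⟨b, hb⟩ : ∃ b, n = b + 1 := ⟨n - 1, by omega⟩
              subst hb
              have h6 := Nat.add_one_mul_choose_eq b l
              have h7 : ((b:ℝ) + 1) * (b.choose l : ℝ) = ((b + 1).choose (l + 1) : ℝ) * ((l:ℝ) + 1) := by
                exact_mod_cast h6
              rw [div_mul_eq_mul_div, div_eq_iff (by positivity)]
              simp only [Nat.add_sub_cancel]
              push_cast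
              linarith
            linarith
      push_cast
      linarith
  rw [abs_sub_comm, abs_of_nonneg (by rw [sub_nonneg, div_le_one hc]; exact h1)]
  have h2 := key j
  have h3 : 1 - ((n - j).choose l : ℝ) / (n.choose l : ℝ) = ((n.choose l : ℝ) - ((n - j).choose l : ℝ)) / n.choose l := by
    field_simp
  rw [h3, div_le_iff₀ hc]
  calc _ ≤ _ := h2
    _ = _ := by ring

end Pool.Agent.Helper82_Renyi
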