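import Pool.Agent.Helper82_Renyi.Basic

open Finset

namespace Pool.Agent.Helper82_Renyi

theorem sum_inv_sq_le_two (N : ℕ) : ∑ l ∈ range N, (1:ℝ) / ((l:ℝ) + 1) ^ 2 ≤ 2 := by
  rcases N with _ | N
  · simp
  · have h : ∑ l ∈ range (N + 1), (1:ℝ) / ((l:ℝ) + 1) ^ 2 ≤ 2 - 1 / ((N:ℝ) + 1) := by
      induction N with
      | zero => norm_num
      | succ N ih =>
        rw [Finset.sum_range_succ]
        have hN : (0:ℝ) ≤ N := Nat.cast_nonneg N
        have h1 : (1:ℝ) / (((N + 1 : ℕ):ℝ) + 1) ^ 2 ≤ 1 / ((N:ℝ) + 1) - 1 / (((N + 1 : ℕ):ℝ) + 1) := by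
          push_cast
          rw [div_sub_div _ _ (by positivity) (by positivity), div_le_div_iff₀ (by positivity) (by positivity)]
          nlinarith
        linarith
    have : (0:ℝ) < 1 / ((N:ℝ) + 1) := by positivity
    linarith

theorem sum_inv_sq_fin_le_two (N : ℕ) : ∑ l : Fin N, (1:ℝ) / (((l:ℕ):ℝ) + 1) ^ 2 ≤ 2 := by
  rw [Fin.sum_univ_eq_sum_range (fun l => (1:ℝ) / ((l:ℝ) + 1) ^ 2) N]
  exact sum_inv_sq_le_two N

/-- nodes: `K^i` for `i < q`, and `K^q (j+1)^2` for `j < N`. -/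
noncomputable def node (K : ℝ) (q N : ℕ) : Fin q ⊕ Fin N → ℝ
  | Sum.inl i => K ^ (i : ℕ)
  | Sum.inr j => K ^ q * (((j : ℕ) : ℝ) + 1) ^ 2

theorem node_ge_one {K : ℝ} (hK : 1 ≤ K) (q N : ℕ) (a : Fin q ⊕ Fin N) : 1 ≤ node K q N a := by
  rcases a with i | j
  · exact one_le_pow₀ hK
  · have h1 : 1 ≤ K ^ q := one_le_pow₀ hK
    have h2 : (1:ℝ) ≤ (((j : ℕ) : ℝ) + 1) ^ 2 := by
      apply one_le_pow₀
      have : (0:ℝ) ≤ ((j:ℕ):ℝ) := Nat.cast_nonneg _
      linarith
    show 1 ≤ K ^ q * (((j : ℕ) : ℝ) + 1) ^ 2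
    nlinarith

theorem node_inl_le {K : ℝ} (hK : 1 ≤ K) (q N : ℕ) (i : Fin q) (j : Fin N) :
    node K q N (Sum.inl i) * K ≤ node K q N (Sum.inr j) := by
  have h2 : (1:ℝ) ≤ (((j : ℕ) : ℝ) + 1) ^ 2 := by
    apply one_le_pow₀
    have : (0:ℝ) ≤ ((j:ℕ):ℝ) := Nat.cast_nonneg _
    linarith
  show K ^ (i:ℕ) * K ≤ K ^ q * (((j : ℕ) : ℝ) + 1) ^ 2
  calc K ^ (i:ℕ) * K = K ^ ((i:ℕ) + 1) := by ring
    _ ≤ K ^ q := pow_le_pow_right₀ hK i.2
    _ ≤ K ^ q * (((j : ℕ) : ℝ) + 1) ^ 2 := by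
      have : 0 < K ^ q := by positivity
      nlinarith

theorem node_injective {K : ℝ} (hK : 1 < K) (q N : ℕ) : Function.Injective (node K q N) := by
  have key : ∀ (i : Fin q) (j : Fin N), node K q N (Sum.inl i) < node K q N (Sum.inr j) := by
    intro i j
    have h1 := node_inl_le hK.le q N i j
    have h2 := node_ge_one hK.le q N (Sum.inl i)
    nlinarith
  rintro (i | j) (i' | j') h
  · have h' : K ^ (i:ℕ) = K ^ (i':ℕ) := h
    have := pow_right_injective₀ (by linarith) hK.ne' h'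
    rw [Fin.ext this]
  · exact absurd h (key i j').ne
  · exact absurd h (key i' j).ne'
  · have h' : K ^ q * (((j : ℕ) : ℝ) + 1) ^ 2 = K ^ q * (((j' : ℕ) : ℝ) + 1) ^ 2 := h
    have hKq : (0:ℝ) < K ^ q := by positivity
    have h2 := mul_left_cancel₀ hKq.ne' h'
    have h3 : (((j : ℕ) : ℝ) + 1) = (((j' : ℕ) : ℝ) + 1) := by
      have ha : (0:ℝ) ≤ ((j:ℕ):ℝ) := Nat.cast_nonneg _
      have hb : (0:ℝ) ≤ ((j':ℕ):ℝ) := Nat.cast_nonneg _
      nlinarith
    have h4 : ((j : ℕ) : ℝ) = ((j' : ℕ) : ℝ) := by linarith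
    have h5 : (j : ℕ) = (j' : ℕ) := by exact_mod_cast h4
    rw [Fin.ext h5]

theorem prod_erase_inl {α β M : Type*} [Fintype α] [Fintype β] [DecidableEq α] [DecidableEq β]
    [CommMonoid M] (i : α) (f : α ⊕ β → M) :
    ∏ b ∈ univ.erase (Sum.inl i), f b = (∏ i' ∈ univ.erase i, f (Sum.inl i')) * ∏ j, f (Sum.inr j) := by
  have : (univ.erase (Sum.inl i) : Finset (α ⊕ β)) = (univ.erase i).disjSum univ := by
    ext (x | x) <;> simp
  rw [this, Finset.prod_disjSum]

theorem prod_erase_inr {α β M : Type*} [Fintype α] [Fintype β] [DecidableEq α] [DecidableEq β]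
    [CommMonoid M] (j : β) (f : α ⊕ β → M) :
    ∏ b ∈ univ.erase (Sum.inr j), f b = (∏ i, f (Sum.inl i)) * ∏ j' ∈ univ.erase j, f (Sum.inr j') := by
  have : (univ.erase (Sum.inr j) : Finset (α ⊕ β)) = univ.disjSum (univ.erase j) := by
    ext (x | x) <;> simp
  rw [this, Finset.prod_disjSum]

theorem prod_fin_erase {N : ℕ} (j : Fin N) (f : ℕ → ℝ) :
    ∏ l ∈ univ.erase j, f (l : ℕ) = ∏ l ∈ (range N).erase (j : ℕ), f l := by
  have h : (range N).erase (j:ℕ) = (univ.erase j).map Fin.valEmbedding := by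
    ext l
    simp only [mem_erase, mem_range, Finset.mem_map, mem_univ, and_true, Fin.valEmbedding_apply]
    constructor
    · rintro ⟨h1, h2⟩
      exact ⟨⟨l, h2⟩, fun h => h1 (by rw [← h]), rfl⟩
    · rintro ⟨a, h1, rfl⟩
      exact ⟨fun h => h1 (Fin.ext h), a.2⟩
  rw [h, Finset.prod_map]
  rfl

theorem abs_nodalWeight_eq {ι : Type*} [DecidableEq ι] (s : Finset ι) (x : ι → ℝ) (a : ι) :
    |Lagrange.nodalWeight s x a| = (∏ b ∈ s.erase a, |x a - x b|)⁻¹ := by
  rw [Lagrange.nodalWeight, Finset.abs_prod, ← Finset.prod_inv_distrib]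
  apply Finset.prod_congr rfl
  intro b _
  rw [abs_inv]

theorem abs_pow_sub_pow_le {K : ℝ} (hK : 1 ≤ K) (i j : ℕ) : |K ^ i - K ^ j| ≤ K ^ (max i j) := by
  have hK0 : 0 < K := by linarith
  have hi : 0 < K ^ i := by positivity
  have hj : 0 < K ^ j := by positivity
  have h1 : K ^ i ≤ K ^ (max i j) := pow_le_pow_right₀ hK (le_max_left _ _)
  have h2 : K ^ j ≤ K ^ (max i j) := pow_le_pow_right₀ hK (le_max_right _ _)
  rw [abs_le]
  constructor <;> linarith

theorem abs_pow_sub_pow_ge {K : ℝ} (hK : 1 ≤ K) (i j : ℕ) (hij : i ≠ j) :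
    K ^ (max i j) * (1 - 1 / K) ≤ |K ^ i - K ^ j| := by
  have hK0 : 0 < K := by linarith
  wlog h : i < j generalizing i j
  · have := this j i hij.symm (by omega)
    rwa [max_comm, abs_sub_comm] at this
  · rw [max_eq_right h.le, abs_sub_comm]
    have h1 : K ^ i * K ≤ K ^ j := by
      calc K ^ i * K = K ^ (i + 1) := by ring
        _ ≤ K ^ j := pow_le_pow_right₀ hK h
    have h2 : K ^ j * (1 - 1 / K) = K ^ j - K ^ j / K := by field_simp
    rw [h2]
    have h3 : K ^ i ≤ K ^ j / K := by rw [le_div_iff₀ hK0]; exact h1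
    have := le_abs_self (K ^ j - K ^ i)
    linarith

theorem sum_max_eq (i k : ℕ) :
    ∑ i' ∈ range (i + 1 + k), (max i i' : ℝ) = (((i:ℝ) + 1 + k) * ((i:ℝ) + k) + i * (i + 1)) / 2 := by
  induction k with
  | zero =>
    have : ∑ i' ∈ range (i + 1 + 0), (max (i:ℝ) (i':ℝ)) = ∑ i' ∈ range (i + 1), (i:ℝ) := by
      apply Finset.sum_congr rfl
      intro i' hi'
      have : i' ≤ i := by simp at hi'; omega
      rw [max_eq_left (by exact_mod_cast this)]
    rw [this]
    simp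
    ring
  | succ k ih =>
    have h0 : i + 1 + (k + 1) = (i + 1 + k) + 1 := by ring
    rw [h0, Finset.sum_range_succ, ih]
    have : max (i:ℝ) ((i + 1 + k : ℕ):ℝ) = i + 1 + k := by
      rw [max_eq_right]
      · push_cast; ring
      · push_cast
        have : (0:ℝ) ≤ k := Nat.cast_nonneg k
        linarith
    rw [this]
    push_cast
    ring

/-- product of `K^{max(i,i')}` over `i' ≠ i` -/
theorem prod_max_eq {K : ℝ} (hK : 0 < K) (q : ℕ) (i : Fin q) :
    ∏ i' ∈ univ.erase i, K ^ (max (i:ℕ) (i':ℕ)) = K ^ (((q:ℝ) * (q - 1) + i * (i - 1)) / 2 : ℝ) := by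
  have h1 : (∏ i' ∈ univ.erase i, K ^ (max (i:ℕ) (i':ℕ))) * K ^ (i:ℕ) = K ^ (((q:ℝ) * (q - 1) + i * (i + 1)) / 2 : ℝ) := by
    have h2 : (∏ i' ∈ univ.erase i, K ^ (max (i:ℕ) (i':ℕ))) * K ^ (i:ℕ) = ∏ i' : Fin q, K ^ (max (i:ℕ) (i':ℕ)) := by
      rw [← Finset.prod_erase_mul univ _ (mem_univ i)]
      simp
    rw [h2, Fin.prod_univ_eq_prod_range (fun i' => K ^ (max (i:ℕ) i')) q]
    rw [Finset.prod_pow_eq_pow_sum, ← Real.rpow_natCast]
    congr 1
    obtain ⟨k, hk⟩ : ∃ k, q = i + 1 + k := ⟨q - (i+1), by omega⟩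
    have h3 := sum_max_eq (i:ℕ) k
    rw [← hk] at h3
    have hk' : (q:ℝ) = (i:ℕ) + 1 + k := by exact_mod_cast hk
    push_cast
    rw [h3, hk']
    ring
  have h3 : (0:ℝ) < K ^ (i:ℕ) := by positivity
  have h4 : K ^ (((q:ℝ) * (q - 1) + i * (i + 1)) / 2 : ℝ) = K ^ (((q:ℝ) * (q - 1) + i * (i - 1)) / 2 : ℝ) * K ^ (i:ℕ) := by
    rw [← Real.rpow_natCast, ← Real.rpow_add hK]
    congr 1
    ring
  rw [h4] at h1
  exact mul_right_cancel₀ h3.ne' h1

/-- the product of the far nodes -/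
noncomputable def nodeT (K : ℝ) (q N : ℕ) : ℝ := ∏ j : Fin N, node K q N (Sum.inr j)

theorem nodeT_pos {K : ℝ} (hK : 1 ≤ K) (q N : ℕ) : 0 < nodeT K q N :=
  Finset.prod_pos (fun j _ => by linarith [node_ge_one hK q N (Sum.inr j)])

/-- Lemma A -/
theorem prod_near_le {K : ℝ} (hK : 1 ≤ K) (q N : ℕ) (i : Fin q) :
    ∏ b ∈ univ.erase (Sum.inl i), |node K q N (Sum.inl i) - node K q N b|
      ≤ K ^ (((q:ℝ) * (q - 1) + i * (i - 1)) / 2 : ℝ) * nodeT K q N := by
  have hK0 : 0 < K := by linarith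
  rw [prod_erase_inl, ← prod_max_eq hK0]
  apply mul_le_mul
  · apply Finset.prod_le_prod
    · intro _ _; positivity
    · intro i' _
      exact abs_pow_sub_pow_le hK _ _
  · apply Finset.prod_le_prod
    · intro _ _; positivity
    · intro j _
      have h1 := node_inl_le hK q N i j
      have h2 := node_ge_one hK q N (Sum.inl i)
      have h3 : node K q N (Sum.inl i) ≤ node K q N (Sum.inl i) * K := by nlinarith
      rw [abs_sub_comm, abs_of_nonneg (by linarith)]
      linarith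
  · exact Finset.prod_nonneg (fun _ _ => abs_nonneg _)
  · exact Finset.prod_nonneg (fun _ _ => by positivity)

/-- Lemma B -/
theorem prod_near_ge {K : ℝ} (q N : ℕ) (hK : 2 * ((q:ℝ) + 2) ≤ K) (i : Fin q) :
    (1/2) * (K ^ (((q:ℝ) * (q - 1) + i * (i - 1)) / 2 : ℝ) * nodeT K q N) ≤
    ∏ b ∈ univ.erase (Sum.inl i), |node K q N (Sum.inl i) - node K q N b| := by
  have hq0 : (0:ℝ) ≤ q := Nat.cast_nonneg q
  have hK1 : 1 ≤ K := by linarith
  have hK0 : 0 < K := by linarith
  rw [prod_erase_inl, ← prod_max_eq hK0]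
  have hT := nodeT_pos hK1 q N
  have hP : 0 < ∏ i' ∈ univ.erase i, K ^ (max (i:ℕ) (i':ℕ)) := Finset.prod_pos (fun _ _ => by positivity)
  have h1 : (∏ i' ∈ univ.erase i, K ^ (max (i:ℕ) (i':ℕ))) * (1 - q / K) ≤
      ∏ i' ∈ univ.erase i, |node K q N (Sum.inl i) - node K q N (Sum.inl i')| := by
    calc (∏ i' ∈ univ.erase i, K ^ (max (i:ℕ) (i':ℕ))) * (1 - q / K)
        ≤ (∏ i' ∈ univ.erase i, K ^ (max (i:ℕ) (i':ℕ))) * ∏ i' ∈ univ.erase i, (1 - 1 / K) := by
          apply mul_le_mul_of_nonneg_left _ hP.le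
          refine le_trans ?_ (one_sub_sum_le_prod _ (fun _ => 1 / K) ?_ ?_)
          · rw [Finset.sum_const, nsmul_eq_mul]
            have : ((univ.erase i).card : ℝ) ≤ q := by
              exact_mod_cast (le_trans (Finset.card_erase_le) (by simp))
            have h3 : ((univ.erase i).card : ℝ) * (1 / K) ≤ q * (1 / K) :=
              mul_le_mul_of_nonneg_right this (by positivity)
            have h4 : (q:ℝ) * (1 / K) = q / K := by ring
            linarith
          · intro _ _; positivity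
          · intro _ _
            rw [div_le_one hK0]; exact hK1
      _ = ∏ i' ∈ univ.erase i, (K ^ (max (i:ℕ) (i':ℕ)) * (1 - 1 / K)) := by rw [Finset.prod_mul_distrib]
      _ ≤ _ := by
          apply Finset.prod_le_prod
          · intro _ _
            have : 1 / K ≤ 1 := by rw [div_le_one hK0]; exact hK1
            have : 0 ≤ 1 - 1 / K := by linarith
            positivity
          · intro i' hi'
            apply abs_pow_sub_pow_ge hK1
            intro h
            exact (Finset.ne_of_mem_erase hi') (Fin.ext h.symm)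
  have h2 : nodeT K q N * (1 - 2 / K) ≤ ∏ j, |node K q N (Sum.inl i) - node K q N (Sum.inr j)| := by
    calc nodeT K q N * (1 - 2 / K) ≤ nodeT K q N * ∏ j : Fin N, (1 - (1 / K) * (1 / (((j:ℕ):ℝ) + 1) ^ 2)) := by
          apply mul_le_mul_of_nonneg_left _ hT.le
          refine le_trans ?_ (one_sub_sum_le_prod _ _ ?_ ?_)
          · rw [← Finset.mul_sum]
            have h3 := sum_inv_sq_fin_le_two N
            have h4 : 2 / K = (1 / K) * 2 := by ring
            rw [h4]
            have : (1 / K) * ∑ l : Fin N, (1:ℝ) / (((l:ℕ):ℝ) + 1) ^ 2 ≤ (1 / K) * 2 :=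
              mul_le_mul_of_nonneg_left h3 (by positivity)
            linarith
          · intro _ _; positivity
          · intro j _
            have h5 : 1 / K ≤ 1 := by rw [div_le_one hK0]; exact hK1
            have h6 : 1 / (((j:ℕ):ℝ) + 1) ^ 2 ≤ 1 := by
              rw [div_le_one (by positivity)]
              apply one_le_pow₀
              have : (0:ℝ) ≤ ((j:ℕ):ℝ) := Nat.cast_nonneg _
              linarith
            calc (1 / K) * (1 / (((j:ℕ):ℝ) + 1) ^ 2) ≤ 1 * 1 := by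
                  apply mul_le_mul h5 h6 (by positivity) (by norm_num)
              _ = 1 := by norm_num
      _ = ∏ j : Fin N, (node K q N (Sum.inr j) * (1 - (1 / K) * (1 / (((j:ℕ):ℝ) + 1) ^ 2))) := by
          rw [Finset.prod_mul_distrib]; rfl
      _ ≤ _ := by
          apply Finset.prod_le_prod
          · intro j _
            have h5 : 1 / K ≤ 1 := by rw [div_le_one hK0]; exact hK1
            have h6 : 1 / (((j:ℕ):ℝ) + 1) ^ 2 ≤ 1 := by
              rw [div_le_one (by positivity)]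
              apply one_le_pow₀
              have : (0:ℝ) ≤ ((j:ℕ):ℝ) := Nat.cast_nonneg _
              linarith
            have h7 : (1 / K) * (1 / (((j:ℕ):ℝ) + 1) ^ 2) ≤ 1 := by
              calc (1 / K) * (1 / (((j:ℕ):ℝ) + 1) ^ 2) ≤ 1 * 1 := by
                    apply mul_le_mul h5 h6 (by positivity) (by norm_num)
                _ = 1 := by norm_num
            have h8 := node_ge_one hK1 q N (Sum.inr j)
            apply mul_nonneg (by linarith) (by linarith)
          · intro j _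
            have h8 : node K q N (Sum.inr j) * (1 - (1 / K) * (1 / (((j:ℕ):ℝ) + 1) ^ 2))
                = node K q N (Sum.inr j) - K ^ q / K := by
              show K ^ q * (((j : ℕ) : ℝ) + 1) ^ 2 * (1 - (1 / K) * (1 / (((j:ℕ):ℝ) + 1) ^ 2)) = K ^ q * (((j : ℕ) : ℝ) + 1) ^ 2 - K ^ q / K
              have : (((j : ℕ) : ℝ) + 1) ≠ 0 := by positivity
              field_simp
            have h9 : node K q N (Sum.inl i) ≤ K ^ q / K := by
              rw [le_div_iff₀ hK0]
              show K ^ (i:ℕ) * K ≤ K ^ q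
              calc K ^ (i:ℕ) * K = K ^ ((i:ℕ) + 1) := by ring
                _ ≤ K ^ q := pow_le_pow_right₀ hK1 i.2
            rw [h8, abs_sub_comm]
            have := le_abs_self (node K q N (Sum.inr j) - node K q N (Sum.inl i))
            linarith
  have hqK : (q:ℝ) / K ≤ 1 := by rw [div_le_one hK0]; linarith
  have h2K : (2:ℝ) / K ≤ 1 := by rw [div_le_one hK0]; linarith
  have h3 : (1/2 : ℝ) ≤ (1 - q / K) * (1 - 2 / K) := by
    have h4 : ((q:ℝ) + 2) / K ≤ 1 / 2 := by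
      rw [div_le_div_iff₀ hK0 (by norm_num)]
      linarith
    have h5 : ((q:ℝ) + 2) / K = q / K + 2 / K := by ring
    have h6 : 0 ≤ (q:ℝ) / K * (2 / K) := by positivity
    nlinarith
  calc (1/2) * ((∏ i' ∈ univ.erase i, K ^ (max (i:ℕ) (i':ℕ))) * nodeT K q N)
      ≤ ((1 - q / K) * (1 - 2 / K)) * ((∏ i' ∈ univ.erase i, K ^ (max (i:ℕ) (i':ℕ))) * nodeT K q N) := by
        apply mul_le_mul_of_nonneg_right h3
        positivity
    _ = ((∏ i' ∈ univ.erase i, K ^ (max (i:ℕ) (i':ℕ))) * (1 - q / K)) * (nodeT K q N * (1 - 2 / K)) := by ring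
    _ ≤ _ := by
        apply mul_le_mul h1 h2
        · apply mul_nonneg hT.le; linarith
        · exact Finset.prod_nonneg (fun _ _ => abs_nonneg _)

/-- Lemma C -/
theorem prod_far_ge {K : ℝ} (q N : ℕ) (hK : 2 * ((q:ℝ) + 2) ≤ K) (j : Fin N) :
    (1/4) * ((node K q N (Sum.inr j)) ^ ((q:ℝ) - 1) * nodeT K q N) ≤
    ∏ b ∈ univ.erase (Sum.inr j), |node K q N (Sum.inr j) - node K q N b| := by
  have hq0 : (0:ℝ) ≤ q := Nat.cast_nonneg q
  have hK1 : 1 ≤ K := by linarith
  have hK0 : 0 < K := by linarith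
  rw [prod_erase_inr]
  set z := node K q N (Sum.inr j) with hz
  have hz1 : 1 ≤ z := node_ge_one hK1 q N (Sum.inr j)
  have hz0 : 0 < z := by linarith
  have h1 : z ^ q * (1/2) ≤ ∏ i : Fin q, |z - node K q N (Sum.inl i)| := by
    calc z ^ q * (1/2) ≤ (∏ _i : Fin q, z) * ∏ _i : Fin q, (1 - 1 / K) := by
          rw [Finset.prod_const, Finset.card_univ, Fintype.card_fin]
          apply mul_le_mul_of_nonneg_left _ (by positivity)
          refine le_trans ?_ (one_sub_sum_le_prod _ (fun _ => 1 / K) ?_ ?_)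
          · rw [Finset.sum_const, nsmul_eq_mul, Finset.card_univ, Fintype.card_fin]
            have : (q:ℝ) * (1 / K) ≤ 1 / 2 := by
              rw [mul_one_div, div_le_div_iff₀ hK0 (by norm_num)]
              linarith
            linarith
          · intro _ _; positivity
          · intro _ _
            rw [div_le_one hK0]; exact hK1
      _ = ∏ i : Fin q, (z * (1 - 1 / K)) := by rw [Finset.prod_mul_distrib]
      _ ≤ _ := by
          apply Finset.prod_le_prod
          · intro _ _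
            have : 1 / K ≤ 1 := by rw [div_le_one hK0]; exact hK1
            apply mul_nonneg hz0.le; linarith
          · intro i _
            have h3 := node_inl_le hK1 q N i j
            rw [← hz] at h3
            have h4 : node K q N (Sum.inl i) ≤ z / K := by rw [le_div_iff₀ hK0]; exact h3
            have h5 := le_abs_self (z - node K q N (Sum.inl i))
            have h6 : z * (1 - 1 / K) = z - z / K := by ring
            rw [h6]; linarith
  have h2 : (1/2) * (nodeT K q N / z) ≤ ∏ j' ∈ univ.erase j, |z - node K q N (Sum.inr j')| := by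
    have h3 : nodeT K q N / z = ∏ j' ∈ univ.erase j, node K q N (Sum.inr j') := by
      rw [div_eq_iff hz0.ne', nodeT, ← Finset.prod_erase_mul univ _ (mem_univ j)]
    rw [h3]
    have h4 : ∏ j' ∈ univ.erase j, node K q N (Sum.inr j')
        = (∏ j' ∈ univ.erase j, K ^ q) * ∏ l ∈ (range N).erase (j:ℕ), ((l:ℝ) + 1) ^ 2 := by
      rw [← prod_fin_erase j (fun l => ((l:ℝ) + 1) ^ 2), ← Finset.prod_mul_distrib]
      rfl
    have h5 : ∏ j' ∈ univ.erase j, |z - node K q N (Sum.inr j')|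
        = (∏ j' ∈ univ.erase j, K ^ q) * ∏ l ∈ (range N).erase (j:ℕ), |((l:ℝ) + 1) ^ 2 - (((j:ℕ):ℝ) + 1) ^ 2| := by
      rw [← prod_fin_erase j (fun l => |((l:ℝ) + 1) ^ 2 - (((j:ℕ):ℝ) + 1) ^ 2|), ← Finset.prod_mul_distrib]
      apply Finset.prod_congr rfl
      intro l _
      have h6 : z - node K q N (Sum.inr l) = K ^ q * (-((((l:ℕ):ℝ) + 1) ^ 2 - (((j:ℕ):ℝ) + 1) ^ 2)) := by
        show K ^ q * (((j : ℕ) : ℝ) + 1) ^ 2 - K ^ q * (((l : ℕ) : ℝ) + 1) ^ 2 = _
        ring
      rw [h6, abs_mul, abs_neg, abs_of_pos (by positivity : (0:ℝ) < K ^ q)]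
    rw [h4, h5]
    have h6 := prod_sq_lower (j:ℕ) N j.2
    have h7 : (0:ℝ) < ∏ j' ∈ univ.erase j, K ^ q := Finset.prod_pos (fun _ _ => by positivity)
    calc _ = (∏ j' ∈ univ.erase j, K ^ q) * ((1/2) * ∏ l ∈ (range N).erase (j:ℕ), ((l:ℝ) + 1) ^ 2) := by ring
      _ ≤ _ := mul_le_mul_of_nonneg_left h6 h7.le
  have hT := nodeT_pos hK1 q N
  calc (1/4) * (z ^ ((q:ℝ) - 1) * nodeT K q N) = (z ^ q * (1/2)) * ((1/2) * (nodeT K q N / z)) := by
        have : z ^ ((q:ℝ) - 1) = z ^ q / z := by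
          rw [Real.rpow_sub_one hz0.ne', Real.rpow_natCast]
        rw [this]
        ring
    _ ≤ _ := by
        apply mul_le_mul h1 h2 (by positivity)
        exact Finset.prod_nonneg (fun _ _ => abs_nonneg _)

end Pool.Agent.Helper82_Renyi
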