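import Pool.Agent.Helper82_Renyi.Nodes

open Finset

namespace Pool.Agent.Helper82_Renyi

/-- the Lagrange weights at the nodes -/
noncomputable def wt (K : ℝ) (q N : ℕ) (a : Fin q ⊕ Fin N) : ℝ :=
  Lagrange.nodalWeight univ (node K q N) a

theorem wt_near_ge {K : ℝ} (hK : 1 < K) (q N : ℕ) (i : Fin q) :
    K ^ (-(((q:ℝ) * (q - 1) + i * (i - 1)) / 2) : ℝ) ≤ |wt K q N (Sum.inl i)| * nodeT K q N := by
  have hT := nodeT_pos hK.le q N
  have h1 := prod_near_le hK.le q N i
  have hpos : 0 < ∏ b ∈ univ.erase (Sum.inl i), |node K q N (Sum.inl i) - node K q N b| := by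
    apply Finset.prod_pos
    intro b hb
    rw [abs_pos, sub_ne_zero]
    intro h
    exact (Finset.ne_of_mem_erase hb) (node_injective hK q N h).symm
  rw [wt, abs_nodalWeight_eq, Real.rpow_neg (by linarith), ← div_eq_inv_mul, le_div_iff₀ hpos]
  have hE : 0 < K ^ (((q:ℝ) * (q - 1) + i * (i - 1)) / 2 : ℝ) := Real.rpow_pos_of_pos (by linarith) _
  rw [inv_mul_le_iff₀ hE]
  exact h1

theorem wt_near_le {K : ℝ} (q N : ℕ) (hK : 2 * ((q:ℝ) + 2) ≤ K) (i : Fin q) :
    |wt K q N (Sum.inl i)| * nodeT K q N ≤ 2 * K ^ (-(((q:ℝ) * (q - 1) + i * (i - 1)) / 2) : ℝ) := by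
  have hq0 : (0:ℝ) ≤ q := Nat.cast_nonneg q
  have hK1 : 1 ≤ K := by linarith
  have hK0 : 0 < K := by linarith
  have hT := nodeT_pos hK1 q N
  have h1 := prod_near_ge q N hK i
  have hE : 0 < K ^ (((q:ℝ) * (q - 1) + i * (i - 1)) / 2 : ℝ) := Real.rpow_pos_of_pos (by linarith) _
  have hpos : 0 < ∏ b ∈ univ.erase (Sum.inl i), |node K q N (Sum.inl i) - node K q N b| :=
    lt_of_lt_of_le (by positivity) h1
  rw [wt, abs_nodalWeight_eq, Real.rpow_neg (by linarith), ← div_eq_inv_mul, div_le_iff₀ hpos]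
  calc nodeT K q N = 2 * (K ^ (((q:ℝ) * (q - 1) + i * (i - 1)) / 2 : ℝ))⁻¹ * ((1/2) * (K ^ (((q:ℝ) * (q - 1) + i * (i - 1)) / 2 : ℝ) * nodeT K q N)) := by
        field_simp
    _ ≤ _ := mul_le_mul_of_nonneg_left h1 (by positivity)

theorem wt_far_le {K : ℝ} (q N : ℕ) (hK : 2 * ((q:ℝ) + 2) ≤ K) (j : Fin N) :
    |wt K q N (Sum.inr j)| * nodeT K q N ≤ 4 * (node K q N (Sum.inr j)) ^ (1 - (q:ℝ)) := by
  have hq0 : (0:ℝ) ≤ q := Nat.cast_nonneg q
  have hK1 : 1 ≤ K := by linarith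
  have hT := nodeT_pos hK1 q N
  have h1 := prod_far_ge q N hK j
  have hz := node_ge_one hK1 q N (Sum.inr j)
  have hE : 0 < (node K q N (Sum.inr j)) ^ ((q:ℝ) - 1) := Real.rpow_pos_of_pos (by linarith) _
  have hpos : 0 < ∏ b ∈ univ.erase (Sum.inr j), |node K q N (Sum.inr j) - node K q N b| :=
    lt_of_lt_of_le (by positivity) h1
  have h2 : (1:ℝ) - q = -((q:ℝ) - 1) := by ring
  rw [wt, abs_nodalWeight_eq, h2, Real.rpow_neg (by linarith), ← div_eq_inv_mul, div_le_iff₀ hpos]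
  calc nodeT K q N = 4 * ((node K q N (Sum.inr j)) ^ ((q:ℝ) - 1))⁻¹ * ((1/4) * ((node K q N (Sum.inr j)) ^ ((q:ℝ) - 1) * nodeT K q N)) := by
        field_simp
    _ ≤ _ := mul_le_mul_of_nonneg_left h1 (by positivity)

theorem sum_far_rpow {K : ℝ} (hK : 1 ≤ K) (q N : ℕ) (e : ℝ) (he : e ≤ -1) :
    ∑ j : Fin N, (node K q N (Sum.inr j)) ^ e ≤ 2 * K ^ ((q:ℝ) * e) := by
  have hK0 : 0 < K := by linarith
  have h1 : ∀ j : Fin N, (node K q N (Sum.inr j)) ^ e ≤ K ^ ((q:ℝ) * e) * (1 / (((j:ℕ):ℝ) + 1) ^ 2) := by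
    intro j
    have hj : (1:ℝ) ≤ (((j:ℕ):ℝ) + 1) ^ 2 := by
      apply one_le_pow₀
      have : (0:ℝ) ≤ ((j:ℕ):ℝ) := Nat.cast_nonneg _
      linarith
    show (K ^ q * (((j : ℕ) : ℝ) + 1) ^ 2) ^ e ≤ _
    rw [Real.mul_rpow (by positivity) (by positivity)]
    have h2 : (K ^ q) ^ e = K ^ ((q:ℝ) * e) := by
      rw [← Real.rpow_natCast, ← Real.rpow_mul hK0.le]
    rw [h2]
    apply mul_le_mul_of_nonneg_left _ (by positivity)
    calc ((((j : ℕ) : ℝ) + 1) ^ 2) ^ e ≤ ((((j : ℕ) : ℝ) + 1) ^ 2) ^ (-1 : ℝ) :=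
          Real.rpow_le_rpow_of_exponent_le hj he
      _ = 1 / (((j:ℕ):ℝ) + 1) ^ 2 := by rw [Real.rpow_neg_one, one_div]
  calc ∑ j : Fin N, (node K q N (Sum.inr j)) ^ e ≤ ∑ j : Fin N, K ^ ((q:ℝ) * e) * (1 / (((j:ℕ):ℝ) + 1) ^ 2) :=
        Finset.sum_le_sum (fun j _ => h1 j)
    _ = K ^ ((q:ℝ) * e) * ∑ j : Fin N, (1 / (((j:ℕ):ℝ) + 1) ^ 2) := by rw [Finset.mul_sum]
    _ ≤ K ^ ((q:ℝ) * e) * 2 := by
        apply mul_le_mul_of_nonneg_left (sum_inv_sq_fin_le_two N) (by positivity)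
    _ = _ := by ring

theorem sum_wt_le {K : ℝ} (q N : ℕ) (hK : 2 * ((q:ℝ) + 2) ≤ K) (P : Finset (Fin q)) (s B : ℝ)
    (hs : s ≤ (q:ℝ) - 2)
    (hB : ∀ i ∈ P, (i:ℝ) * s - ((q:ℝ) * (q - 1) + i * (i - 1)) / 2 ≤ B)
    (hB' : (q:ℝ) * (s + 1 - q) ≤ B) :
    ∑ i ∈ P, |wt K q N (Sum.inl i)| * (node K q N (Sum.inl i)) ^ s * nodeT K q N
      + ∑ j, |wt K q N (Sum.inr j)| * (node K q N (Sum.inr j)) ^ s * nodeT K q N
      ≤ (2 * q + 8) * K ^ B := by
  have hq0 : (0:ℝ) ≤ q := Nat.cast_nonneg q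
  have hK1 : 1 ≤ K := by linarith
  have hK0 : 0 < K := by linarith
  have h1 : ∑ i ∈ P, |wt K q N (Sum.inl i)| * (node K q N (Sum.inl i)) ^ s * nodeT K q N
      ≤ 2 * q * K ^ B := by
    calc _ ≤ ∑ i ∈ P, 2 * K ^ B := by
          apply Finset.sum_le_sum
          intro i hi
          have h2 := wt_near_le q N hK i
          have h3 : (node K q N (Sum.inl i)) ^ s = K ^ ((i:ℝ) * s) := by
            show (K ^ (i:ℕ)) ^ s = _
            rw [← Real.rpow_natCast, ← Real.rpow_mul hK0.le]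
          calc |wt K q N (Sum.inl i)| * (node K q N (Sum.inl i)) ^ s * nodeT K q N
              = (|wt K q N (Sum.inl i)| * nodeT K q N) * K ^ ((i:ℝ) * s) := by rw [h3]; ring
            _ ≤ (2 * K ^ (-(((q:ℝ) * (q - 1) + i * (i - 1)) / 2) : ℝ)) * K ^ ((i:ℝ) * s) :=
                mul_le_mul_of_nonneg_right h2 (by positivity)
            _ = 2 * K ^ ((i:ℝ) * s - ((q:ℝ) * (q - 1) + i * (i - 1)) / 2) := by
                rw [mul_assoc, ← Real.rpow_add hK0]
                congr 2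
                ring
            _ ≤ 2 * K ^ B := by
                apply mul_le_mul_of_nonneg_left _ (by norm_num)
                exact Real.rpow_le_rpow_of_exponent_le hK1 (hB i hi)
      _ = (P.card : ℝ) * (2 * K ^ B) := by rw [Finset.sum_const, nsmul_eq_mul]
      _ ≤ (q:ℝ) * (2 * K ^ B) := by
          apply mul_le_mul_of_nonneg_right _ (by positivity)
          have := Finset.card_le_univ P
          rw [Fintype.card_fin] at this
          exact_mod_cast this
      _ = _ := by ring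
  have h2 : ∑ j, |wt K q N (Sum.inr j)| * (node K q N (Sum.inr j)) ^ s * nodeT K q N ≤ 8 * K ^ B := by
    calc _ ≤ ∑ j, 4 * (node K q N (Sum.inr j)) ^ (s + 1 - (q:ℝ)) := by
          apply Finset.sum_le_sum
          intro j _
          have h3 := wt_far_le q N hK j
          have hz := node_ge_one hK1 q N (Sum.inr j)
          calc |wt K q N (Sum.inr j)| * (node K q N (Sum.inr j)) ^ s * nodeT K q N
              = (|wt K q N (Sum.inr j)| * nodeT K q N) * (node K q N (Sum.inr j)) ^ s := by ring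
            _ ≤ (4 * (node K q N (Sum.inr j)) ^ (1 - (q:ℝ))) * (node K q N (Sum.inr j)) ^ s :=
                mul_le_mul_of_nonneg_right h3 (by positivity)
            _ = _ := by
                rw [mul_assoc, ← Real.rpow_add (by linarith)]
                congr 2
                ring
      _ = 4 * ∑ j, (node K q N (Sum.inr j)) ^ (s + 1 - (q:ℝ)) := by rw [Finset.mul_sum]
      _ ≤ 4 * (2 * K ^ ((q:ℝ) * (s + 1 - q))) := by
          apply mul_le_mul_of_nonneg_left _ (by norm_num)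
          exact sum_far_rpow hK1 q N _ (by linarith)
      _ ≤ 4 * (2 * K ^ B) := by
          have := Real.rpow_le_rpow_of_exponent_le hK1 hB'
          linarith
      _ = _ := by ring
  calc _ ≤ 2 * q * K ^ B + 8 * K ^ B := add_le_add h1 h2
    _ = _ := by ring

/-- size-biased inverse: given nonnegative weights `p` on nodes `x ≥ 1`, the probability
weights on the nodes and `0` with `u a ∝ p a / x a`. -/
noncomputable def tilt {ι : Type} [Fintype ι] (x p : ι → ℝ) : Option ι → ℝ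
  | none => 1 - ∑ a, p a / ((∑ b, p b) * x a)
  | some a => p a / ((∑ b, p b) * x a)

/-- nodes extended by zero -/
noncomputable def ext0 {ι : Type} (x : ι → ℝ) : Option ι → ℝ
  | none => 0
  | some a => x a

section tilt
variable {ι : Type} [Fintype ι] (x p : ι → ℝ)

theorem tilt_sum : ∑ o, tilt x p o = 1 := by
  rw [Fintype.sum_option]
  simp [tilt]

theorem tilt_nonneg (hx : ∀ a, 1 ≤ x a) (hp : ∀ a, 0 ≤ p a) (hP : 0 < ∑ a, p a) (o : Option ι) :
    0 ≤ tilt x p o := by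
  rcases o with _ | a
  · show 0 ≤ 1 - ∑ a, p a / ((∑ b, p b) * x a)
    have h1 : ∑ a, p a / ((∑ b, p b) * x a) ≤ ∑ a, p a / (∑ b, p b) := by
      apply Finset.sum_le_sum
      intro a _
      apply div_le_div_of_nonneg_left (hp a) hP
      have := hx a
      nlinarith
    rw [← Finset.sum_div, div_self hP.ne'] at h1
    linarith
  · show 0 ≤ p a / ((∑ b, p b) * x a)
    have := hx a
    have := hp a
    apply div_nonneg this
    apply mul_nonneg hP.le; linarith

theorem tilt_pow (hx : ∀ a, 1 ≤ x a) (d : ℕ) :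
    ∑ o, tilt x p o * (ext0 x o) ^ (d + 1) = (∑ a, p a * x a ^ d) / (∑ a, p a) := by
  rw [Fintype.sum_option]
  simp only [tilt, ext0, ne_eq, Nat.add_eq_zero_iff, one_ne_zero, and_false, not_false_eq_true,
    zero_pow, mul_zero, zero_add]
  rw [Finset.sum_div]
  apply Finset.sum_congr rfl
  intro a _
  have : x a ≠ 0 := by linarith [hx a]
  rcases eq_or_ne (∑ b, p b) 0 with h | h
  · rw [h]; simp
  · field_simp
    ring

theorem tilt_rpow (hx : ∀ a, 1 ≤ x a) (α : ℝ) (hα : α ≠ 0) :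
    ∑ o, tilt x p o * (ext0 x o) ^ α = (∑ a, p a * x a ^ (α - 1)) / (∑ a, p a) := by
  rw [Fintype.sum_option]
  simp only [tilt, ext0]
  rw [Real.zero_rpow hα, mul_zero, zero_add, Finset.sum_div]
  apply Finset.sum_congr rfl
  intro a _
  have h0 : x a ≠ 0 := by linarith [hx a]
  rw [Real.rpow_sub_one h0]
  rcases eq_or_ne (∑ b, p b) 0 with h | h
  · rw [h]; simp
  · field_simp

end tilt

/-- Key construction: pairs of probability weights with many matching moments, and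
extremely different `α`-th moments. -/
theorem exists_pair (α : ℝ) (hα : 0 < α) (hna : ∀ m : ℕ, α ≠ m) (η : ℝ) (hη : 0 < η) :
    ∃ C c : ℝ, 0 < C ∧ 0 < c ∧ ∀ N : ℕ, ∃ (ι : Type) (_ : Fintype ι) (x u v : ι → ℝ),
      (∀ a, 0 ≤ x a) ∧ (∀ a, x a ≤ C * ((N:ℝ) + 1) ^ 2) ∧ (∀ a, 0 ≤ u a) ∧ (∀ a, 0 ≤ v a) ∧
      ∑ a, u a = 1 ∧ ∑ a, v a = 1 ∧ ∑ a, u a * x a = 1 ∧ ∑ a, v a * x a = 1 ∧
      (∀ d ≤ N, ∑ a, u a * x a ^ d = ∑ a, v a * x a ^ d) ∧
      ∑ a, u a * x a ^ 2 ≤ C ∧ ∑ a, v a * x a ^ 2 ≤ C ∧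
      c ≤ ∑ a, u a * x a ^ α ∧ ∑ a, v a * x a ^ α ≤ η * ∑ a, u a * x a ^ α := by
  set r : ℕ := ⌊α⌋₊ with hr
  have hrα : (r:ℝ) < α := lt_of_le_of_ne (Nat.floor_le hα.le) (fun h => hna r h.symm)
  have hαr : α < r + 1 := Nat.lt_floor_add_one α
  set s : ℝ := α - 1 with hs
  set ρ : ℝ := min (s - r + 1) (r - s) with hρ
  have hρ0 : 0 < ρ := lt_min (by linarith) (by linarith)
  have hρ1 : ρ ≤ s - r + 1 := min_le_left _ _
  have hρ2 : ρ ≤ r - s := min_le_right _ _
  set q : ℕ := r + 3 with hq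
  have hqr : (q:ℝ) = r + 3 := by rw [hq]; push_cast; ring
  have hr0 : (0:ℝ) ≤ r := Nat.cast_nonneg r
  -- choose K
  set K : ℝ := max (2 * ((q:ℝ) + 2)) (((2 * q + 8) / η) ^ (1 / ρ)) with hK
  have hK1 : 2 * ((q:ℝ) + 2) ≤ K := le_max_left _ _
  have hK2 : ((2 * q + 8) / η) ^ (1 / ρ) ≤ K := le_max_right _ _
  have hKone : 1 < K := by linarith
  have hK0 : 0 < K := by linarith
  have hKρ : (2 * q + 8) / η ≤ K ^ ρ := by
    have h1 : (0:ℝ) ≤ (2 * q + 8) / η := by positivity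
    have h2 : (((2 * q + 8) / η) ^ (1 / ρ)) ^ ρ ≤ K ^ ρ :=
      Real.rpow_le_rpow (by positivity) hK2 hρ0.le
    rwa [← Real.rpow_mul h1, one_div_mul_cancel hρ0.ne', Real.rpow_one] at h2
  set E : ℕ → ℝ := fun i => ((q:ℝ) * (q - 1) + i * (i - 1)) / 2 with hE
  set C : ℝ := 2 * K ^ ((q:ℝ) + E 0) * (2 * q + 8) with hC
  set c : ℝ := K ^ ((r:ℝ) * s - E r) / (2 * q + 8) with hc
  have hCK : K ^ q ≤ C := by
    have h1 : K ^ q = K ^ (q:ℝ) := (Real.rpow_natCast K q).symm
    have h2 : K ^ (q:ℝ) ≤ K ^ ((q:ℝ) + E 0) := by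
      apply Real.rpow_le_rpow_of_exponent_le hKone.le
      have : 0 ≤ E 0 := by simp only [hE]; rw [hqr]; push_cast; nlinarith
      linarith
    have h3 : 0 < K ^ ((q:ℝ) + E 0) := by positivity
    rw [h1, hC]
    nlinarith
  have hCpos : 0 < C := by positivity
  refine ⟨C, c, hCpos, by positivity, ?_⟩
  intro N
  set x := node K q N with hx
  have hx1 : ∀ a, 1 ≤ x a := node_ge_one hKone.le q N
  have hT := nodeT_pos hKone.le q N
  set T := nodeT K q N with hTdef
  set w := wt K q N with hw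
  set R : Fin q ⊕ Fin N := Sum.inl ⟨r, by omega⟩ with hR
  -- annihilation
  have hann : ∀ d : ℕ, d + 1 < q + N → ∑ a, w a * x a ^ d = 0 := by
    intro d hd
    apply sum_nodalWeight_mul_pow univ x
    · exact (node_injective hKone q N).injOn
    · simp only [card_univ, Fintype.card_sum, Fintype.card_fin]; exact hd
  -- total estimates
  have hsum0 : (∑ a, |w a|) * T ≤ (2 * q + 8) := by
    have h1 := sum_wt_le q N hK1 univ 0 0 (by rw [hqr]; linarith)
      (by
        intro i _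
        have : (0:ℝ) ≤ ((i:ℕ):ℝ) * (((i:ℕ):ℝ) - 1) := by
          rcases Nat.eq_zero_or_pos (i:ℕ) with h | h
          · rw [h]; simp
          · have : (1:ℝ) ≤ ((i:ℕ):ℝ) := by exact_mod_cast h
            nlinarith
        rw [hqr]; nlinarith)
      (by rw [hqr]; nlinarith)
    rw [Real.rpow_zero, mul_one] at h1
    rw [Fintype.sum_sum_type, add_mul, Finset.sum_mul, Finset.sum_mul]
    simpa using h1
  have hsum1 : (∑ a, |w a| * x a) * T ≤ (2 * q + 8) * K ^ (q:ℝ) := by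
    have h1 := sum_wt_le q N hK1 univ 1 q (by rw [hqr]; linarith)
      (by
        intro i _
        have h2 : (0:ℝ) ≤ ((i:ℕ):ℝ) * (((i:ℕ):ℝ) - 1) := by
          rcases Nat.eq_zero_or_pos (i:ℕ) with h | h
          · rw [h]; simp
          · have : (1:ℝ) ≤ ((i:ℕ):ℝ) := by exact_mod_cast h
            nlinarith
        have h3 : ((i:ℕ):ℝ) ≤ q := by exact_mod_cast i.2.le
        have h4 : (0:ℝ) ≤ (q:ℝ) * (q - 1) := by rw [hqr]; nlinarith
        linarith)
      (by rw [hqr]; nlinarith)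
    rw [Fintype.sum_sum_type, add_mul, Finset.sum_mul, Finset.sum_mul]
    simpa using h1
  have hw0 : K ^ (-(E 0)) ≤ (∑ a, |w a|) * T := by
    have h1 := wt_near_ge hKone q N (⟨0, by omega⟩ : Fin q)
    have h2 : |wt K q N (Sum.inl (⟨0, by omega⟩ : Fin q))| ≤ ∑ a, |w a| :=
      Finset.single_le_sum (f := fun a => |w a|) (fun a _ => abs_nonneg _) (mem_univ _)
    calc K ^ (-(E 0)) = K ^ (-(((q:ℝ) * (q - 1) + ((0:ℕ):ℝ) * (((0:ℕ):ℝ) - 1)) / 2) : ℝ) := rfl
      _ ≤ |wt K q N (Sum.inl (⟨0, by omega⟩ : Fin q))| * T := h1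
      _ ≤ _ := mul_le_mul_of_nonneg_right h2 hT.le
  have hwpos : 0 < ∑ a, |w a| := by
    have : 0 < (∑ a, |w a|) * T := lt_of_lt_of_le (by positivity) hw0
    exact pos_of_mul_pos_left this hT.le
  have hψ : ∀ i : ℕ, i ≤ q → i ≠ r → (i:ℝ) * s - E i ≤ (r:ℝ) * s - E r - ρ := by
    intro i _ hir
    simp only [hE]
    rcases lt_or_gt_of_ne hir with h | h
    · have h1 : (i:ℝ) + 1 ≤ r := by exact_mod_cast h
      have h3 : s - (r + i - 1) / 2 ≥ s - r + 1 := by linarith
      have h2 : ((r:ℝ) - i) * (s - (r + i - 1) / 2) ≥ ρ := by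
        have h4 : 0 ≤ ((r:ℝ) - i - 1) * (s - (r + i - 1) / 2) :=
          mul_nonneg (by linarith) (by linarith)
        have h5 : ((r:ℝ) - i) * (s - (r + i - 1) / 2)
          = ((r:ℝ) - i - 1) * (s - (r + i - 1) / 2) + (s - (r + i - 1) / 2) := by ring
        linarith
      have h6 : (r:ℝ) * s - ((q:ℝ) * (q - 1) + r * (r - 1)) / 2
        - ((i:ℝ) * s - ((q:ℝ) * (q - 1) + i * (i - 1)) / 2) = ((r:ℝ) - i) * (s - (r + i - 1) / 2) := by
        ring
      linarith
    · have h1 : (r:ℝ) + 1 ≤ i := by exact_mod_cast h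
      have h3 : (r + i - 1) / 2 - s ≥ r - s := by linarith
      have h2 : ((i:ℝ) - r) * ((r + i - 1) / 2 - s) ≥ ρ := by
        have h4 : 0 ≤ ((i:ℝ) - r - 1) * ((r + i - 1) / 2 - s) :=
          mul_nonneg (by linarith) (by linarith)
        have h5 : ((i:ℝ) - r) * ((r + i - 1) / 2 - s)
          = ((i:ℝ) - r - 1) * ((r + i - 1) / 2 - s) + ((r + i - 1) / 2 - s) := by ring
        linarith
      have h6 : (r:ℝ) * s - ((q:ℝ) * (q - 1) + r * (r - 1)) / 2
        - ((i:ℝ) * s - ((q:ℝ) * (q - 1) + i * (i - 1)) / 2) = ((i:ℝ) - r) * ((r + i - 1) / 2 - s) := by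
        ring
      linarith
  have hrest : (∑ a ∈ univ.erase R, |w a| * x a ^ s) * T ≤ η * (|w R| * x R ^ s * T) := by
    have h1 := sum_wt_le q N hK1 (univ.erase ⟨r, by omega⟩) s ((r:ℝ) * s - E r - ρ)
      (by rw [hqr]; linarith)
      (by
        intro i hi
        have h2 : (i:ℕ) ≠ r := by
          intro h
          exact (Finset.ne_of_mem_erase hi) (Fin.ext h)
        exact hψ i i.2.le h2)
      (by
        have h2 := hψ q le_rfl (by omega)
        simp only [hE] at h2 ⊢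
        have h3 : (q:ℝ) * s - (q * (q - 1) + q * (q - 1)) / 2 = q * (s + 1 - q) := by ring
        rw [h3] at h2
        exact h2)
    have h2 : (univ.erase R : Finset (Fin q ⊕ Fin N)) = (univ.erase ⟨r, by omega⟩).disjSum univ := by
      ext (y | y) <;> simp [hR]
    rw [h2, Finset.sum_disjSum, add_mul, Finset.sum_mul, Finset.sum_mul]
    refine le_trans h1 ?_
    have h3 := wt_near_ge hKone q N (⟨r, by omega⟩ : Fin q)
    have h4 : x R ^ s = K ^ ((r:ℝ) * s) := by
      show (K ^ r) ^ s = _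
      rw [← Real.rpow_natCast, ← Real.rpow_mul hK0.le]
    have h5 : K ^ ((r:ℝ) * s - E r) ≤ |w R| * x R ^ s * T := by
      calc K ^ ((r:ℝ) * s - E r) = K ^ (-(E r)) * K ^ ((r:ℝ) * s) := by
            rw [← Real.rpow_add hK0]; congr 1; ring
        _ ≤ (|w R| * T) * K ^ ((r:ℝ) * s) := mul_le_mul_of_nonneg_right h3 (by positivity)
        _ = |w R| * x R ^ s * T := by rw [h4]; ring
    calc (2 * (q:ℝ) + 8) * K ^ ((r:ℝ) * s - E r - ρ) = ((2 * (q:ℝ) + 8) / K ^ ρ) * K ^ ((r:ℝ) * s - E r) := by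
          rw [Real.rpow_sub hK0 _ ρ]; ring
      _ ≤ η * K ^ ((r:ℝ) * s - E r) := by
          apply mul_le_mul_of_nonneg_right _ (by positivity)
          rw [div_le_iff₀ (by positivity)]
          rw [div_le_iff₀ hη] at hKρ
          linarith
      _ ≤ _ := mul_le_mul_of_nonneg_left h5 hη.le
  have hrest' : (∑ a ∈ univ.erase R, |w a| * x a ^ s) ≤ η * (|w R| * x R ^ s) := by
    have : (∑ a ∈ univ.erase R, |w a| * x a ^ s) * T ≤ (η * (|w R| * x R ^ s)) * T := by
      calc _ ≤ _ := hrest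
        _ = _ := by ring
    exact le_of_mul_le_mul_right this hT
  have hRlow : K ^ ((r:ℝ) * s - E r) ≤ |w R| * x R ^ s * T := by
    have h3 := wt_near_ge hKone q N (⟨r, by omega⟩ : Fin q)
    have h4 : x R ^ s = K ^ ((r:ℝ) * s) := by
      show (K ^ r) ^ s = _
      rw [← Real.rpow_natCast, ← Real.rpow_mul hK0.le]
    calc K ^ ((r:ℝ) * s - E r) = K ^ (-(E r)) * K ^ ((r:ℝ) * s) := by
          rw [← Real.rpow_add hK0]; congr 1; ring
      _ ≤ (|w R| * T) * K ^ ((r:ℝ) * s) := mul_le_mul_of_nonneg_right h3 (by positivity)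
      _ = |w R| * x R ^ s * T := by rw [h4]; ring
  -- sign
  have hwR : w R ≠ 0 := by
    intro h
    rw [h] at hRlow
    simp at hRlow
    have : 0 < K ^ ((r:ℝ) * s - E r) := by positivity
    linarith
  obtain ⟨σ, hσ, hσw⟩ : ∃ σ : ℝ, (σ = 1 ∨ σ = -1) ∧ σ * w R = |w R| := by
    rcases lt_or_gt_of_ne hwR with h | h
    · exact ⟨-1, Or.inr rfl, by rw [abs_of_neg h]; ring⟩
    · exact ⟨1, Or.inl rfl, by rw [abs_of_pos h]; ring⟩
  have hσabs : ∀ a, |σ * w a| = |w a| := by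
    intro a
    rw [abs_mul]
    rcases hσ with h | h <;> rw [h] <;> simp
  set P : Fin q ⊕ Fin N → ℝ := fun a => max (σ * w a) 0 with hP
  set Q : Fin q ⊕ Fin N → ℝ := fun a => max (-(σ * w a)) 0 with hQ
  have hPQ : ∀ a, P a - Q a = σ * w a := by
    intro a
    simp only [hP, hQ]
    rcases le_total (σ * w a) 0 with h | h
    · rw [max_eq_right h, max_eq_left (by linarith)]; ring
    · rw [max_eq_left h, max_eq_right (by linarith)]; ring
  have hPQ' : ∀ a, P a + Q a = |w a| := by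
    intro a
    rw [← hσabs a]
    simp only [hP, hQ]
    rcases le_total (σ * w a) 0 with h | h
    · rw [max_eq_right h, max_eq_left (by linarith), abs_of_nonpos h]; ring
    · rw [max_eq_left h, max_eq_right (by linarith), abs_of_nonneg h]; ring
  have hP0 : ∀ a, 0 ≤ P a := fun a => le_max_right _ _
  have hQ0 : ∀ a, 0 ≤ Q a := fun a => le_max_right _ _
  have hmom : ∀ d : ℕ, d + 1 < q + N → ∑ a, P a * x a ^ d = ∑ a, Q a * x a ^ d := by
    intro d hd
    have h1 := hann d hd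
    have h2 : ∑ a, P a * x a ^ d - ∑ a, Q a * x a ^ d = σ * ∑ a, w a * x a ^ d := by
      rw [← Finset.sum_sub_distrib, Finset.mul_sum]
      apply Finset.sum_congr rfl
      intro a _
      rw [← sub_mul, hPQ, mul_assoc]
    rw [h1, mul_zero] at h2
    linarith
  have hPQsum : ∑ a, P a = ∑ a, Q a := by
    have := hmom 0 (by omega)
    simpa using this
  have hPsum2 : 2 * ∑ a, P a = ∑ a, |w a| := by
    have : ∑ a, P a + ∑ a, Q a = ∑ a, |w a| := by
      rw [← Finset.sum_add_distrib]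
      exact Finset.sum_congr rfl (fun a _ => hPQ' a)
    linarith
  have hPpos : 0 < ∑ a, P a := by linarith
  have hQpos : 0 < ∑ a, Q a := by linarith
  have hPle : ∀ a, P a ≤ |w a| := fun a => by linarith [hPQ' a, hQ0 a]
  have hQle : ∀ a, Q a ≤ |w a| := fun a => by linarith [hPQ' a, hP0 a]
  have hPR : P R = |w R| := by
    simp only [hP]
    rw [hσw, max_eq_left (abs_nonneg _)]
  have hQR : Q R = 0 := by linarith [hPQ' R]
  have hPsumT : (∑ a, P a) * T ≥ K ^ (-(E 0)) / 2 := by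
    have : (∑ a, P a) * T = ((∑ a, |w a|) * T) / 2 := by rw [← hPsum2]; ring
    rw [this]
    linarith
  have hα1 : α - 1 = s := rfl
  refine ⟨Option (Fin q ⊕ Fin N), inferInstance, ext0 x, tilt x P, tilt x Q, ?_, ?_, ?_, ?_, ?_, ?_, ?_, ?_, ?_, ?_, ?_, ?_, ?_⟩
  · rintro (_ | a)
    · exact le_rfl
    · show 0 ≤ x a
      linarith [hx1 a]
  · rintro (_ | a)
    · show 0 ≤ _
      positivity
    · show x a ≤ _
      have hN0 : (0:ℝ) ≤ N := Nat.cast_nonneg N
      have hN1 : (1:ℝ) ≤ ((N:ℝ) + 1) ^ 2 := one_le_pow₀ (by linarith)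
      rcases a with i | j
      · calc K ^ (i:ℕ) ≤ K ^ q := pow_le_pow_right₀ hKone.le i.2.le
          _ ≤ C := hCK
          _ ≤ C * ((N:ℝ) + 1) ^ 2 := by nlinarith
      · show K ^ q * (((j:ℕ):ℝ) + 1) ^ 2 ≤ _
        apply mul_le_mul hCK _ (by positivity) hCpos.le
        apply pow_le_pow_left₀ (by positivity)
        have : ((j:ℕ):ℝ) ≤ N := by exact_mod_cast j.2.le
        linarith
  · exact tilt_nonneg x P hx1 hP0 hPpos
  · exact tilt_nonneg x Q hx1 hQ0 hQpos
  · exact tilt_sum x P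
  · exact tilt_sum x Q
  · have := tilt_pow x P hx1 0
    simp only [zero_add, pow_one, pow_zero, mul_one] at this
    rw [this, div_self hPpos.ne']
  · have := tilt_pow x Q hx1 0
    simp only [zero_add, pow_one, pow_zero, mul_one] at this
    rw [this, div_self hQpos.ne']
  · intro d hd
    rcases d with _ | d
    · simp only [pow_zero, mul_one]
      rw [tilt_sum, tilt_sum]
    · rw [tilt_pow x P hx1 d, tilt_pow x Q hx1 d, ← hPQsum, hmom d (by omega)]
  · have h1 := tilt_pow x P hx1 1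
    simp only [pow_one] at h1
    have h1' : ∑ o, tilt x P o * ext0 x o ^ 2 = (∑ a, P a * x a) / ∑ a, P a := h1
    rw [h1', div_le_iff₀ hPpos]
    have h2 : (∑ a, P a * x a) * T ≤ (C * ∑ a, P a) * T := by
      calc (∑ a, P a * x a) * T ≤ (∑ a, |w a| * x a) * T := by
            apply mul_le_mul_of_nonneg_right _ hT.le
            apply Finset.sum_le_sum
            intro a _
            exact mul_le_mul_of_nonneg_right (hPle a) (by linarith [hx1 a])
        _ ≤ (2 * q + 8) * K ^ (q:ℝ) := hsum1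
        _ = C * (K ^ (-(E 0)) / 2) := by
            rw [hC, Real.rpow_add hK0, Real.rpow_neg hK0.le]
            have : K ^ (E 0) ≠ 0 := by positivity
            field_simp
        _ ≤ C * ((∑ a, P a) * T) := mul_le_mul_of_nonneg_left hPsumT hCpos.le
        _ = _ := by ring
    exact le_of_mul_le_mul_right h2 hT
  · have h1 := tilt_pow x Q hx1 1
    simp only [pow_one] at h1
    have h1' : ∑ o, tilt x Q o * ext0 x o ^ 2 = (∑ a, Q a * x a) / ∑ a, Q a := h1
    rw [h1', div_le_iff₀ hQpos]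
    have h2 : (∑ a, Q a * x a) * T ≤ (C * ∑ a, Q a) * T := by
      calc (∑ a, Q a * x a) * T ≤ (∑ a, |w a| * x a) * T := by
            apply mul_le_mul_of_nonneg_right _ hT.le
            apply Finset.sum_le_sum
            intro a _
            exact mul_le_mul_of_nonneg_right (hQle a) (by linarith [hx1 a])
        _ ≤ (2 * q + 8) * K ^ (q:ℝ) := hsum1
        _ = C * (K ^ (-(E 0)) / 2) := by
            rw [hC, Real.rpow_add hK0, Real.rpow_neg hK0.le]
            have : K ^ (E 0) ≠ 0 := by positivity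
            field_simp
        _ ≤ C * ((∑ a, P a) * T) := mul_le_mul_of_nonneg_left hPsumT hCpos.le
        _ = _ := by rw [hPQsum]; ring
    exact le_of_mul_le_mul_right h2 hT
  · rw [tilt_rpow x P hx1 α hα.ne', hα1, le_div_iff₀ hPpos]
    have h1 : P R * x R ^ s ≤ ∑ a, P a * x a ^ s :=
      Finset.single_le_sum (f := fun a => P a * x a ^ s)
        (fun a _ => mul_nonneg (hP0 a) (Real.rpow_nonneg (by linarith [hx1 a]) _)) (mem_univ R)
    refine le_trans ?_ h1
    have h2 : (c * ∑ a, P a) * T ≤ (P R * x R ^ s) * T := by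
      calc (c * ∑ a, P a) * T ≤ (c * ∑ a, |w a|) * T := by
            apply mul_le_mul_of_nonneg_right _ hT.le
            apply mul_le_mul_of_nonneg_left _ (by positivity)
            exact Finset.sum_le_sum (fun a _ => hPle a)
        _ = c * ((∑ a, |w a|) * T) := by ring
        _ ≤ c * (2 * q + 8) := mul_le_mul_of_nonneg_left hsum0 (by positivity)
        _ = K ^ ((r:ℝ) * s - E r) := by rw [hc]; field_simp
        _ ≤ |w R| * x R ^ s * T := hRlow
        _ = _ := by rw [hPR]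
    exact le_of_mul_le_mul_right h2 hT
  · rw [tilt_rpow x P hx1 α hα.ne', tilt_rpow x Q hx1 α hα.ne', hα1, ← hPQsum, ← mul_div_assoc]
    apply div_le_div_of_nonneg_right _ hPpos.le
    have h1 : P R * x R ^ s ≤ ∑ a, P a * x a ^ s :=
      Finset.single_le_sum (f := fun a => P a * x a ^ s)
        (fun a _ => mul_nonneg (hP0 a) (Real.rpow_nonneg (by linarith [hx1 a]) _)) (mem_univ R)
    calc ∑ a, Q a * x a ^ s = Q R * x R ^ s + ∑ a ∈ univ.erase R, Q a * x a ^ s := by
          exact (Finset.add_sum_erase univ (fun a => Q a * x a ^ s) (mem_univ R)).symm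
      _ = ∑ a ∈ univ.erase R, Q a * x a ^ s := by rw [hQR]; ring
      _ ≤ ∑ a ∈ univ.erase R, |w a| * x a ^ s := by
          apply Finset.sum_le_sum
          intro a _
          exact mul_le_mul_of_nonneg_right (hQle a) (Real.rpow_nonneg (by linarith [hx1 a]) _)
      _ ≤ η * (|w R| * x R ^ s) := hrest'
      _ = η * (P R * x R ^ s) := by rw [hPR]
      _ ≤ _ := mul_le_mul_of_nonneg_left h1 hη.le

end Pool.Agent.Helper82_Renyi
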