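import Pool.Agent.Helper82_Renyi.Est
import Pool.Agent.Helper82_Renyi.Master

set_option linter.unusedSectionVars false

open Finset Polynomial

namespace Pool.Agent.Helper82_Renyi

theorem sum_biUnion_le {κ ι : Type} [Fintype κ] [DecidableEq ι] (B : κ → Finset ι) (f : ι → ℝ)
    (hf : ∀ s, 0 ≤ f s) : ∑ s ∈ univ.biUnion B, f s ≤ ∑ x, ∑ s ∈ B x, f s := by
  classical
  have h : ∀ S : Finset κ, ∑ s ∈ S.biUnion B, f s ≤ ∑ x ∈ S, ∑ s ∈ B x, f s := by
    intro S
    induction S using Finset.induction_on with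
    | empty => simp
    | insert a S ha ih =>
      rw [Finset.biUnion_insert, Finset.sum_insert ha]
      have h1 := Finset.sum_union_inter (s₁ := B a) (s₂ := S.biUnion B) (f := f)
      have h2 : 0 ≤ ∑ s ∈ B a ∩ S.biUnion B, f s := Finset.sum_nonneg (fun s _ => hf s)
      linarith
  exact h univ

section upper
variable {k n : ℕ}

/-- the estimator of the power sum from two independent samples of size `n` -/
noncomputable def Fhat (Q : ℝ[X]) (D : ℕ) (lam α : ℝ) (s1 s2 : Fin n → Fin k) : ℝ :=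
  ∑ x, if lam < (num s1 x : ℝ) then ((num s1 x : ℝ) / n) ^ α
    else pe Q D (2 * lam / n) α n (num s2 x)

/-- good event for the first sample -/
def G1 (p : Fin k → ℝ) (lam v : ℝ) (s1 : Fin n → Fin k) : Prop :=
  ∀ x, (p x < lam / (2 * n) → (num s1 x : ℝ) ≤ lam) ∧
    (lam / (2 * n) ≤ p x → |(num s1 x : ℝ) - n * p x| ≤ v * (n * p x))

theorem bad1_le {p : Fin k → ℝ} (hp0 : ∀ x, 0 ≤ p x) (hp : ∑ x, p x = 1) (hn : 0 < n)
    (lam v : ℝ) (hlam : 0 < lam) (hv : 0 < v) (hv1 : v ≤ 1) [DecidablePred (G1 (n := n) p lam v)] :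
    ∑ s1 : Fin n → Fin k with ¬ G1 p lam v s1, pr p s1 ≤ 2 * k * Real.exp (-(lam * v ^ 2 / 8)) := by
  classical
  have hn0 : (0:ℝ) < n := by exact_mod_cast hn
  set Bx : Fin k → Finset (Fin n → Fin k) := fun x => univ.filter (fun s1 =>
    ¬ ((p x < lam / (2 * n) → (num s1 x : ℝ) ≤ lam) ∧
    (lam / (2 * n) ≤ p x → |(num s1 x : ℝ) - n * p x| ≤ v * (n * p x)))) with hBx
  have h1 : ∀ x, ∑ s1 ∈ Bx x, pr p s1 ≤ 2 * Real.exp (-(lam * v ^ 2 / 8)) := by
    intro x
    rcases lt_or_ge (p x) (lam / (2 * n)) with h | h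
    · have h2 : Bx x ⊆ univ.filter (fun s1 : Fin n → Fin k => lam ≤ (num s1 x : ℝ)) := by
        intro s1 hs1
        simp only [hBx, mem_filter, mem_univ, true_and] at hs1 ⊢
        by_contra hcon
        apply hs1
        refine ⟨fun _ => by linarith, fun h3 => absurd h3 (not_le.mpr h)⟩
      have h3 := upper_tail (n := n) hp0 hp x (1/2) lam (by norm_num)
      calc ∑ s1 ∈ Bx x, pr p s1 ≤ ∑ s1 : Fin n → Fin k with lam ≤ (num s1 x : ℝ), pr p s1 :=
            Finset.sum_le_sum_of_subset_of_nonneg h2 (fun s _ _ => pr_nonneg hp0 s)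
        _ ≤ _ := h3
        _ ≤ Real.exp (-(lam * v ^ 2 / 8)) := by
            apply Real.exp_le_exp.mpr
            have h4 := exp_sub_one_le (1/2) (by rw [abs_of_pos (by norm_num)]; norm_num)
            have h5 : (n:ℝ) * p x ≤ lam / 2 := by
              calc (n:ℝ) * p x ≤ n * (lam / (2 * n)) := mul_le_mul_of_nonneg_left h.le hn0.le
                _ = lam / 2 := by field_simp
            have h6 : (n:ℝ) * p x * (Real.exp (1/2) - 1) ≤ (lam / 2) * (3 / 4) := by
              apply mul_le_mul h5 (by linarith) _ (by linarith)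
              have := Real.add_one_le_exp (1/2 : ℝ)
              linarith
            have h7 : v ^ 2 ≤ 1 := pow_le_one₀ hv.le hv1
            nlinarith
        _ ≤ _ := by have := Real.exp_pos (-(lam * v ^ 2 / 8)); linarith
    · have h2 : Bx x ⊆ univ.filter (fun s1 : Fin n → Fin k => ¬ |(num s1 x : ℝ) - n * p x| ≤ v * (n * p x)) := by
        intro s1 hs1
        simp only [hBx, mem_filter, mem_univ, true_and] at hs1 ⊢
        intro hcon
        apply hs1
        exact ⟨fun h3 => absurd h (not_le.mpr h3), fun _ => hcon⟩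
      have h3 := rel_dev (n := n) hp0 hp x v hv hv1
      calc ∑ s1 ∈ Bx x, pr p s1 ≤ ∑ s1 : Fin n → Fin k with ¬ |(num s1 x : ℝ) - n * p x| ≤ v * (n * p x), pr p s1 :=
            Finset.sum_le_sum_of_subset_of_nonneg h2 (fun s _ _ => pr_nonneg hp0 s)
        _ ≤ _ := h3
        _ ≤ _ := by
            apply mul_le_mul_of_nonneg_left _ (by norm_num)
            apply Real.exp_le_exp.mpr
            have h5 : lam / 2 ≤ (n:ℝ) * p x := by
              calc lam / 2 = n * (lam / (2 * n)) := by field_simp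
                _ ≤ n * p x := mul_le_mul_of_nonneg_left h hn0.le
            have h6 : 0 < v ^ 2 := by positivity
            nlinarith
  have h2 : (univ.filter (fun s1 : Fin n → Fin k => ¬ G1 p lam v s1)) ⊆ univ.biUnion Bx := by
    intro s1 hs1
    simp only [mem_filter, mem_univ, true_and, G1, not_forall] at hs1
    obtain ⟨x, hx⟩ := hs1
    simp only [mem_biUnion, mem_univ, true_and]
    refine ⟨x, ?_⟩
    simp only [hBx, mem_filter, mem_univ, true_and]
    exact hx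
  calc ∑ s1 : Fin n → Fin k with ¬ G1 p lam v s1, pr p s1 ≤ ∑ s1 ∈ univ.biUnion Bx, pr p s1 :=
        Finset.sum_le_sum_of_subset_of_nonneg h2 (fun s _ _ => pr_nonneg hp0 s)
    _ ≤ ∑ x, ∑ s1 ∈ Bx x, pr p s1 := sum_biUnion_le Bx _ (fun s => pr_nonneg hp0 s)
    _ ≤ ∑ x : Fin k, 2 * Real.exp (-(lam * v ^ 2 / 8)) := Finset.sum_le_sum (fun x _ => h1 x)
    _ = _ := by rw [Finset.sum_const, card_univ, Fintype.card_fin, nsmul_eq_mul]; ring

/-- second half: failure probability given a good first half -/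
theorem bad2_le {p : Fin k → ℝ} (hp0 : ∀ x, 0 ≤ p x) (hp : ∑ x, p x = 1) (hn : 0 < n)
    (Q : ℝ[X]) (D : ℕ) (hQ : Q.natDegree ≤ D)
    (hCB : ∀ R : ℝ, 0 ≤ R → CB R (2 * (3 + 2 * R) ^ D) Q) (lam α : ℝ)
    (hlam : 0 < lam) (hDn : D ≤ n) (hθ : 4 * (D:ℝ) / (6 * lam) ≤ 1)
    (S : Finset (Fin k)) (hS : ∀ x ∈ S, p x ≤ 2 * lam / n) (b V : ℝ) (hb : 0 < b)
    (hV : ((2 * lam / n) ^ α) ^ 2 * ((k : ℝ) * (4 * 9 ^ D * Real.exp (8 * D / 3))
        + (k : ℝ) ^ 2 * (((D:ℝ) ^ 2 / n) * (2 * 5 ^ D) ^ 2)) ≤ V * b ^ 2) :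
    ∑ s2 : Fin n → Fin k with ¬ |∑ x ∈ S, (pe Q D (2 * lam / n) α n (num s2 x)
        - (2 * lam / n) ^ α * Q.eval (p x / (2 * lam / n)))| ≤ b, pr p s2 ≤ V := by
  have hn0 : (0:ℝ) < n := by exact_mod_cast hn
  have hτ : 0 < 2 * lam / n := by positivity
  have h1 := pe_var (n := n) Q D hQ hCB (2 * lam / n) α hτ hn hDn (by
    have : 3 * ((n:ℝ) * (2 * lam / n)) = 6 * lam := by field_simp; ring
    rw [this]; exact hθ) hp0 hp S hS
  rw [Fintype.card_fin] at h1
  have h2 := cheb (fun s2 : Fin n → Fin k => pr p s2) (fun s2 => ∑ x ∈ S, (pe Q D (2 * lam / n) α n (num s2 x)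
        - (2 * lam / n) ^ α * Q.eval (p x / (2 * lam / n)))) (fun s => pr_nonneg hp0 s) b hb
  refine le_trans h2 ?_
  rw [div_le_iff₀ (by positivity)]
  exact le_trans h1 hV

/-- on the good events the estimator is accurate -/
theorem accurate (α : ℝ) (hα : 0 < α) {p : Fin k → ℝ} (hp0 : ∀ x, 0 ≤ p x) (hn : 0 < n)
    (Q : ℝ[X]) (D : ℕ) (lam v t eb F0 : ℝ) (hlam : 0 < lam) (hv : 0 < v) (hv2 : v ≤ 1 / 2)
    (ht : 0 < t) (hvt1 : (1 + v) ^ α ≤ 1 + t) (hvt2 : 1 - t ≤ (1 - v) ^ α)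
    (hQ : ∀ y : ℝ, 0 ≤ y → y ≤ 1 → |Q.eval y - y ^ α| ≤ t * y ^ α + eb)
    (hF0 : F0 ≤ ∑ x, p x ^ α) (hbias : (k:ℝ) * ((2 * lam / n) ^ α * eb) ≤ t * F0) (heb : 0 ≤ eb)
    (s1 s2 : Fin n → Fin k) (hG1 : G1 p lam v s1) :
    (∀ x ∈ univ.filter (fun x => (num s1 x : ℝ) ≤ lam), p x ≤ 2 * lam / n) ∧
    (|∑ x ∈ univ.filter (fun x => (num s1 x : ℝ) ≤ lam), (pe Q D (2 * lam / n) α n (num s2 x)
        - (2 * lam / n) ^ α * Q.eval (p x / (2 * lam / n)))| ≤ t * ∑ x, p x ^ α →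
    |Fhat Q D lam α s1 s2 - ∑ x, p x ^ α| ≤ 3 * t * ∑ x, p x ^ α) := by
  have hn0 : (0:ℝ) < n := by exact_mod_cast hn
  have hτ : 0 < 2 * lam / n := by positivity
  set τ := 2 * lam / n with hτdef
  set S := univ.filter (fun x => (num s1 x : ℝ) ≤ lam) with hS
  have hsmall : ∀ x ∈ S, p x ≤ τ := by
    intro x hx
    simp only [hS, mem_filter, mem_univ, true_and] at hx
    rcases lt_or_ge (p x) (lam / (2 * n)) with h | h
    · have h1 : lam / (2 * n) ≤ 2 * lam / n := by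
        rw [div_le_div_iff₀ (by positivity) hn0]
        nlinarith
      linarith
    · have h1 := (hG1 x).2 h
      have h2 := (abs_le.mp h1).1
      have h3 : (1 - v) * (n * p x) ≤ lam := by linarith
      rw [hτdef, le_div_iff₀ hn0]
      have hnp : 0 ≤ (n:ℝ) * p x := mul_nonneg hn0.le (hp0 x)
      nlinarith
  refine ⟨hsmall, ?_⟩
  intro hvar
  have hlarge : ∀ x, lam < (num s1 x : ℝ) → |((num s1 x : ℝ) / n) ^ α - p x ^ α| ≤ t * p x ^ α := by
    intro x hx
    have h0 : lam / (2 * n) ≤ p x := by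
      by_contra hcon
      push Not at hcon
      have := (hG1 x).1 hcon
      linarith
    have h1 := (hG1 x).2 h0
    have hpx : 0 < p x := lt_of_lt_of_le (by positivity) h0
    obtain ⟨h2, h3⟩ := abs_le.mp h1
    have h4 : (num s1 x : ℝ) / n ≤ (1 + v) * p x := by
      rw [div_le_iff₀ hn0]; linarith
    have h5 : (1 - v) * p x ≤ (num s1 x : ℝ) / n := by
      rw [le_div_iff₀ hn0]; linarith
    have h6 : ((num s1 x : ℝ) / n) ^ α ≤ (1 + t) * p x ^ α := by
      calc ((num s1 x : ℝ) / n) ^ α ≤ ((1 + v) * p x) ^ α := Real.rpow_le_rpow (by positivity) h4 hα.le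
        _ = (1 + v) ^ α * p x ^ α := Real.mul_rpow (by linarith) hpx.le
        _ ≤ _ := mul_le_mul_of_nonneg_right hvt1 (by positivity)
    have h7 : (1 - t) * p x ^ α ≤ ((num s1 x : ℝ) / n) ^ α := by
      calc (1 - t) * p x ^ α ≤ (1 - v) ^ α * p x ^ α := mul_le_mul_of_nonneg_right hvt2 (by positivity)
        _ = ((1 - v) * p x) ^ α := (Real.mul_rpow (by linarith) hpx.le).symm
        _ ≤ _ := Real.rpow_le_rpow (mul_nonneg (by linarith) hpx.le) h5 hα.le
    rw [abs_le]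
    constructor <;> linarith
  have hmid : ∀ x ∈ S, |τ ^ α * Q.eval (p x / τ) - p x ^ α| ≤ t * p x ^ α + τ ^ α * eb := by
    intro x hx
    have h1 := hQ (p x / τ) (div_nonneg (hp0 x) hτ.le) (by rw [div_le_one hτ]; exact hsmall x hx)
    have h2 : τ ^ α * (p x / τ) ^ α = p x ^ α := by
      rw [Real.div_rpow (hp0 x) hτ.le]
      have : τ ^ α ≠ 0 := (Real.rpow_pos_of_pos hτ α).ne'
      field_simp
    have hτα : 0 < τ ^ α := Real.rpow_pos_of_pos hτ α
    calc |τ ^ α * Q.eval (p x / τ) - p x ^ α| = τ ^ α * |Q.eval (p x / τ) - (p x / τ) ^ α| := by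
          rw [← h2, ← mul_sub, abs_mul, abs_of_pos hτα]
      _ ≤ τ ^ α * (t * (p x / τ) ^ α + eb) := mul_le_mul_of_nonneg_left h1 hτα.le
      _ = t * (τ ^ α * (p x / τ) ^ α) + τ ^ α * eb := by ring
      _ = _ := by rw [h2]
  -- decomposition
  have hdec : Fhat Q D lam α s1 s2 - ∑ x, p x ^ α
      = ∑ x, (if lam < (num s1 x : ℝ) then ((num s1 x : ℝ) / n) ^ α - p x ^ α
          else τ ^ α * Q.eval (p x / τ) - p x ^ α)
        + ∑ x ∈ S, (pe Q D τ α n (num s2 x) - τ ^ α * Q.eval (p x / τ)) := by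
    rw [Fhat, ← Finset.sum_sub_distrib, hS, Finset.sum_filter, ← Finset.sum_add_distrib]
    apply Finset.sum_congr rfl
    intro x _
    by_cases h : lam < (num s1 x : ℝ)
    · rw [if_pos h, if_pos h, if_neg (not_le.mpr h)]; ring
    · rw [if_neg h, if_neg h, if_pos (not_lt.mp h)]; ring
  have hfirst : |∑ x, (if lam < (num s1 x : ℝ) then ((num s1 x : ℝ) / n) ^ α - p x ^ α
          else τ ^ α * Q.eval (p x / τ) - p x ^ α)| ≤ t * ∑ x, p x ^ α + (k:ℝ) * (τ ^ α * eb) := by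
    refine le_trans (Finset.abs_sum_le_sum_abs _ _) ?_
    calc _ ≤ ∑ x : Fin k, (t * p x ^ α + τ ^ α * eb) := by
          apply Finset.sum_le_sum
          intro x _
          have hτα : 0 ≤ τ ^ α * eb := mul_nonneg (Real.rpow_nonneg hτ.le _) heb
          by_cases h : lam < (num s1 x : ℝ)
          · rw [if_pos h]
            have := hlarge x h
            linarith
          · rw [if_neg h]
            exact hmid x (by simp only [hS, mem_filter, mem_univ, true_and]; exact not_lt.mp h)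
      _ = _ := by
          rw [Finset.sum_add_distrib, ← Finset.mul_sum, Finset.sum_const, card_univ, Fintype.card_fin, nsmul_eq_mul]
  rw [hdec]
  refine le_trans (abs_add_le _ _) ?_
  have h9 : t * F0 ≤ t * ∑ x, p x ^ α := mul_le_mul_of_nonneg_left hF0 ht.le
  linarith

/-- one-shot upper bound theorem -/
theorem upper_master (α δ ε : ℝ) (hα : 0 < α) (hα1 : α ≠ 1) (hδ : 0 < δ) (hε : 0 < ε)
    (hk : 1 ≤ k) (hn : 0 < n)
    (Q : ℝ[X]) (D : ℕ) (hQd : Q.natDegree ≤ D)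
    (hCB : ∀ R : ℝ, 0 ≤ R → CB R (2 * (3 + 2 * R) ^ D) Q)
    (lam v t eb F0 : ℝ) (hlam : 0 < lam) (hv : 0 < v) (hv2 : v ≤ 1 / 2)
    (ht : 0 < t) (ht6 : 6 * t ≤ 1) (htδ : 6 * t ≤ δ * |1 - α|)
    (hvt1 : (1 + v) ^ α ≤ 1 + t) (hvt2 : 1 - t ≤ (1 - v) ^ α)
    (hQ : ∀ y : ℝ, 0 ≤ y → y ≤ 1 → |Q.eval y - y ^ α| ≤ t * y ^ α + eb) (heb : 0 ≤ eb)
    (hF0 : 0 < F0) (hF : ∀ p ∈ stdSimplex ℝ (Fin k), F0 ≤ ∑ x, p x ^ α)
    (hbias : (k:ℝ) * ((2 * lam / n) ^ α * eb) ≤ t * F0)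
    (hDn : D ≤ n) (hθ : 4 * (D:ℝ) / (6 * lam) ≤ 1)
    (hV : ((2 * lam / n) ^ α) ^ 2 * ((k : ℝ) * (4 * 9 ^ D * Real.exp (8 * D / 3))
        + (k : ℝ) ^ 2 * (((D:ℝ) ^ 2 / n) * (2 * 5 ^ D) ^ 2)) ≤ (ε / 2) * (t * F0) ^ 2)
    (hB : 2 * (k:ℝ) * Real.exp (-(lam * v ^ 2 / 8)) ≤ ε / 4) :
    ∃ f : (Fin (n + n) → Fin k) → ℝ, ∀ p ∈ stdSimplex ℝ (Fin k),
      ∑ s : Fin (n + n) → Fin k with δ < |f s - ren α p|, ∏ t, p (s t) < ε := by
  classical
  refine ⟨fun s => Real.log (Fhat Q D lam α (fun i => s (Fin.castAdd n i)) (fun i => s (Fin.natAdd n i))) / (1 - α), ?_⟩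
  intro p hp
  have hp0 := hp.1
  have hp1 := hp.2
  set F := ∑ x, p x ^ α with hFdef
  have hFF := hF p hp
  have hFpos : 0 < F := lt_of_lt_of_le hF0 hFF
  have h1α : 0 < |1 - α| := abs_pos.mpr (sub_ne_zero.mpr hα1.symm)
  -- failure set in terms of the two halves
  set W : (Fin n → Fin k) → (Fin n → Fin k) → Prop := fun s1 s2 =>
    ¬ G1 p lam v s1 ∨ (G1 p lam v s1 ∧ ¬ |∑ x ∈ univ.filter (fun x => (num s1 x : ℝ) ≤ lam), (pe Q D (2 * lam / n) α n (num s2 x)
        - (2 * lam / n) ^ α * Q.eval (p x / (2 * lam / n)))| ≤ t * F) with hW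
  have hfail : ∀ s1 s2 : Fin n → Fin k, δ < |Real.log (Fhat Q D lam α s1 s2) / (1 - α) - ren α p| → W s1 s2 := by
    intro s1 s2 h
    by_contra hcon
    simp only [hW, not_or, not_and, not_not] at hcon
    obtain ⟨hg, hg2⟩ := hcon
    have h2 := (accurate α hα hp0 hn Q D lam v t eb F0 hlam hv hv2 ht hvt1 hvt2 hQ hFF hbias heb s1 s2 hg).2 (hg2 hg)
    obtain ⟨hpos, h3⟩ := log_close (Fhat Q D lam α s1 s2) F (3 * t) hFpos (by linarith) (by linarith) h2
    have h4 : ren α p = Real.log F / (1 - α) := rfl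
    rw [h4, ← sub_div, abs_div, lt_div_iff₀ h1α] at h
    linarith
  have hsum : ∑ s : Fin (n + n) → Fin k with δ < |Real.log (Fhat Q D lam α (fun i => s (Fin.castAdd n i)) (fun i => s (Fin.natAdd n i))) / (1 - α) - ren α p|, ∏ t, p (s t)
      ≤ ∑ s1 : Fin n → Fin k, ∑ s2 : Fin n → Fin k, if W s1 s2 then pr p s1 * pr p s2 else 0 := by
    rw [Finset.sum_filter]
    rw [← (Fin.appendEquiv n n).sum_comp (fun s : Fin (n + n) → Fin k =>
      if δ < |Real.log (Fhat Q D lam α (fun i => s (Fin.castAdd n i)) (fun i => s (Fin.natAdd n i))) / (1 - α) - ren α p| then ∏ t, p (s t) else 0)]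
    rw [Fintype.sum_prod_type]
    apply Finset.sum_le_sum
    intro s1 _
    apply Finset.sum_le_sum
    intro s2 _
    have h1 : (fun i => (Fin.appendEquiv n n (s1, s2)) (Fin.castAdd n i)) = s1 := by
      funext i; simp [Fin.appendEquiv]
    have h2 : (fun i => (Fin.appendEquiv n n (s1, s2)) (Fin.natAdd n i)) = s2 := by
      funext i
      exact Fin.append_right s1 s2 i
    have h3 : ∏ t, p ((Fin.appendEquiv n n (s1, s2)) t) = pr p s1 * pr p s2 := by
      rw [Fin.prod_univ_add, pr, pr]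
      congr 1
      · apply Finset.prod_congr rfl
        intro i _
        exact congrArg p (Fin.append_left s1 s2 i)
      · apply Finset.prod_congr rfl
        intro i _
        exact congrArg p (Fin.append_right s1 s2 i)
    rw [h1, h2, h3]
    split_ifs with h4 h5 h5
    · exact le_rfl
    · exact absurd (hfail s1 s2 h4) h5
    · exact mul_nonneg (pr_nonneg hp0 _) (pr_nonneg hp0 _)
    · exact le_rfl
  refine lt_of_le_of_lt hsum ?_
  have hinner : ∀ s1 : Fin n → Fin k, ∑ s2 : Fin n → Fin k, (if W s1 s2 then pr p s1 * pr p s2 else 0)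
      ≤ (if G1 p lam v s1 then 0 else pr p s1) + pr p s1 * (ε / 2) := by
    intro s1
    have hpr1 := pr_nonneg hp0 s1
    by_cases hg : G1 p lam v s1
    · rw [if_pos hg, zero_add]
      have h1 : ∀ s2 : Fin n → Fin k, (if W s1 s2 then pr p s1 * pr p s2 else 0)
          = pr p s1 * (if ¬ |∑ x ∈ univ.filter (fun x => (num s1 x : ℝ) ≤ lam), (pe Q D (2 * lam / n) α n (num s2 x)
        - (2 * lam / n) ^ α * Q.eval (p x / (2 * lam / n)))| ≤ t * F then pr p s2 else 0) := by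
        intro s2
        have h2 : W s1 s2 ↔ ¬ |∑ x ∈ univ.filter (fun x => (num s1 x : ℝ) ≤ lam), (pe Q D (2 * lam / n) α n (num s2 x)
        - (2 * lam / n) ^ α * Q.eval (p x / (2 * lam / n)))| ≤ t * F := by
          simp only [hW]; tauto
        by_cases h3 : W s1 s2
        · rw [if_pos h3, if_pos (h2.mp h3)]
        · rw [if_neg h3, if_neg (fun h => h3 (h2.mpr h)), mul_zero]
      rw [Finset.sum_congr rfl (fun s2 _ => h1 s2), ← Finset.mul_sum, ← Finset.sum_filter]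
      apply mul_le_mul_of_nonneg_left _ hpr1
      have hsmall : ∀ x ∈ univ.filter (fun x => (num s1 x : ℝ) ≤ lam), p x ≤ 2 * lam / n :=
        (accurate α hα hp0 hn Q D lam v t eb F0 hlam hv hv2 ht hvt1 hvt2 hQ hFF hbias heb s1 s1 hg).1
      apply bad2_le hp0 hp1 hn Q D hQd hCB lam α hlam hDn hθ _ hsmall (t * F) (ε / 2) (by positivity)
      refine le_trans hV ?_
      apply mul_le_mul_of_nonneg_left _ (by linarith)
      apply pow_le_pow_left₀ (by positivity)
      exact mul_le_mul_of_nonneg_left hFF ht.le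
    · rw [if_neg hg]
      have h1 : ∑ s2 : Fin n → Fin k, (if W s1 s2 then pr p s1 * pr p s2 else 0) ≤ ∑ s2 : Fin n → Fin k, pr p s1 * pr p s2 := by
        apply Finset.sum_le_sum
        intro s2 _
        split_ifs
        · exact le_rfl
        · exact mul_nonneg hpr1 (pr_nonneg hp0 _)
      rw [← Finset.mul_sum, sum_pr hp1, mul_one] at h1
      have : 0 ≤ pr p s1 * (ε / 2) := by positivity
      linarith
  calc ∑ s1 : Fin n → Fin k, ∑ s2 : Fin n → Fin k, (if W s1 s2 then pr p s1 * pr p s2 else 0)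
      ≤ ∑ s1 : Fin n → Fin k, ((if G1 p lam v s1 then 0 else pr p s1) + pr p s1 * (ε / 2)) :=
        Finset.sum_le_sum (fun s1 _ => hinner s1)
    _ = ∑ s1 : Fin n → Fin k with ¬ G1 p lam v s1, pr p s1 + ε / 2 := by
        rw [Finset.sum_add_distrib, ← Finset.sum_mul, sum_pr hp1, one_mul, Finset.sum_filter]
        congr 1
        apply Finset.sum_congr rfl
        intro s1 _
        by_cases hg : G1 p lam v s1 <;> simp [hg]
    _ ≤ ε / 4 + ε / 2 := by
        have := bad1_le hp0 hp1 hn lam v hlam hv (by linarith)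
        linarith
    _ < ε := by linarith

end upper

end Pool.Agent.Helper82_Renyi
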