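import Pool.Agent.Helper82_Renyi.Upper

set_option linter.unusedSectionVars false

open Finset Polynomial Filter

namespace Pool.Agent.Helper82_Renyi

theorem exists_v (α t : ℝ) (ht : 0 < t) :
    ∃ v : ℝ, 0 < v ∧ v ≤ 1 / 2 ∧ (1 + v) ^ α ≤ 1 + t ∧ 1 - t ≤ (1 - v) ^ α := by
  have h1 : ContinuousAt (fun v : ℝ => (1 + v) ^ α) 0 := by
    apply ContinuousAt.rpow_const (by fun_prop)
    left; norm_num
  have h2 : ContinuousAt (fun v : ℝ => (1 - v) ^ α) 0 := by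
    apply ContinuousAt.rpow_const (by fun_prop)
    left; norm_num
  have e1 : ∀ᶠ v in nhds (0:ℝ), (1 + v) ^ α ≤ 1 + t := by
    apply h1.eventually (ge_mem_nhds _)
    simp; linarith
  have e2 : ∀ᶠ v in nhds (0:ℝ), 1 - t ≤ (1 - v) ^ α := by
    apply h2.eventually (le_mem_nhds _)
    simp; linarith
  have e3 := (e1.and e2)
  rw [Metric.eventually_nhds_iff] at e3
  obtain ⟨r, hr, h3⟩ := e3
  refine ⟨min (r / 2) (1 / 2), by positivity, min_le_right _ _, ?_⟩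
  apply h3
  rw [Real.dist_eq, sub_zero, abs_of_pos (by positivity)]
  calc min (r / 2) (1 / 2) ≤ r / 2 := min_le_left _ _
    _ < r := by linarith

theorem power_sum_lower (α : ℝ) (hα : 0 < α) (k : ℕ) (hk : 1 ≤ k) (p : Fin k → ℝ)
    (hp : p ∈ stdSimplex ℝ (Fin k)) :
    (k:ℝ) ^ (1 - (max 1 (1 / α)) * α) ≤ ∑ x, p x ^ α := by
  have hk0 : (0:ℝ) < k := by exact_mod_cast hk
  have hp0 := hp.1
  have hp1 := hp.2
  rcases le_total α 1 with h | h
  · have he : max 1 (1 / α) = 1 / α := by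
      rw [max_eq_right]
      rw [le_div_iff₀ hα]; linarith
    rw [he, one_div_mul_cancel hα.ne', sub_self, Real.rpow_zero]
    calc (1:ℝ) = ∑ x, p x := hp1.symm
      _ ≤ ∑ x, p x ^ α := by
          apply Finset.sum_le_sum
          intro x _
          have hx1 : p x ≤ 1 := by
            rw [← hp1]; exact Finset.single_le_sum (fun y _ => hp0 y) (mem_univ x)
          exact Real.self_le_rpow_of_le_one (hp0 x) hx1 h
  · have he : max 1 (1 / α) = 1 := by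
      rw [max_eq_left]
      rw [div_le_iff₀ hα]; linarith
    rw [he, one_mul]
    have h1 := Real.rpow_sum_le_const_mul_sum_rpow (s := (univ : Finset (Fin k))) (f := p) (p := α) h
    have h2 : ∑ x, |p x| = 1 := by
      rw [← hp1]; exact Finset.sum_congr rfl (fun x _ => abs_of_nonneg (hp0 x))
    have h3 : ∑ x, |p x| ^ α = ∑ x, p x ^ α :=
      Finset.sum_congr rfl (fun x _ => by rw [abs_of_nonneg (hp0 x)])
    rw [h2, h3, Real.one_rpow, card_univ, Fintype.card_fin] at h1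
    have h4 : (k:ℝ) ^ (1 - α) = 1 / (k:ℝ) ^ (α - 1) := by
      rw [show 1 - α = -(α - 1) by ring, Real.rpow_neg hk0.le, one_div]
    rw [h4, div_le_iff₀ (by positivity), mul_comm]
    exact h1

theorem upper_final (α : ℝ) (hα : 0 < α) (hna : ∀ m : ℕ, α ≠ m) (δ : ℝ) (hδ : 0 < δ)
    (ε : ℝ) (hε : 0 < ε) :
    ∃ C : ℝ, 0 < C ∧ ∃ k₀ : ℕ, ∀ k ≥ k₀, ∃ n : ℕ,
      (n:ℝ) ≤ C * ((k:ℝ) ^ (max 1 (1 / α)) / Real.log k) ∧
      ∃ f : (Fin n → Fin k) → ℝ, ∀ p ∈ stdSimplex ℝ (Fin k),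
        ∑ s : Fin n → Fin k with δ < |f s - ren α p|, ∏ t, p (s t) < ε := by
  have hα1 : α ≠ 1 := by simpa using hna 1
  have h1α : 0 < |1 - α| := abs_pos.mpr (sub_ne_zero.mpr hα1.symm)
  set e : ℝ := max 1 (1 / α) with he
  have he1 : 1 ≤ e := le_max_left _ _
  set t : ℝ := min (1 / 6) (δ * |1 - α| / 6) with ht
  have ht0 : 0 < t := lt_min (by norm_num) (by positivity)
  have ht6 : 6 * t ≤ 1 := by have : t ≤ 1 / 6 := min_le_left _ _; linarith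
  have htδ : 6 * t ≤ δ * |1 - α| := by have : t ≤ δ * |1 - α| / 6 := min_le_right _ _; linarith
  obtain ⟨v, hv, hv2, hvt1, hvt2⟩ := exists_v α t ht0
  obtain ⟨K, hK, HQ⟩ := approx_alpha α hα hna t ht0
  set r : ℕ := ⌊α⌋₊ with hr
  set C : ℝ := 51200 / v ^ 2 * (K / t + 1) ^ (1 / α) with hC
  have hC1 : 1 ≤ C := by
    have h1 : (1:ℝ) ≤ 51200 / v ^ 2 := by
      rw [le_div_iff₀ (by positivity)]; nlinarith
    have h2 : (1:ℝ) ≤ (K / t + 1) ^ (1 / α) := by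
      apply Real.one_le_rpow _ (by positivity)
      have : 0 < K / t := by positivity
      linarith
    rw [hC]
    nlinarith
  have hC0 : 0 < C := by linarith
  set A1 : ℝ := (32 / (v ^ 2 * C)) ^ α with hA1
  have hA10 : 0 < A1 := by positivity
  -- eventual conditions
  have hcast : Tendsto (fun m : ℕ => (m : ℝ)) atTop atTop := tendsto_natCast_atTop_atTop
  have hlog : Tendsto (fun m : ℕ => Real.log (m : ℝ)) atTop atTop := Real.tendsto_log_atTop.comp hcast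
  have ev1 : ∀ᶠ k : ℕ in atTop, (40:ℝ) ≤ Real.log k := hlog.eventually_ge_atTop _
  have ev2 : ∀ᶠ k : ℕ in atTop, 2 * (r:ℝ) ≤ Real.log k := hlog.eventually_ge_atTop _
  have ev3 : ∀ᶠ k : ℕ in atTop, 8 / ε ≤ (k:ℝ) := hcast.eventually_ge_atTop _
  have ev4 : ∀ᶠ k : ℕ in atTop, Real.log k ^ (2:ℝ) / (k:ℝ) ^ (1:ℝ) ≤ 1 := by
    have h1 := (isLittleO_log_rpow_rpow_atTop (2:ℝ) one_pos).tendsto_div_nhds_zero
    exact (h1.comp hcast).eventually (ge_mem_nhds one_pos)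
  have ev5 : ∀ᶠ k : ℕ in atTop, Real.log k ^ (4 * α + 3) / (k:ℝ) ^ (7/10 : ℝ)
      ≤ (ε / 2) * t ^ 2 / (A1 ^ 2 * 8 * Real.exp (6 * r)) := by
    have h1 := (isLittleO_log_rpow_rpow_atTop (4 * α + 3) (show (0:ℝ) < 7 / 10 by norm_num)).tendsto_div_nhds_zero
    exact (h1.comp hcast).eventually (ge_mem_nhds (by positivity))
  have evall := ev1.and (ev2.and (ev3.and (ev4.and ev5)))
  obtain ⟨k₁, hk₁⟩ := eventually_atTop.mp evall
  refine ⟨4 * C, by positivity, max k₁ 1, ?_⟩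
  intro k hk
  obtain ⟨hl40, hlr, hkε, hl2, hl5⟩ := hk₁ k (le_trans (le_max_left _ _) hk)
  have hk1 : 1 ≤ k := le_trans (le_max_right _ _) hk
  have hk0 : (0:ℝ) < k := by exact_mod_cast hk1
  set ℓ : ℝ := Real.log k with hℓ
  have hℓ0 : 0 < ℓ := by linarith
  set d : ℕ := ⌊ℓ / 20⌋₊ with hd
  have hd20 : (d:ℝ) ≤ ℓ / 20 := Nat.floor_le (by positivity)
  have hd40 : ℓ / 40 ≤ d := by
    have := Nat.lt_floor_add_one (ℓ / 20)
    rw [← hd] at this
    linarith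
  have hd1 : 1 ≤ d := by
    rw [hd, Nat.one_le_floor_iff]; linarith
  have hd0 : (0:ℝ) < d := by exact_mod_cast hd1
  obtain ⟨Q, hQd, hQ, hCB⟩ := HQ d hd1
  set D : ℕ := d + r with hD
  have hDℓ : (D:ℝ) ≤ ℓ := by rw [hD]; push_cast; linarith
  have hDd : (D:ℝ) ≤ ℓ / 20 + r := by rw [hD]; push_cast; linarith
  set lam : ℝ := 16 * ℓ / v ^ 2 with hlam
  have hlam0 : 0 < lam := by positivity
  set R : ℝ := (k:ℝ) ^ e / ℓ with hR
  have hkke : (k:ℝ) ≤ (k:ℝ) ^ e := by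
    calc (k:ℝ) = (k:ℝ) ^ (1:ℝ) := (Real.rpow_one _).symm
      _ ≤ _ := Real.rpow_le_rpow_of_exponent_le (by exact_mod_cast hk1) he1
  have hkℓ : ℓ ^ 2 ≤ k := by
    rw [Real.rpow_one, div_le_one hk0] at hl2
    calc ℓ ^ 2 = ℓ ^ (2:ℝ) := by norm_cast
      _ ≤ k := hl2
  have hRk : (k:ℝ) / ℓ ≤ R := div_le_div_of_nonneg_right hkke hℓ0.le
  have hℓk : ℓ ≤ (k:ℝ) / ℓ := by rw [le_div_iff₀ hℓ0]; nlinarith
  have hR1 : 1 ≤ R := by linarith
  set n : ℕ := ⌈C * R⌉₊ with hn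
  have hnlow : C * R ≤ n := Nat.le_ceil _
  have hnup : (n:ℝ) < C * R + 1 := Nat.ceil_lt_add_one (by positivity)
  have hRn : R ≤ n := by nlinarith
  have hn0' : (0:ℝ) < n := by linarith
  have hn0 : 0 < n := by exact_mod_cast hn0'
  refine ⟨n + n, ?_, ?_⟩
  · push_cast
    have : 1 ≤ C * R := by nlinarith
    linarith
  -- the bound on τ
  have hτ : 2 * lam / n ≤ 32 / (v ^ 2 * C) * ℓ ^ 2 / (k:ℝ) ^ e := by
    calc 2 * lam / n ≤ 2 * lam / (C * R) := div_le_div_of_nonneg_left (by positivity) (by positivity) hnlow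
      _ = _ := by rw [hlam, hR]; field_simp; ring
  have hτα : (2 * lam / n) ^ α ≤ A1 * ℓ ^ (2 * α) / (k:ℝ) ^ (e * α) := by
    calc (2 * lam / n) ^ α ≤ (32 / (v ^ 2 * C) * ℓ ^ 2 / (k:ℝ) ^ e) ^ α :=
          Real.rpow_le_rpow (by positivity) hτ hα.le
      _ = _ := by
          rw [Real.div_rpow (by positivity) (by positivity), Real.mul_rpow (by positivity) (by positivity),
            ← Real.rpow_natCast ℓ 2, ← Real.rpow_mul hℓ0.le, ← Real.rpow_mul hk0.le]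
          norm_num [hA1]
  have hF0pos : 0 < (k:ℝ) ^ (1 - e * α) := Real.rpow_pos_of_pos hk0 _
  have hF0eq : (k:ℝ) ^ (1 - e * α) = k / (k:ℝ) ^ (e * α) := by
    rw [Real.rpow_sub hk0, Real.rpow_one]
  have hkeα : 0 < (k:ℝ) ^ (e * α) := Real.rpow_pos_of_pos hk0 _
  have hDn : D ≤ n := by
    have : (D:ℝ) ≤ n := by linarith
    exact_mod_cast this
  have hθ : 4 * (D:ℝ) / (6 * lam) ≤ 1 := by
    rw [div_le_one (by positivity)]
    have h1 : 64 * ℓ ≤ lam := by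
      rw [hlam, le_div_iff₀ (by positivity)]
      have : v ^ 2 ≤ (1/2) ^ 2 := pow_le_pow_left₀ hv.le hv2 2
      nlinarith
    linarith
  have hB : 2 * (k:ℝ) * Real.exp (-(lam * v ^ 2 / 8)) ≤ ε / 4 := by
    have h1 : lam * v ^ 2 / 8 = 2 * ℓ := by rw [hlam]; field_simp; ring
    have h2 : Real.exp (-(2 * ℓ)) = 1 / (k:ℝ) ^ 2 := by
      rw [Real.exp_neg, two_mul, Real.exp_add, hℓ, Real.exp_log hk0]
      field_simp
    rw [h1, h2]
    have h3 : 2 * (k:ℝ) * (1 / (k:ℝ) ^ 2) = 2 / k := by field_simp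
    rw [h3, div_le_iff₀ hk0]
    rw [div_le_iff₀ hε] at hkε
    linarith
  have hbias : (k:ℝ) * ((2 * lam / n) ^ α * (K * (d:ℝ) ^ (-(2 * α)))) ≤ t * (k:ℝ) ^ (1 - e * α) := by
    have h1 : (2 * lam / n) * (d:ℝ) ^ (-(2:ℝ)) ≤ 51200 / (v ^ 2 * C) / (k:ℝ) ^ e := by
      have h2 : (d:ℝ) ^ (-(2:ℝ)) ≤ 1600 / ℓ ^ 2 := by
        rw [Real.rpow_neg hd0.le, ← one_div]
        have h3 : (d:ℝ) ^ (2:ℝ) = (d:ℝ) ^ 2 := by norm_cast
        rw [h3, div_le_div_iff₀ (by positivity) (by positivity)]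
        have h4 : (ℓ / 40) ^ 2 ≤ (d:ℝ) ^ 2 := pow_le_pow_left₀ (by positivity) hd40 2
        have h5 : (ℓ / 40) ^ 2 = ℓ ^ 2 / 1600 := by ring
        rw [h5, div_le_iff₀ (by norm_num)] at h4
        linarith
      calc (2 * lam / n) * (d:ℝ) ^ (-(2:ℝ)) ≤ (32 / (v ^ 2 * C) * ℓ ^ 2 / (k:ℝ) ^ e) * (1600 / ℓ ^ 2) :=
            mul_le_mul hτ h2 (by positivity) (by positivity)
        _ = _ := by field_simp; ring
    have h2 : (2 * lam / n) ^ α * (d:ℝ) ^ (-(2 * α)) ≤ (51200 / (v ^ 2 * C)) ^ α / (k:ℝ) ^ (e * α) := by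
      calc (2 * lam / n) ^ α * (d:ℝ) ^ (-(2 * α)) = ((2 * lam / n) * (d:ℝ) ^ (-(2:ℝ))) ^ α := by
            rw [Real.mul_rpow (by positivity) (by positivity), ← Real.rpow_mul hd0.le]
            congr 2; ring
        _ ≤ (51200 / (v ^ 2 * C) / (k:ℝ) ^ e) ^ α := Real.rpow_le_rpow (by positivity) h1 hα.le
        _ = _ := by rw [Real.div_rpow (by positivity) (by positivity), ← Real.rpow_mul hk0.le]
    have h3 : K * (51200 / (v ^ 2 * C)) ^ α ≤ t := by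
      have h4 : 51200 / (v ^ 2 * C) = 1 / (K / t + 1) ^ (1 / α) := by
        rw [hC]
        have : (K / t + 1) ^ (1 / α) ≠ 0 := by positivity
        field_simp
      rw [h4, Real.div_rpow (by norm_num) (by positivity), Real.one_rpow, ← Real.rpow_mul (by positivity),
        one_div_mul_cancel hα.ne', Real.rpow_one]
      rw [mul_one_div, div_le_iff₀ (by positivity)]
      have : t * (K / t + 1) = K + t := by field_simp
      rw [this]; linarith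
    rw [hF0eq]
    calc (k:ℝ) * ((2 * lam / n) ^ α * (K * (d:ℝ) ^ (-(2 * α))))
        = (k:ℝ) * K * ((2 * lam / n) ^ α * (d:ℝ) ^ (-(2 * α))) := by ring
      _ ≤ (k:ℝ) * K * ((51200 / (v ^ 2 * C)) ^ α / (k:ℝ) ^ (e * α)) :=
          mul_le_mul_of_nonneg_left h2 (by positivity)
      _ = (K * (51200 / (v ^ 2 * C)) ^ α) * (k / (k:ℝ) ^ (e * α)) := by ring
      _ ≤ _ := mul_le_mul_of_nonneg_right h3 (by positivity)
  have hV : ((2 * lam / n) ^ α) ^ 2 * ((k : ℝ) * (4 * 9 ^ D * Real.exp (8 * D / 3))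
        + (k : ℝ) ^ 2 * (((D:ℝ) ^ 2 / n) * (2 * 5 ^ D) ^ 2)) ≤ (ε / 2) * (t * (k:ℝ) ^ (1 - e * α)) ^ 2 := by
    have hD0 : (0:ℝ) ≤ D := Nat.cast_nonneg D
    have hexp1 : (2.7:ℝ) ≤ Real.exp 1 := by linarith [Real.exp_one_gt_d9]
    have h9 : (9:ℝ) ≤ Real.exp 3 := by
      have h2 : Real.exp 3 = (Real.exp 1) ^ 3 := by rw [← Real.exp_nat_mul]; norm_num
      rw [h2]
      calc (9:ℝ) ≤ 2.7 ^ 3 := by norm_num
        _ ≤ _ := pow_le_pow_left₀ (by norm_num) hexp1 3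
    have h25 : (25:ℝ) ≤ Real.exp 4 := by
      have h2 : Real.exp 4 = (Real.exp 1) ^ 4 := by rw [← Real.exp_nat_mul]; norm_num
      rw [h2]
      calc (25:ℝ) ≤ 2.7 ^ 4 := by norm_num
        _ ≤ _ := pow_le_pow_left₀ (by norm_num) hexp1 4
    have he6 : Real.exp (6 * D) ≤ Real.exp (6 * r) * (k:ℝ) ^ (3/10 : ℝ) := by
      rw [Real.rpow_def_of_pos hk0, ← hℓ, ← Real.exp_add]
      apply Real.exp_le_exp.mpr
      linarith
    have hterm1 : 4 * 9 ^ D * Real.exp (8 * D / 3) ≤ 4 * Real.exp (6 * D) := by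
      have h1 : (9:ℝ) ^ D ≤ Real.exp (3 * D) := by
        calc (9:ℝ) ^ D ≤ (Real.exp 3) ^ D := pow_le_pow_left₀ (by norm_num) h9 D
          _ = _ := by rw [← Real.exp_nat_mul]; congr 1; ring
      calc 4 * 9 ^ D * Real.exp (8 * D / 3) ≤ 4 * Real.exp (3 * D) * Real.exp (8 * D / 3) := by
            apply mul_le_mul_of_nonneg_right _ (Real.exp_pos _).le
            linarith
        _ = 4 * Real.exp (3 * D + 8 * D / 3) := by rw [Real.exp_add]; ring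
        _ ≤ _ := by
            apply mul_le_mul_of_nonneg_left _ (by norm_num)
            apply Real.exp_le_exp.mpr
            linarith
    have hterm2 : (2 * 5 ^ D : ℝ) ^ 2 ≤ 4 * Real.exp (6 * D) := by
      have h1 : (25:ℝ) ^ D ≤ Real.exp (4 * D) := by
        calc (25:ℝ) ^ D ≤ (Real.exp 4) ^ D := pow_le_pow_left₀ (by norm_num) h25 D
          _ = _ := by rw [← Real.exp_nat_mul]; congr 1; ring
      calc (2 * 5 ^ D : ℝ) ^ 2 = 4 * 25 ^ D := by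
            rw [mul_pow, ← pow_mul, mul_comm D 2, pow_mul]; norm_num
        _ ≤ 4 * Real.exp (4 * D) := by linarith
        _ ≤ _ := by
            apply mul_le_mul_of_nonneg_left _ (by norm_num)
            apply Real.exp_le_exp.mpr
            linarith
    have hD2n : (D:ℝ) ^ 2 / n ≤ ℓ ^ 3 / k := by
      have h1 : (k:ℝ) / ℓ ≤ n := by linarith
      calc (D:ℝ) ^ 2 / n ≤ ℓ ^ 2 / n := by
            apply div_le_div_of_nonneg_right _ hn0'.le
            exact pow_le_pow_left₀ hD0 hDℓ 2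
        _ ≤ ℓ ^ 2 / (k / ℓ) := div_le_div_of_nonneg_left (by positivity) (by positivity) h1
        _ = _ := by field_simp
    have hbr : (k : ℝ) * (4 * 9 ^ D * Real.exp (8 * D / 3))
        + (k : ℝ) ^ 2 * (((D:ℝ) ^ 2 / n) * (2 * 5 ^ D) ^ 2) ≤ 8 * Real.exp (6 * r) * ℓ ^ 3 * (k:ℝ) ^ (13/10 : ℝ) := by
      have hℓ3 : 1 ≤ ℓ ^ 3 := one_le_pow₀ (by linarith)
      have h1 : (k : ℝ) * (4 * 9 ^ D * Real.exp (8 * D / 3)) ≤ k * (4 * Real.exp (6 * D)) * ℓ ^ 3 := by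
        calc (k : ℝ) * (4 * 9 ^ D * Real.exp (8 * D / 3)) ≤ k * (4 * Real.exp (6 * D)) :=
              mul_le_mul_of_nonneg_left hterm1 hk0.le
          _ = k * (4 * Real.exp (6 * D)) * 1 := by ring
          _ ≤ _ := mul_le_mul_of_nonneg_left hℓ3 (by positivity)
      have h2 : (k : ℝ) ^ 2 * (((D:ℝ) ^ 2 / n) * (2 * 5 ^ D) ^ 2) ≤ k * (4 * Real.exp (6 * D)) * ℓ ^ 3 := by
        calc (k : ℝ) ^ 2 * (((D:ℝ) ^ 2 / n) * (2 * 5 ^ D) ^ 2) ≤ (k : ℝ) ^ 2 * ((ℓ ^ 3 / k) * (4 * Real.exp (6 * D))) := by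
              apply mul_le_mul_of_nonneg_left _ (by positivity)
              exact mul_le_mul hD2n hterm2 (by positivity) (by positivity)
          _ = _ := by field_simp
      have h3 : (k:ℝ) * (k:ℝ) ^ (3/10 : ℝ) = (k:ℝ) ^ (13/10 : ℝ) := by
        rw [← Real.rpow_one_add' hk0.le (by norm_num)]; norm_num
      calc _ ≤ k * (4 * Real.exp (6 * D)) * ℓ ^ 3 + k * (4 * Real.exp (6 * D)) * ℓ ^ 3 := add_le_add h1 h2
        _ = 8 * k * ℓ ^ 3 * Real.exp (6 * D) := by ring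
        _ ≤ 8 * k * ℓ ^ 3 * (Real.exp (6 * r) * (k:ℝ) ^ (3/10 : ℝ)) := mul_le_mul_of_nonneg_left he6 (by positivity)
        _ = 8 * Real.exp (6 * r) * ℓ ^ 3 * ((k:ℝ) * (k:ℝ) ^ (3/10 : ℝ)) := by ring
        _ = _ := by rw [h3]
    rw [hF0eq]
    calc ((2 * lam / n) ^ α) ^ 2 * ((k : ℝ) * (4 * 9 ^ D * Real.exp (8 * D / 3))
        + (k : ℝ) ^ 2 * (((D:ℝ) ^ 2 / n) * (2 * 5 ^ D) ^ 2))
        ≤ (A1 * ℓ ^ (2 * α) / (k:ℝ) ^ (e * α)) ^ 2 * (8 * Real.exp (6 * r) * ℓ ^ 3 * (k:ℝ) ^ (13/10 : ℝ)) := by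
          apply mul_le_mul _ hbr (by positivity) (by positivity)
          exact pow_le_pow_left₀ (by positivity) hτα 2
      _ = (A1 ^ 2 * 8 * Real.exp (6 * r)) * (ℓ ^ (4 * α + 3) / (k:ℝ) ^ (7/10 : ℝ)) * (k / (k:ℝ) ^ (e * α)) ^ 2 := by
          have h1 : (ℓ ^ (2 * α)) ^ 2 * ℓ ^ 3 = ℓ ^ (4 * α + 3) := by
            rw [← Real.rpow_natCast (ℓ ^ (2 * α)) 2, ← Real.rpow_mul hℓ0.le, ← Real.rpow_natCast ℓ 3, ← Real.rpow_add hℓ0]
            congr 1; push_cast; ring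
          have h2 : (k:ℝ) ^ (13/10 : ℝ) * (k:ℝ) ^ (7/10 : ℝ) = (k:ℝ) ^ 2 := by
            rw [← Real.rpow_add hk0, ← Real.rpow_natCast (k:ℝ) 2]
            congr 1; norm_num
          have h3 : (k:ℝ) ^ (7/10 : ℝ) ≠ 0 := by positivity
          rw [← h1]
          have h4 : (k:ℝ) ^ (13/10 : ℝ) = (k:ℝ) ^ 2 / (k:ℝ) ^ (7/10 : ℝ) := by
            rw [← h2]; field_simp
          rw [h4]
          ring
      _ ≤ (A1 ^ 2 * 8 * Real.exp (6 * r)) * ((ε / 2) * t ^ 2 / (A1 ^ 2 * 8 * Real.exp (6 * r))) * (k / (k:ℝ) ^ (e * α)) ^ 2 := by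
          apply mul_le_mul_of_nonneg_right _ (by positivity)
          exact mul_le_mul_of_nonneg_left hl5 (by positivity)
      _ = _ := by
          field_simp
  exact upper_master α δ ε hα hα1 hδ hε hk1 hn0 Q D hQd hCB lam v t (K * (d:ℝ) ^ (-(2 * α)))
    ((k:ℝ) ^ (1 - e * α)) hlam0 hv hv2 ht0 ht6 htδ hvt1 hvt2 hQ (by positivity) hF0pos
    (fun p hp => power_sum_lower α hα k hk1 p hp) hbias hDn hθ hV hB

end Pool.Agent.Helper82_Renyi
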